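import Pool.Agent.H543.DP.Vt
import Pool.Agent.H543.DG.Par
import Pool.Agent.H543.DG.Ox

/-!
# The bound for the variance
-/

set_option autoImplicit false

namespace Pool.Agent.H543.DP

open Finset Filter
open Pool.Agent.H543.DG
open Pool.Agent.Y346.PA (S_KL)
open scoped Classical

/-- **The variance is small.** -/
theorem V_small (kl : S_KL) (F : Fm) (a : ℤ) (ha : a ≠ 0) (K : ℕ) (hF : Cone F a K) (Md : ℕ) (Nb : ℝ)
    (hNb0 : 0 ≤ Nb) (hNb : ∀ m k : ℤ, (Md : ℤ) < m → m ∣ k ^ 2 + a → (Nn F K m k : ℝ) ≤ Nb)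
    (ε ρ κ : ℝ) (hκ : 0 < κ) (hκε : 100 * κ ≤ ε) (hκρ : 100 * κ ≤ ρ)
    (hε : ε ≤ 1 / 100) : ∃ X0 : ℕ, ∀ X : ℕ, X0 ≤ X → ∀ H : ℕ, (X : ℝ) ^ (1 - κ) ≤ H → H ≤ X →
    ∀ N : ℕ, (N : ℝ) ≤ (X : ℝ) ^ (1 / 12 - ε) →
    ∀ b : ℕ → ℝ, (∀ n, |b n| ≤ 1) → ∀ Xs : Finset ℕ,
    (∀ x ∈ Xs, (X : ℝ) ^ (11 / 25 : ℝ) ≤ x ∧ (x : ℝ) ^ 2 ≤ (X : ℝ) ^ (1 - ε)) →
    ∑ x ∈ Xs, (x : ℝ) ^ 2 * RB F a K X H b (Bs X N ρ) x ≤
      (H : ℝ) ^ 2 * (X : ℝ) ^ (-4 * κ) := by
  obtain ⟨C, hC, hV⟩ := V_total kl κ hκ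
  obtain ⟨X1, hX1⟩ := hyp_holds a ha K κ ρ ε hκ (by linarith) (by linarith)
  obtain ⟨X2, hX2⟩ := ev_all a κ hκ
  have e1 : ∀ᶠ X : ℕ in atTop, 4 * Nb * K + 36 * K * Nb + 16 * K * Nb +
      2 * K * (596 * (K : ℝ) ^ 4 + 936 * (K : ℝ) ^ 4 * C) ≤ (X : ℝ) ^ (12 * κ) :=
    tendsto_natCast_atTop_atTop.eventually
      ((tendsto_rpow_atTop (by positivity)).eventually_ge_atTop _)
  have e2 : ∀ᶠ X : ℕ in atTop, ((K * (Md + 1) : ℕ) : ℝ) + 1 ≤ (X : ℝ) ^ (11 / 25 : ℝ) :=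
    tendsto_natCast_atTop_atTop.eventually
      ((tendsto_rpow_atTop (by positivity)).eventually_ge_atTop _)
  obtain ⟨X3, hX3⟩ := eventually_atTop.1 (e1.and e2)
  refine ⟨max (max X1 X2) X3, fun X hX H hH1 hH2 N hN b hb Xs hXs => ?_⟩
  obtain ⟨a1, a2, a3, a4⟩ := hX2 X (((le_max_right _ _).trans (le_max_left _ _)).trans hX)
  obtain ⟨b1, b2⟩ := hX3 X ((le_max_right _ _).trans hX)
  have hXr : (3 : ℝ) ≤ X := by exact_mod_cast a4
  have hX0 : (0 : ℝ) < X := by linarith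
  have hX1' : (1 : ℝ) ≤ X := by linarith
  have hKr : (1 : ℝ) ≤ K := by exact_mod_cast hF.K1
  have hC0 : 0 < C := by linarith
  set M2 : ℕ := ⌊(K : ℝ) * (X : ℝ) ^ (1 - ε)⌋₊ with hM2
  have hM2r : (M2 : ℝ) ≤ K * (X : ℝ) ^ (1 - ε) := Nat.floor_le (by positivity)
  have hyp := hX1 X (((le_max_left _ _).trans (le_max_left _ _)).trans hX) H N M2 hH1 hH2
    (hN.trans (Real.rpow_le_rpow_of_exponent_le hX1' (by linarith))) hM2r (by linarith)
  have hXs' : XsOK K Md M2 Xs := by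
    intro x hx
    obtain ⟨h1, h2⟩ := hXs x hx
    have h3 : ((K * (Md + 1) : ℕ) : ℝ) + 1 ≤ x := b2.trans h1
    have h4 : K * (Md + 1) + 1 ≤ x := by exact_mod_cast h3
    refine ⟨by omega, by nlinarith, ?_⟩
    apply Nat.le_floor
    push_cast
    rw [← sq]
    exact mul_le_mul_of_nonneg_left h2 (by linarith)
  have key := hV F a K hF X H (Bs X N ρ) N Md M2 _ _ _ _ Nb hyp hNb0 hNb b hb Xs hXs' (hwd X κ) (fun x => by unfold hwd; omega)
  refine key.trans ?_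
  have hH0 : (0 : ℝ) < H := lt_of_lt_of_le (by positivity) hH1
  have hXH : (X : ℝ) ≤ H * (X : ℝ) ^ κ := by
    calc (X : ℝ) = (X : ℝ) ^ (1 - κ) * (X : ℝ) ^ κ := by
          rw [← Real.rpow_add hX0]
          rw [show 1 - κ + κ = 1 by ring, Real.rpow_one]
      _ ≤ _ := mul_le_mul_of_nonneg_right hH1 (by positivity)
  have hT3 : ((X : ℝ) ^ κ) ^ 3 = (X : ℝ) ^ (3 * κ) := by
    rw [← Real.rpow_natCast, ← Real.rpow_mul hX0.le]
    congr 1
    push_cast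
    ring
  have hT4 : ((X : ℝ) ^ κ) ^ 4 = (X : ℝ) ^ (4 * κ) := by
    rw [← Real.rpow_natCast, ← Real.rpow_mul hX0.le]
    congr 1
    push_cast
    ring
  have hT2 : ((X : ℝ) ^ κ) ^ 2 = (X : ℝ) ^ (2 * κ) := by
    rw [← Real.rpow_natCast, ← Real.rpow_mul hX0.le]
    congr 1
    push_cast
    ring
  have hr16 : (0 : ℝ) < (X : ℝ) ^ (-16 * κ) := by positivity
  have hHH : (0 : ℝ) ≤ (H : ℝ) ^ 2 := by positivity
  have t1 : 4 * ((X : ℝ) ^ κ) ^ 3 * Nb * M2 * H ≤ (4 * Nb * K) * ((H : ℝ) ^ 2 * (X : ℝ) ^ (-16 * κ)) := by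
    rw [hT3]
    calc 4 * (X : ℝ) ^ (3 * κ) * Nb * M2 * H ≤ 4 * (X : ℝ) ^ (3 * κ) * Nb * (K * (X : ℝ) ^ (1 - ε)) * H := by
          gcongr
      _ = (4 * Nb * K) * (H * ((X : ℝ) ^ (1 - κ) * ((X : ℝ) ^ (3 * κ) * (X : ℝ) ^ (κ - ε)))) := by
          have : (X : ℝ) ^ (1 - ε) = (X : ℝ) ^ (1 - κ) * (X : ℝ) ^ (κ - ε) := by
            rw [← Real.rpow_add hX0]
            congr 1
            ring
          rw [this]
          ring
      _ ≤ (4 * Nb * K) * (H * (H * (X : ℝ) ^ (-16 * κ))) := by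
          apply mul_le_mul_of_nonneg_left _ (by positivity)
          apply mul_le_mul_of_nonneg_left _ hH0.le
          apply mul_le_mul hH1 _ (by positivity) hH0.le
          exact rmul2 X hX1' _ _ _ (by linarith)
      _ = _ := by ring
  have t2 : 2 * ((X : ℝ) ^ κ) ^ 4 * Nb * (18 * K * (H : ℝ) ^ 2 / (X : ℝ) ^ ρ + 8 * H * M2) ≤
      (36 * K * Nb + 16 * K * Nb) * ((H : ℝ) ^ 2 * (X : ℝ) ^ (-16 * κ)) := by
    rw [hT4]
    have u1 : 2 * (X : ℝ) ^ (4 * κ) * Nb * (18 * K * (H : ℝ) ^ 2 / (X : ℝ) ^ ρ) ≤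
        36 * K * Nb * ((H : ℝ) ^ 2 * (X : ℝ) ^ (-16 * κ)) := by
      calc 2 * (X : ℝ) ^ (4 * κ) * Nb * (18 * K * (H : ℝ) ^ 2 / (X : ℝ) ^ ρ) =
          36 * K * Nb * ((H : ℝ) ^ 2 * ((X : ℝ) ^ (4 * κ) * (X : ℝ) ^ (-ρ))) := by
            rw [Real.rpow_neg hX0.le]
            ring
        _ ≤ _ := by
            apply mul_le_mul_of_nonneg_left _ (by positivity)
            apply mul_le_mul_of_nonneg_left _ hHH
            exact rmul2 X hX1' _ _ _ (by linarith)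
    have u2 : 2 * (X : ℝ) ^ (4 * κ) * Nb * (8 * H * M2) ≤
        16 * K * Nb * ((H : ℝ) ^ 2 * (X : ℝ) ^ (-16 * κ)) := by
      calc 2 * (X : ℝ) ^ (4 * κ) * Nb * (8 * H * M2) ≤
          2 * (X : ℝ) ^ (4 * κ) * Nb * (8 * H * (K * (X : ℝ) ^ (1 - ε))) := by
            gcongr
        _ = 16 * K * Nb * (H * ((X : ℝ) ^ (1 - κ) * ((X : ℝ) ^ (4 * κ) * (X : ℝ) ^ (κ - ε)))) := by
            have : (X : ℝ) ^ (1 - ε) = (X : ℝ) ^ (1 - κ) * (X : ℝ) ^ (κ - ε) := by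
              rw [← Real.rpow_add hX0]
              congr 1
              ring
            rw [this]
            ring
        _ ≤ 16 * K * Nb * (H * (H * (X : ℝ) ^ (-16 * κ))) := by
            apply mul_le_mul_of_nonneg_left _ (by positivity)
            apply mul_le_mul_of_nonneg_left _ hH0.le
            apply mul_le_mul hH1 _ (by positivity) hH0.le
            exact rmul2 X hX1' _ _ _ (by linarith)
        _ = _ := by ring
    rw [mul_add, add_mul]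
    exact add_le_add u1 u2
  have t3 : ∑ x ∈ Xs, 2 * K * (H : ℝ) * ((16 * Vv K X H x (hwd X κ x) + 16 +
      4 * (X : ℝ) ^ (κ - ρ) * K * H / x) * ((X : ℝ) ^ κ) ^ 2 +
        4 * (E2 C κ K X H x (hwd X κ x) N * (N * (X : ℝ) ^ κ) ^ 2)) ≤
      2 * K * (596 * (K : ℝ) ^ 4 + 936 * (K : ℝ) ^ 4 * C) * ((H : ℝ) ^ 2 * (X : ℝ) ^ (-16 * κ)) := by
    have hN2 : (N * (X : ℝ) ^ κ) ^ 2 ≤ (X : ℝ) ^ (1 / 6 - 2 * ε + 2 * κ) := by
      calc (N * (X : ℝ) ^ κ) ^ 2 ≤ ((X : ℝ) ^ (1 / 12 - ε) * (X : ℝ) ^ κ) ^ 2 := by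
            apply pow_le_pow_left₀ (by positivity)
            exact mul_le_mul_of_nonneg_right hN (by positivity)
        _ = (X : ℝ) ^ (1 / 6 - 2 * ε + 2 * κ) := by
            rw [← Real.rpow_add hX0, ← Real.rpow_natCast, ← Real.rpow_mul hX0.le]
            congr 1
            push_cast
            ring
    have v1 : ∀ x ∈ Xs, 2 * K * (H : ℝ) * ((16 * Vv K X H x (hwd X κ x) + 16 +
        4 * (X : ℝ) ^ (κ - ρ) * K * H / x) *
      ((X : ℝ) ^ κ) ^ 2 + 4 * (E2 C κ K X H x (hwd X κ x) N * (N * (X : ℝ) ^ κ) ^ 2)) ≤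
        2 * K * (596 * (K : ℝ) ^ 4 + 936 * (K : ℝ) ^ 4 * C) * (H * (X * (X : ℝ) ^ (-18 * κ))) *
          (1 / x) := by
      intro x hx
      obtain ⟨h1, h2⟩ := hXs x hx
      have hx0 : (0 : ℝ) < x := lt_of_lt_of_le (by positivity) h1
      obtain ⟨o1, o2⟩ := one_x C κ ε K hF.K1 hC hκ hκε hε X H x N (by omega) hH2 h1 h2 hN
      have hE0 : 0 ≤ E2 C κ K X H x (hwd X κ x) N := by
        unfold E2 TT Vv
        positivity
      generalize 16 * Vv K X H x (hwd X κ x) + 16 = v at *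
      generalize E2 C κ K X H x (hwd X κ x) N = e at *
      have hK14 : (K : ℝ) ≤ (K : ℝ) ^ 4 := le_self_pow₀ hKr (by norm_num)
      have o3 : 4 * (X : ℝ) ^ (κ - ρ) * K * H / x ≤ 1 / x * (X * (4 * (K : ℝ) ^ 4 * (X : ℝ) ^ (-20 * κ))) := by
        have hHr : (H : ℝ) ≤ X := by exact_mod_cast hH2
        calc 4 * (X : ℝ) ^ (κ - ρ) * K * H / x = 1 / x * (H * (4 * K * (X : ℝ) ^ (κ - ρ))) := by ring
          _ ≤ _ := by
              apply mul_le_mul_of_nonneg_left _ (by positivity)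
              apply mul_le_mul hHr _ (by positivity) hX0.le
              apply mul_le_mul _ _ (by positivity) (by positivity)
              · linarith
              · exact Real.rpow_le_rpow_of_exponent_le hX1' (by linarith)
      have o4 : (v + 4 * (X : ℝ) ^ (κ - ρ) * K * H / x) * ((X : ℝ) ^ κ) ^ 2 ≤
          1 / x * (596 * (K : ℝ) ^ 4 * (X * (X : ℝ) ^ (-18 * κ))) := by
        rw [hT2]
        calc (v + 4 * (X : ℝ) ^ (κ - ρ) * K * H / x) * (X : ℝ) ^ (2 * κ) ≤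
            (1 / x * (X * (596 * (K : ℝ) ^ 4 * (X : ℝ) ^ (-20 * κ)))) * (X : ℝ) ^ (2 * κ) := by
              apply mul_le_mul_of_nonneg_right _ (by positivity)
              linarith
          _ = 1 / x * (596 * (K : ℝ) ^ 4 * (X * ((X : ℝ) ^ (-20 * κ) * (X : ℝ) ^ (2 * κ)))) := by ring
          _ ≤ _ := by
              apply mul_le_mul_of_nonneg_left _ (by positivity)
              apply mul_le_mul_of_nonneg_left _ (by positivity)
              apply mul_le_mul_of_nonneg_left _ hX0.le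
              exact rmul2 X hX1' _ _ _ (by linarith)
      have o5 : e * (N * (X : ℝ) ^ κ) ^ 2 ≤
          1 / x * (234 * (K : ℝ) ^ 4 * C * (X * (X : ℝ) ^ (-18 * κ))) := by
        calc e * (N * (X : ℝ) ^ κ) ^ 2 ≤
            (1 / x * (234 * (K : ℝ) ^ 4 * C * (X : ℝ) ^ (5 / 6 - 7 * ε / 4 + 21 * κ))) *
              (X : ℝ) ^ (1 / 6 - 2 * ε + 2 * κ) := by
              apply mul_le_mul o2 hN2 (by positivity) (by positivity)
          _ = 1 / x * (234 * (K : ℝ) ^ 4 * C * ((X : ℝ) ^ (5 / 6 - 7 * ε / 4 + 21 * κ) *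
              (X : ℝ) ^ (1 / 6 - 2 * ε + 2 * κ))) := by ring
          _ ≤ 1 / x * (234 * (K : ℝ) ^ 4 * C * ((X : ℝ) ^ (1 + -18 * κ))) := by
              apply mul_le_mul_of_nonneg_left _ (by positivity)
              apply mul_le_mul_of_nonneg_left _ (by positivity)
              exact rmul2 X hX1' _ _ _ (by linarith)
          _ = _ := by
              rw [Real.rpow_add hX0, Real.rpow_one]
      calc 2 * K * (H : ℝ) * ((v + 4 * (X : ℝ) ^ (κ - ρ) * K * H / x) *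
          ((X : ℝ) ^ κ) ^ 2 + 4 * (e * (N * (X : ℝ) ^ κ) ^ 2)) ≤
          2 * K * (H : ℝ) * (1 / x * (596 * (K : ℝ) ^ 4 * (X * (X : ℝ) ^ (-18 * κ))) +
            4 * (1 / x * (234 * (K : ℝ) ^ 4 * C * (X * (X : ℝ) ^ (-18 * κ))))) := by
            apply mul_le_mul_of_nonneg_left _ (by positivity)
            linarith
        _ = _ := by ring
    refine (sum_le_sum v1).trans ?_
    rw [← mul_sum]
    have v2 : ∑ x ∈ Xs, 1 / (x : ℝ) ≤ (X : ℝ) ^ κ := by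
      calc ∑ x ∈ Xs, 1 / (x : ℝ) ≤ ∑ x ∈ Icc 1 X, 1 / (x : ℝ) := by
            apply sum_le_sum_of_subset_of_nonneg
            · intro x hx
              have h1 := (hXs' x hx).1
              obtain ⟨h3, h4⟩ := hXs x hx
              rw [mem_Icc]
              refine ⟨by omega, ?_⟩
              have h5 : (x : ℝ) ^ 2 ≤ X := by
                refine h4.trans ?_
                calc (X : ℝ) ^ (1 - ε) ≤ (X : ℝ) ^ (1 : ℝ) :=
                      Real.rpow_le_rpow_of_exponent_le hX1' (by linarith)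
                  _ = X := Real.rpow_one _
              have h6 : (1 : ℝ) ≤ x := by exact_mod_cast (by omega : 1 ≤ x)
              have h7 : (x : ℝ) ≤ X := by nlinarith
              exact_mod_cast h7
            · intro _ _ _
              positivity
        _ ≤ 1 + Real.log X := harm X
        _ ≤ _ := by linarith
    calc 2 * K * (596 * (K : ℝ) ^ 4 + 936 * (K : ℝ) ^ 4 * C) * (H * (X * (X : ℝ) ^ (-18 * κ))) *
          ∑ x ∈ Xs, 1 / (x : ℝ) ≤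
        2 * K * (596 * (K : ℝ) ^ 4 + 936 * (K : ℝ) ^ 4 * C) *
          (H * ((H * (X : ℝ) ^ κ) * (X : ℝ) ^ (-18 * κ))) * (X : ℝ) ^ κ := by
          apply mul_le_mul _ v2 (sum_nonneg fun x _ => by positivity) (by positivity)
          apply mul_le_mul_of_nonneg_left _ (by positivity)
          apply mul_le_mul_of_nonneg_left _ hH0.le
          exact mul_le_mul_of_nonneg_right hXH (by positivity)
      _ = 2 * K * (596 * (K : ℝ) ^ 4 + 936 * (K : ℝ) ^ 4 * C) *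
          ((H : ℝ) ^ 2 * ((X : ℝ) ^ κ * (X : ℝ) ^ (-18 * κ) * (X : ℝ) ^ κ)) := by ring
      _ ≤ _ := by
          apply mul_le_mul_of_nonneg_left _ (by positivity)
          apply mul_le_mul_of_nonneg_left _ hHH
          exact rmul3 X hX1' _ _ _ _ (by linarith)
  calc _ ≤ (4 * Nb * K) * ((H : ℝ) ^ 2 * (X : ℝ) ^ (-16 * κ)) +
      (36 * K * Nb + 16 * K * Nb) * ((H : ℝ) ^ 2 * (X : ℝ) ^ (-16 * κ)) +
      2 * K * (596 * (K : ℝ) ^ 4 + 936 * (K : ℝ) ^ 4 * C) * ((H : ℝ) ^ 2 * (X : ℝ) ^ (-16 * κ)) :=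
        add_le_add (add_le_add t1 t2) t3
    _ = (H : ℝ) ^ 2 * ((4 * Nb * K + 36 * K * Nb + 16 * K * Nb +
      2 * K * (596 * (K : ℝ) ^ 4 + 936 * (K : ℝ) ^ 4 * C)) * (X : ℝ) ^ (-16 * κ)) := by ring
    _ ≤ (H : ℝ) ^ 2 * ((X : ℝ) ^ (12 * κ) * (X : ℝ) ^ (-16 * κ)) := by
        apply mul_le_mul_of_nonneg_left _ hHH
        exact mul_le_mul_of_nonneg_right b1 hr16.le
    _ ≤ _ := by
        apply mul_le_mul_of_nonneg_left _ hHH
        exact rmul2 X hX1' _ _ _ (by linarith)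

end Pool.Agent.H543.DP
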