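import Pool.Agent.H543.DP.Fin3

/-!
# Quadratic polynomials in short intervals and classes: the bilinear form
-/

set_option autoImplicit false

namespace Pool.Agent.H543.DP

open Finset Filter Topology
open Pool.Agent.Y346.PA (S_KL)
open Pool.Agent.H543.DG hiding rep_sum lin_q lin_big lin_all prime_rough prime_up rough_low rough_anti rough_nat

/-- the counts as counts for `k ^ 2 + a` -/
theorem cF_eq' (A : ℕ) (B C : ℤ) (hA1 : 1 ≤ A) (Q : ℕ) (r : ℤ) (X H d : ℕ)
    (hX : 0 ≤ 2 * (A : ℤ) * X + B) (hd : Nat.Coprime d (2 * A)) :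
    cF A B C X H Q r d = cIq (dt A B C) (2 * (A : ℤ) * X + B).toNat (2 * A * H) (2 * A * Q)
      (2 * A * r + B) d := by
  classical
  have hA : (0 : ℤ) < A := by exact_mod_cast hA1
  have hc : IsCoprime (d : ℤ) (4 * (A : ℤ)) := by
    have h0 : Nat.Coprime d (2 * (2 * A)) := Nat.Coprime.mul_right (Nat.Coprime.coprime_mul_right_right hd) hd
    have h2 := Nat.isCoprime_iff_coprime.2 h0
    push_cast at h2
    have h3 : (2 : ℤ) * (2 * A) = 4 * A := by ring
    rw [h3] at h2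
    exact h2
  have hX' : (((2 * (A : ℤ) * X + B).toNat : ℕ) : ℤ) = 2 * A * X + B := Int.toNat_of_nonneg hX
  unfold cF cIq
  congr 1
  rw [hX']
  apply card_bij (fun (n : ℕ) _ => 2 * (A : ℤ) * n + B)
  · intro n hn
    unfold NS at hn
    rw [mem_filter, mem_filter, mem_Ioc, dvd_NV] at hn
    obtain ⟨⟨⟨h1, h2⟩, h3⟩, h4⟩ := hn
    rw [mem_filter, mem_Ioc, four_fv]
    have h1' : (X : ℤ) < n := by exact_mod_cast h1
    have h2' : (n : ℤ) ≤ X + H := by exact_mod_cast h2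
    refine ⟨⟨?_, ?_⟩, h4.mul_left _, ?_⟩
    · nlinarith
    · push_cast
      nlinarith
    · have : 2 * (A : ℤ) * n + B - (2 * A * r + B) = 2 * A * (n - r) := by ring
      rw [this]
      exact mul_dvd_mul_left _ h3
  · intro n _ n' _ he
    have h1 : 2 * (A : ℤ) * n = 2 * A * n' := by linarith
    have h2 : (n : ℤ) = n' := mul_left_cancel₀ (by positivity) h1
    exact_mod_cast h2
  · intro k hk
    rw [mem_filter, mem_Ioc] at hk
    obtain ⟨⟨h1, h2⟩, h3, ⟨t, ht⟩⟩ := hk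
    obtain ⟨n, hn⟩ : ∃ n : ℤ, n = r + Q * t := ⟨_, rfl⟩
    have hk : k = 2 * A * n + B := by
      rw [hn]
      linear_combination ht
    rw [hk] at h1 h2 h3
    rw [four_fv] at h3
    push_cast at h2
    have e1 : (X : ℤ) < n := by
      by_contra hc
      push Not at hc
      nlinarith
    have e2 : n ≤ X + H := by
      by_contra hc
      push Not at hc
      nlinarith
    have hn0 : 0 ≤ n := by
      have := Int.natCast_nonneg X
      linarith
    have hnn : ((n.toNat : ℕ) : ℤ) = n := Int.toNat_of_nonneg hn0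
    refine ⟨n.toNat, ?_, ?_⟩
    · unfold NS
      rw [mem_filter, mem_filter, mem_Ioc, dvd_NV, hnn]
      refine ⟨⟨⟨by omega, by omega⟩, ⟨t, by rw [hn]; ring⟩⟩, ?_⟩
      exact hc.dvd_of_dvd_mul_left h3
    · rw [hnn, hk]

/-- the densities of the moduli prime to `2 A` -/
theorem om_gd' (A : ℕ) (B C : ℤ) (d : ℕ) (hd0 : 0 < d) (hd : Nat.Coprime d (2 * A)) :
    (om A B C d : ℝ) / d = gd (dt A B C) d := by
  have hcop : IsCoprime (2 * (A : ℤ)) (d : ℤ) := by
    have h2 := Nat.isCoprime_iff_coprime.2 hd.symm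
    push_cast at h2
    exact h2
  have h4 : IsCoprime (d : ℤ) (4 * (A : ℤ)) := by
    have h0 : Nat.Coprime d (2 * (2 * A)) := Nat.Coprime.mul_right (Nat.Coprime.coprime_mul_right_right hd) hd
    have h2 := Nat.isCoprime_iff_coprime.2 h0
    push_cast at h2
    have h3 : (2 : ℤ) * (2 * A) = 4 * A := by ring
    rw [h3] at h2
    exact h2
  have h5 := aff d hd0 (2 * (A : ℤ)) B hcop (fun k => (d : ℤ) ∣ k ^ 2 + dt A B C) (by
    intro m n hmn
    have h6 : (d : ℤ) ∣ (m ^ 2 + dt A B C) - (n ^ 2 + dt A B C) := by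
      have : (m ^ 2 + dt A B C) - (n ^ 2 + dt A B C) = (m - n) * (m + n) := by ring
      rw [this]
      exact hmn.mul_right _
    constructor
    · intro h7
      exact (dvd_sub_right h7).1 h6
    · intro h7
      exact (dvd_sub_left h7).1 h6)
  rw [gd_ro, ← Pool.Agent.Y781.JR.rho_eq, ← h5]
  unfold om
  congr 2
  congr 1
  ext m
  simp only [mem_filter]
  apply and_congr_right
  intro _
  rw [four_fv]
  exact ⟨fun h => h.mul_left _, fun h => h4.dvd_of_dvd_mul_left h⟩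

open Classical in
/-- **the bilinear form** -/
theorem bil_f (kl : S_KL) (A : ℕ) (B C : ℤ) (hA : 1 ≤ A) (hna : ¬ IsSquare (-(dt A B C)))
    (ε ρ : ℝ) (hε : 0 < ε) (hρ : 0 < ρ) :
    ∃ δ : ℝ, 0 < δ ∧ ∀ᶠ X : ℕ in atTop, ∀ H : ℕ, (X : ℝ) ^ (1 - δ) ≤ H → (H : ℤ) + |B| ≤ X →
      ∀ (Q : ℕ) (r : ℤ), 1 ≤ Q →
      ∀ M N : ℕ, (M : ℝ) ≤ (X : ℝ) ^ (1 - ε) → (N : ℝ) ≤ (X : ℝ) ^ (1 / 12 - ε) →
      ∀ u v : ℕ → ℝ, (∀ m, |u m| ≤ 1) → (∀ m, u m ≠ 0 → Squarefree m ∧ Nat.Coprime m (2 * A * Q)) →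
        (∀ n, |v n| ≤ 1) → (∀ n, v n ≠ 0 → Squarefree n ∧ Nat.Coprime n (2 * A * Q) ∧
          ∀ p ∈ n.primeFactors, (X : ℝ) ^ ρ ≤ p) →
      |∑ m ∈ Icc 1 M, ∑ n ∈ (Icc 1 N).filter (fun n => Nat.Coprime m n),
        u m * v n * (cF A B C X H Q r (m * n) -
          (H : ℝ) / Q * ((om A B C (m * n) : ℝ) / ((m * n : ℕ) : ℝ)))| ≤ H * (X : ℝ) ^ (-δ) := by
  obtain ⟨D⟩ := dec_exists hna
  set a : ℤ := dt A B C with ha
  set ε' : ℝ := min ε (1 / 100) with hε'
  have h1 : 0 < ε' := lt_min hε (by norm_num)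
  set κ : ℝ := min (ε' / 200) (ρ / 200) with hκ
  have h2 : 0 < κ := lt_min (by positivity) (by positivity)
  have h3 : κ ≤ ε' / 200 := min_le_left _ _
  have h4 : κ ≤ ρ / 200 := min_le_right _ _
  obtain ⟨X1, HB⟩ := bil kl D ε' (ρ / 2) κ h2 (by linarith) (by linarith) (min_le_right _ _)
  have hAr : (1 : ℝ) ≤ A := by exact_mod_cast hA
  have hεm : ε' ≤ 1 / 100 := min_le_right _ _
  have hεm2 : ε' ≤ ε := min_le_left _ _
  refine ⟨κ / 4, by positivity, ?_⟩
  have ev1 : ∀ᶠ X : ℕ in atTop, (2 * A : ℝ) ≤ (X : ℝ) ^ (κ / 4) :=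
    tendsto_natCast_atTop_atTop.eventually
      ((tendsto_rpow_atTop (by positivity)).eventually_ge_atTop _)
  have ev2 : ∀ᶠ X : ℕ in atTop, (2 : ℝ) ≤ (X : ℝ) ^ (κ / 2) :=
    tendsto_natCast_atTop_atTop.eventually
      ((tendsto_rpow_atTop (by positivity)).eventually_ge_atTop _)
  filter_upwards [ev1, ev2, eventually_ge_atTop (max X1 (max (3 * A) (B.natAbs + 3)))] with X g1 g2 hXm
  intro H hH1 hH2 Q r hQ1 M N hM hN u v hu hu2 hv hv2
  have hX1 : X1 ≤ X := (le_max_left _ _).trans hXm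
  have hXm2 := (le_max_right _ _).trans hXm
  have hX3A : 3 * A ≤ X := (le_max_left _ _).trans hXm2
  have hXB : B.natAbs + 3 ≤ X := (le_max_right _ _).trans hXm2
  have hX3 : 3 ≤ X := by omega
  have hXr : (3 : ℝ) ≤ X := by exact_mod_cast hX3
  have hX0 : (0 : ℝ) < X := by linarith
  have hBabs : |B| = (B.natAbs : ℤ) := Int.abs_eq_natAbs B
  have hB1 := neg_abs_le B
  have hB2 := le_abs_self B
  have hXBz : |B| + 3 ≤ (X : ℤ) := by
    rw [hBabs]
    exact_mod_cast hXB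
  have hAz : (1 : ℤ) ≤ A := by exact_mod_cast hA
  have hX'0 : 0 ≤ 2 * (A : ℤ) * X + B := by nlinarith
  obtain ⟨X', hX'⟩ : ∃ X' : ℕ, X' = (2 * (A : ℤ) * X + B).toNat := ⟨_, rfl⟩
  have hX'z : (X' : ℤ) = 2 * A * X + B := by rw [hX']; exact Int.toNat_of_nonneg hX'0
  have hXX' : X ≤ X' := by
    have : (X : ℤ) ≤ X' := by rw [hX'z]; nlinarith
    exact_mod_cast this
  have hX'3 : (X' : ℝ) ≤ 3 * A * X := by
    have h1 : (X' : ℤ) ≤ 3 * A * X := by rw [hX'z]; nlinarith
    exact_mod_cast h1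
  have hH'X' : 2 * A * H ≤ X' := by
    have : (2 * A * H : ℤ) ≤ X' := by rw [hX'z]; nlinarith [abs_nonneg B]
    exact_mod_cast this
  have hQr : (1 : ℝ) ≤ Q := by exact_mod_cast hQ1
  have hXr1 : (1 : ℝ) ≤ X := by linarith
  have hXX'r : (X : ℝ) ≤ X' := by exact_mod_cast hXX'
  have hX'1 : (1 : ℝ) ≤ X' := by linarith
  have hk1 : κ ≤ 1 := by linarith
  have hH'1 := num2 A X H X' κ hA (by omega) (Nat.cast_nonneg _) hX'3 h2 hk1 g2 hH1
  have hq0 : (0 : ℤ) < 2 * A * Q := by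
    have : (1 : ℤ) ≤ Q := by exact_mod_cast hQ1
    positivity
  have h6 := HB X' (hX1.trans hXX') (2 * A * H) hH'1 hH'X' N M
    (hN.trans ((Real.rpow_le_rpow_of_exponent_le hXr1 (by linarith)).trans
      (Real.rpow_le_rpow hX0.le hXX'r (by linarith))))
    (hM.trans ((Real.rpow_le_rpow_of_exponent_le hXr1 (by linarith)).trans
      (Real.rpow_le_rpow hX0.le hXX'r (by linarith))))
    (2 * A * Q) (2 * A * r + B) hq0 u v hu hv
    (fun m hm => ⟨(hu2 m hm).1, by
      have := Nat.isCoprime_iff_coprime.2 (hu2 m hm).2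
      push_cast at this
      exact this⟩)
    (fun n hn => by
      have := Nat.isCoprime_iff_coprime.2 (hv2 n hn).2.1
      push_cast at this
      exact this)
  have hρX : (X' : ℝ) ^ (ρ / 2) ≤ (X : ℝ) ^ ρ := by
    calc (X' : ℝ) ^ (ρ / 2) ≤ (3 * A * X : ℝ) ^ (ρ / 2) :=
          Real.rpow_le_rpow (by linarith) hX'3 (by linarith)
      _ ≤ ((X : ℝ) * X) ^ (ρ / 2) := by
          apply Real.rpow_le_rpow (by positivity) _ (by linarith)
          apply mul_le_mul_of_nonneg_right _ hX0.le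
          exact_mod_cast hX3A
      _ = (X : ℝ) ^ (ρ / 2) * (X : ℝ) ^ (ρ / 2) := Real.mul_rpow hX0.le hX0.le
      _ = (X : ℝ) ^ ρ := by
          rw [← Real.rpow_add hX0]
          congr 1
          ring
  refine le_trans (le_of_eq ?_) (h6.trans ?_)
  · congr 1
    apply sum_congr rfl
    intro m _
    have h8 : ∑ n ∈ (Icc 1 N).filter (fun n => Nat.Coprime m n),
        u m * v n * (cF A B C X H Q r (m * n) -
          (H : ℝ) / Q * ((om A B C (m * n) : ℝ) / ((m * n : ℕ) : ℝ))) =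
        ∑ n ∈ (Icc 1 N).filter (fun n => Nat.Coprime m n),
          u m * v n * (cIq a X' (2 * A * H) (2 * A * Q) (2 * A * r + B) (m * n) -
            ((2 * A * H : ℕ) : ℝ) / ((2 * A * Q : ℤ) : ℝ) * gd a (m * n)) := by
      apply sum_congr rfl
      intro n _
      by_cases hun : u m = 0
      · rw [hun]
        ring
      by_cases hvn : v n = 0
      · rw [hvn]
        ring
      have hcm : Nat.Coprime m (2 * A) := Nat.Coprime.coprime_mul_right_right (hu2 m hun).2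
      have hcn : Nat.Coprime n (2 * A) := Nat.Coprime.coprime_mul_right_right (hv2 n hvn).2.1
      have hmn : Nat.Coprime (m * n) (2 * A) := Nat.Coprime.mul_left hcm hcn
      have hmn0 : 0 < m * n := by
        apply Nat.pos_of_ne_zero
        exact mul_ne_zero (hu2 m hun).1.ne_zero (hv2 n hvn).1.ne_zero
      rw [cF_eq' A B C hA Q r X H (m * n) hX'0 hmn, ← hX', om_gd' A B C (m * n) hmn0 hmn]
      have hQ0 : (0 : ℝ) < Q := by linarith
      have hA0 : (0 : ℝ) < A := by linarith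
      have e : ((2 * A * H : ℕ) : ℝ) / ((2 * A * Q : ℤ) : ℝ) = (H : ℝ) / Q := by
        push_cast
        field_simp
      rw [e]
    rw [h8]
    symm
    apply sum_subset
    · intro n hn
      unfold Bs at hn
      rw [mem_filter, mem_filter] at hn
      rw [mem_filter]
      exact ⟨hn.1.1, hn.2⟩
    · intro n hn hn2
      rw [mem_filter] at hn
      have h7 : v n = 0 := by
        by_contra h8
        apply hn2
        rw [mem_filter]
        unfold Bs
        rw [mem_filter]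
        have h9 := hv2 n h8
        exact ⟨⟨hn.1, h9.1, fun p hp => hρX.trans (h9.2.2 p hp)⟩, hn.2⟩
      rw [h7]
      ring
  · have hH0 : (0 : ℝ) ≤ H := Nat.cast_nonneg _
    have h7 : (X' : ℝ) ^ (-(κ / 2)) ≤ (X : ℝ) ^ (-(κ / 2)) :=
      Real.rpow_le_rpow_of_nonpos hX0 hXX'r (by linarith)
    calc ((2 * A * H : ℕ) : ℝ) * (X' : ℝ) ^ (-(κ / 2)) ≤ (2 * A * H : ℝ) * (X : ℝ) ^ (-(κ / 2)) := by
          push_cast
          exact mul_le_mul_of_nonneg_left h7 (by positivity)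
      _ = H * ((2 * A : ℝ) * (X : ℝ) ^ (-(κ / 2))) := by ring
      _ ≤ H * ((X : ℝ) ^ (κ / 4) * (X : ℝ) ^ (-(κ / 2))) := by
          apply mul_le_mul_of_nonneg_left _ hH0
          exact mul_le_mul_of_nonneg_right g1 (by positivity)
      _ = H * (X : ℝ) ^ (-(κ / 4)) := by
          rw [← Real.rpow_add hX0]
          congr 2
          ring

end Pool.Agent.H543.DP
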