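import Pool.Agent.H543.DP.Fin2

/-!
# Quadratic polynomials: general moduli
-/

set_option autoImplicit false

namespace Pool.Agent.H543.DP

open Finset Filter Topology
open Pool.Agent.W23.DC
open Pool.Agent.Y882.JR (dens)
open Pool.Agent.Y346.PA (S_KL)
open Pool.Agent.H543.DG hiding rep_sum lin_q lin_big lin_all prime_rough prime_up rough_low rough_anti rough_nat

/-- the number of roots -/
def om (A : ℕ) (B C : ℤ) (p : ℕ) : ℕ :=
  ((range p).filter (fun m : ℕ => (p : ℤ) ∣ fv A B C m)).card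

/-- the density of the polynomial outside of `Q` -/
noncomputable def Df (A : ℕ) (B C : ℤ) (Q : ℕ) (z : ℝ) : ℝ :=
  ∏ p ∈ (range ⌈z⌉₊).filter (fun p => p.Prime ∧ ¬ p ∣ Q), (1 - (om A B C p : ℝ) / p)

/-- affine substitutions permute the residues -/
theorem aff (p : ℕ) (hp : 0 < p) (u v : ℤ) (hu : IsCoprime u (p : ℤ)) (P : ℤ → Prop)
    [DecidablePred P] (hP : ∀ m n : ℤ, (p : ℤ) ∣ m - n → (P m ↔ P n)) :
    ((range p).filter (fun j : ℕ => P (u * j + v))).card =
      ((range p).filter (fun m : ℕ => P m)).card := by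
  have hp0 : (0 : ℤ) < p := by exact_mod_cast hp
  obtain ⟨w, t, hw⟩ := hu
  have hc : ∀ x : ℤ, (((x % p).toNat : ℕ) : ℤ) = x % p := fun x =>
    Int.toNat_of_nonneg (Int.emod_nonneg _ hp0.ne')
  have hlt : ∀ x : ℤ, (x % p).toNat < p := by
    intro x
    have h1 := Int.emod_lt_of_pos x hp0
    have h2 := hc x
    omega
  have hdv : ∀ x : ℤ, (p : ℤ) ∣ x % p - x := by
    intro x
    rw [Int.emod_def]
    exact ⟨-(x / p), by ring⟩
  apply card_bij' (fun (j : ℕ) _ => ((u * j + v) % p).toNat)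
    (fun (m : ℕ) _ => ((w * (m - v)) % p).toNat)
  · intro j hj
    rw [mem_filter, mem_range] at hj ⊢
    refine ⟨hlt _, ?_⟩
    rw [hc]
    exact (hP _ _ (hdv _)).2 hj.2
  · intro m hm
    rw [mem_filter, mem_range] at hm ⊢
    refine ⟨hlt _, ?_⟩
    rw [hc]
    refine (hP _ _ ?_).2 hm.2
    obtain ⟨k, hk⟩ := hdv (w * (m - v))
    have : w * ((m : ℤ) - v) % p = w * (m - v) + p * k := by linarith
    rw [this]
    exact ⟨u * k - t * (m - v), by linear_combination ((m : ℤ) - v) * hw⟩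
  · intro j hj
    rw [mem_filter, mem_range] at hj
    have h1 : (((((w * ((((u * (j : ℤ) + v) % p).toNat : ℕ) - v)) % p).toNat : ℕ)) : ℤ) = j := by
      rw [hc, hc]
      obtain ⟨k, hk⟩ := hdv (u * j + v)
      have e1 : (u * (j : ℤ) + v) % p = u * j + v + p * k := by linarith
      rw [e1]
      have e2 : w * (u * (j : ℤ) + v + p * k - v) = j + p * (w * k - t * j) := by
        linear_combination (j : ℤ) * hw
      rw [e2, Int.add_mul_emod_self_left]
      exact Int.emod_eq_of_lt (Int.natCast_nonneg _) (by exact_mod_cast hj.1)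
    exact_mod_cast h1
  · intro m hm
    rw [mem_filter, mem_range] at hm
    have h1 : (((((u * ((((w * ((m : ℤ) - v)) % p).toNat : ℕ)) + v) % p).toNat : ℕ)) : ℤ) = m := by
      rw [hc, hc]
      obtain ⟨k, hk⟩ := hdv (w * (m - v))
      have e1 : w * ((m : ℤ) - v) % p = w * (m - v) + p * k := by linarith
      rw [e1]
      have e2 : u * (w * ((m : ℤ) - v) + p * k) + v = m + p * (u * k - t * (m - v)) := by
        linear_combination ((m : ℤ) - v) * hw
      rw [e2, Int.add_mul_emod_self_left]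
      exact Int.emod_eq_of_lt (Int.natCast_nonneg _) (by exact_mod_cast hm.1)
    exact_mod_cast h1

theorem dvd_fv_iff (A : ℕ) (B C : ℤ) (p m n : ℤ) (h : p ∣ m - n) :
    p ∣ fv A B C m ↔ p ∣ fv A B C n := by
  have h1 := fv_cls A B C m n p h
  constructor
  · intro h2
    exact (dvd_sub_right h2).1 h1
  · intro h2
    exact (dvd_sub_left h2).1 h1

/-- the roots of the polynomial and of `k ^ 2 + a` -/
theorem om_gd (A : ℕ) (B C : ℤ) (p : ℕ) (hp : p.Prime) (h2A : ¬ p ∣ 2 * A) :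
    (om A B C p : ℝ) / p = gd (dt A B C) p := by
  have hcop : IsCoprime (2 * (A : ℤ)) (p : ℤ) := by
    have h1 : Nat.Coprime p (2 * A) := (Nat.Prime.coprime_iff_not_dvd hp).2 h2A
    have h2 := Nat.isCoprime_iff_coprime.2 h1.symm
    push_cast at h2
    exact h2
  have h4 : IsCoprime (p : ℤ) (4 * (A : ℤ)) := by
    have h3 : Nat.Coprime p (4 * A) := by
      rw [Nat.Prime.coprime_iff_not_dvd hp]
      intro hd
      apply h2A
      have : p ∣ 2 * (2 * A) := by
        rw [show 2 * (2 * A) = 4 * A by ring]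
        exact hd
      rcases hp.dvd_mul.1 this with h4 | h4
      · exact h4.mul_right _
      · exact h4
    have h5 := Nat.isCoprime_iff_coprime.2 h3
    push_cast at h5
    exact h5
  have h5 := aff p hp.pos (2 * (A : ℤ)) B hcop (fun k => (p : ℤ) ∣ k ^ 2 + dt A B C) (by
    intro m n hmn
    have h6 : (p : ℤ) ∣ (m ^ 2 + dt A B C) - (n ^ 2 + dt A B C) := by
      have : (m ^ 2 + dt A B C) - (n ^ 2 + dt A B C) = (m - n) * (m + n) := by ring
      rw [this]
      exact hmn.mul_right _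
    constructor
    · intro h7
      exact (dvd_sub_right h7).1 h6
    · intro h7
      exact (dvd_sub_left h7).1 h6)
  rw [gd_ro, ← Pool.Agent.Y781.JR.rho_eq, ← h5]
  unfold om
  congr 2
  congr 1
  ext m
  simp only [mem_filter]
  apply and_congr_right
  intro _
  rw [four_fv]
  exact ⟨fun h => h.mul_left _, fun h => h4.dvd_of_dvd_mul_left h⟩

open Classical in
/-- one more prime in the modulus -/
theorem rgh_split (A : ℕ) (B C : ℤ) (X H Q : ℕ) (r : ℤ) (z : ℝ) (hQ : 1 ≤ Q) (p : ℕ) (hp : p.Prime)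
    (hpz : (p : ℝ) < z) :
    rgh A B C X H Q r z =
      ∑ j ∈ (range p).filter (fun j : ℕ => ¬ (p : ℤ) ∣ fv A B C (Q * j + r)),
        rgh A B C X H (Q * p) (Q * j + r) z := by
  have hp0 : (0 : ℤ) < p := by exact_mod_cast hp.pos
  have hQ0 : (0 : ℤ) < Q := by exact_mod_cast hQ
  unfold rgh NS
  have e1 : ∀ j : ℕ, ((((Ioc X (X + H)).filter (fun n : ℕ => ((Q * p : ℕ) : ℤ) ∣ (n : ℤ) -
      (Q * j + r))).filter (fun n : ℕ => ∀ p : ℕ, p.Prime → (p : ℤ) ∣ fv A B C n → z ≤ p)).card) =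
      ∑ n ∈ ((Ioc X (X + H)).filter (fun n : ℕ => (Q : ℤ) ∣ (n : ℤ) - r)).filter
        (fun n : ℕ => ∀ p : ℕ, p.Prime → (p : ℤ) ∣ fv A B C n → z ≤ p),
        if ((Q * p : ℕ) : ℤ) ∣ (n : ℤ) - (Q * j + r) then 1 else 0 := by
    intro j
    rw [← card_filter]
    congr 1
    ext n
    simp only [mem_filter]
    constructor
    · rintro ⟨⟨h1, h2⟩, h3⟩
      refine ⟨⟨⟨h1, ?_⟩, h3⟩, h2⟩
      have h4 : (Q : ℤ) ∣ (n : ℤ) - (Q * j + r) := by
        refine dvd_trans ?_ h2
        push_cast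
        exact dvd_mul_right _ _
      have h5 : (n : ℤ) - r = (n - (Q * j + r)) + Q * j := by ring
      rw [h5]
      exact dvd_add h4 (dvd_mul_right _ _)
    · rintro ⟨⟨⟨h1, h2⟩, h3⟩, h4⟩
      exact ⟨⟨h1, h4⟩, h3⟩
  rw [sum_congr rfl (fun j _ => e1 j), sum_comm, card_eq_sum_ones]
  apply sum_congr rfl
  intro n hn
  rw [mem_filter, mem_filter] at hn
  obtain ⟨⟨-, t, ht⟩, hr⟩ := hn
  have hc : (((t % p).toNat : ℕ) : ℤ) = t % p := Int.toNat_of_nonneg (Int.emod_nonneg _ hp0.ne')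
  have hlt : (t % p).toNat < p := by
    have h1 := Int.emod_lt_of_pos t hp0
    omega
  have hiff : ∀ j : ℕ, j < p → (((Q * p : ℕ) : ℤ) ∣ (n : ℤ) - (Q * j + r) ↔ j = (t % p).toNat) := by
    intro j hj
    have h1 : (n : ℤ) - (Q * j + r) = Q * (t - j) := by linear_combination ht
    rw [h1]
    push_cast
    rw [mul_dvd_mul_iff_left hQ0.ne']
    constructor
    · intro h2
      have h3 : t % p = (j : ℤ) % p := (Int.modEq_iff_dvd.2 h2).symm
      have h4 : (j : ℤ) % p = j := Int.emod_eq_of_lt (Int.natCast_nonneg _) (by exact_mod_cast hj)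
      omega
    · intro h2
      have h3 : (j : ℤ) = t % p := by rw [h2, hc]
      rw [h3, Int.emod_def]
      exact ⟨t / p, by ring⟩
  rw [sum_eq_single (t % p).toNat]
  · rw [if_pos ((hiff _ hlt).2 rfl)]
  · intro j hj hne
    rw [mem_filter, mem_range] at hj
    rw [if_neg]
    intro h
    exact hne ((hiff j hj.1).1 h)
  · intro hne
    exfalso
    apply hne
    rw [mem_filter, mem_range]
    refine ⟨hlt, ?_⟩
    intro hd
    have h1 : (p : ℤ) ∣ (n : ℤ) - (Q * ((t % p).toNat : ℕ) + r) := by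
      have h2 := (hiff _ hlt).2 rfl
      refine dvd_trans ?_ h2
      push_cast
      exact dvd_mul_left _ _
    have h2 := (dvd_fv_iff A B C p _ _ h1).2 hd
    have h3 := hr p hp h2
    linarith

/-- the admissible classes modulo a new prime -/
theorem card_adm (A : ℕ) (B C : ℤ) (Q : ℕ) (r : ℤ) (p : ℕ) (hp : p.Prime) (hpQ : ¬ p ∣ Q) :
    (((range p).filter (fun j : ℕ => ¬ (p : ℤ) ∣ fv A B C (Q * j + r))).card : ℝ) =
      p - om A B C p := by
  have hcop : IsCoprime (Q : ℤ) (p : ℤ) :=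
    Nat.isCoprime_iff_coprime.2 ((Nat.Prime.coprime_iff_not_dvd hp).2 hpQ).symm
  have h1 := aff p hp.pos (Q : ℤ) r hcop (fun k => (p : ℤ) ∣ fv A B C k)
    (fun m n h => dvd_fv_iff A B C p m n h)
  have h2 := card_filter_add_card_filter_not (s := range p) (fun j : ℕ => (p : ℤ) ∣ fv A B C (Q * j + r))
  rw [card_range, h1] at h2
  have h3 : (((range p).filter (fun m : ℕ => (p : ℤ) ∣ fv A B C m)).card : ℝ) +
    ((range p).filter (fun j : ℕ => ¬ (p : ℤ) ∣ fv A B C (Q * j + r))).card = p := by exact_mod_cast h2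
  unfold om
  linarith

/-- the primes of `2 A` outside of `Q` -/
def So (A Q : ℕ) : Finset ℕ := (2 * A).primeFactors.filter (fun p => ¬ p ∣ Q)

theorem So_prod (A Q : ℕ) (hA : 1 ≤ A) : ∏ p ∈ So A Q, p ≤ 2 * A := by
  apply Nat.le_of_dvd (by omega)
  refine dvd_trans ?_ (Nat.prod_primeFactors_dvd (2 * A))
  exact prod_dvd_prod_of_subset _ _ _ (filter_subset _ _)

theorem Df_mul (A : ℕ) (B C : ℤ) (Q p : ℕ) (hp : p.Prime) (hpQ : ¬ p ∣ Q) (z : ℝ) (hpz : (p : ℝ) < z) :
    Df A B C Q z = (1 - (om A B C p : ℝ) / p) * Df A B C (Q * p) z := by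
  unfold Df
  have h1 : (range ⌈z⌉₊).filter (fun q => q.Prime ∧ ¬ q ∣ Q) =
      insert p ((range ⌈z⌉₊).filter (fun q => q.Prime ∧ ¬ q ∣ Q * p)) := by
    ext q
    rw [mem_insert, mem_filter, mem_filter, mem_range]
    constructor
    · rintro ⟨h1, h2, h3⟩
      by_cases hq : q = p
      · left
        exact hq
      · right
        refine ⟨h1, h2, ?_⟩
        intro hd
        rcases h2.dvd_mul.1 hd with h4 | h4
        · exact h3 h4
        · exact hq ((Nat.prime_dvd_prime_iff_eq h2 hp).1 h4)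
    · rintro (h1 | ⟨h1, h2, h3⟩)
      · rw [h1]
        exact ⟨Nat.lt_ceil.2 hpz, hp, hpQ⟩
      · exact ⟨h1, h2, fun hd => h3 (hd.mul_right _)⟩
  rw [h1, prod_insert]
  rw [mem_filter]
  rintro ⟨-, -, h2⟩
  exact h2 (dvd_mul_left _ _)

theorem So_mul (A Q p : ℕ) (hp : p ∈ So A Q) :
    So A (Q * p) = (So A Q).erase p := by
  unfold So at hp ⊢
  rw [mem_filter] at hp
  ext q
  rw [mem_erase, mem_filter, mem_filter]
  constructor
  · rintro ⟨h1, h2⟩
    refine ⟨?_, h1, fun hd => h2 (hd.mul_right _)⟩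
    rintro rfl
    exact h2 (dvd_mul_left _ _)
  · rintro ⟨h1, h2, h3⟩
    refine ⟨h2, ?_⟩
    intro hd
    have hq := Nat.prime_of_mem_primeFactors h2
    rcases hq.dvd_mul.1 hd with h4 | h4
    · exact h3 h4
    · exact h1 ((Nat.prime_dvd_prime_iff_eq hq (Nat.prime_of_mem_primeFactors hp.1)).1 h4)

theorem cop_mul (A : ℕ) (B C : ℤ) (Q p : ℕ) (r j : ℤ) (hp : p.Prime)
    (hc : IsCoprime (fv A B C r) Q) (hd : ¬ (p : ℤ) ∣ fv A B C (Q * j + r)) :
    IsCoprime (fv A B C (Q * j + r)) ((Q * p : ℕ) : ℤ) := by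
  push_cast
  apply IsCoprime.mul_right
  · have h1 : (Q : ℤ) ∣ fv A B C (Q * j + r) - fv A B C r := by
      apply fv_cls
      exact ⟨j, by ring⟩
    obtain ⟨k, hk⟩ := h1
    have h2 : fv A B C (Q * j + r) = fv A B C r + Q * k := by linarith
    rw [h2]
    exact hc.add_mul_left_left k
  · have hp' : Prime (p : ℤ) := Nat.prime_iff_prime_int.1 hp
    exact ((Prime.coprime_iff_not_dvd hp').2 hd).symm

open Classical in
/-- from the moduli with the primes of `2 A` to all moduli -/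
theorem class_ind (A : ℕ) (B C : ℤ) (hA : 1 ≤ A) (X H : ℕ) (z L U Qm : ℝ)
    (hz : ∀ p : ℕ, p.Prime → p ∣ 2 * A → (p : ℝ) < z)
    (base : ∀ (Q : ℕ) (r : ℤ), (Q : ℝ) ≤ Qm → Cl A B C Q r →
      L * ((H : ℝ) / Q * Df A B C Q z) ≤ rgh A B C X H Q r z ∧
      (rgh A B C X H Q r z : ℝ) ≤ U * ((H : ℝ) / Q * Df A B C Q z)) :
    ∀ k : ℕ, ∀ (Q : ℕ) (r : ℤ), 1 ≤ Q → IsCoprime (fv A B C r) Q → (So A Q).card = k →
      (Q : ℝ) * ((∏ p ∈ So A Q, p : ℕ) : ℝ) ≤ Qm →
      L * ((H : ℝ) / Q * Df A B C Q z) ≤ rgh A B C X H Q r z ∧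
      (rgh A B C X H Q r z : ℝ) ≤ U * ((H : ℝ) / Q * Df A B C Q z) := by
  intro k
  induction k with
  | zero =>
    intro Q r hQ hc hk hQm
    have hS : So A Q = ∅ := card_eq_zero.1 hk
    apply base
    · rw [hS] at hQm
      simpa using hQm
    · refine ⟨hA, hQ, hc, ?_⟩
      intro p hp hpA
      by_contra hpQ
      have h1 : p ∈ So A Q := by
        unfold So
        rw [mem_filter, Nat.mem_primeFactors]
        exact ⟨⟨hp, hpA, by omega⟩, hpQ⟩
      rw [hS] at h1
      exact absurd h1 (notMem_empty _)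
  | succ k ih =>
    intro Q r hQ hc hk hQm
    have hne : (So A Q).Nonempty := by
      rw [← card_pos]
      omega
    obtain ⟨p, hpS⟩ := hne
    have hpS' := hpS
    unfold So at hpS'
    rw [mem_filter, Nat.mem_primeFactors] at hpS'
    obtain ⟨⟨hp, hpA, -⟩, hpQ⟩ := hpS'
    have hpz := hz p hp hpA
    have hp0 : (0 : ℝ) < p := by exact_mod_cast hp.pos
    have hQ0 : (0 : ℝ) < Q := by exact_mod_cast hQ
    have hsp := rgh_split A B C X H Q r z hQ p hp hpz
    have hS := So_mul A Q p hpS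
    have hcard : (So A (Q * p)).card = k := by
      rw [hS, card_erase_of_mem hpS]
      omega
    have hprod : ((Q * p : ℕ) : ℝ) * ((∏ p ∈ So A (Q * p), p : ℕ) : ℝ) ≤ Qm := by
      refine le_trans (le_of_eq ?_) hQm
      rw [hS]
      have h1 : (∏ q ∈ So A Q, q : ℕ) = p * ∏ q ∈ (So A Q).erase p, q := (mul_prod_erase _ _ hpS).symm
      rw [h1]
      push_cast
      ring
    have hstep : ∀ j ∈ (range p).filter (fun j : ℕ => ¬ (p : ℤ) ∣ fv A B C (Q * j + r)),
        L * ((H : ℝ) / ((Q * p : ℕ) : ℝ) * Df A B C (Q * p) z) ≤ rgh A B C X H (Q * p) (Q * j + r) z ∧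
        (rgh A B C X H (Q * p) (Q * j + r) z : ℝ) ≤
          U * ((H : ℝ) / ((Q * p : ℕ) : ℝ) * Df A B C (Q * p) z) := by
      intro j hj
      rw [mem_filter] at hj
      exact ih (Q * p) (Q * j + r) (Nat.mul_pos hQ hp.pos)
        (cop_mul A B C Q p r j hp hc hj.2) hcard hprod
    have hnum := card_adm A B C Q r p hp hpQ
    have hmain : ∀ L : ℝ, ((p : ℝ) - om A B C p) * (L * ((H : ℝ) / ((Q * p : ℕ) : ℝ) *
        Df A B C (Q * p) z)) = L * ((H : ℝ) / Q * Df A B C Q z) := by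
      intro L
      rw [Df_mul A B C Q p hp hpQ z hpz]
      push_cast
      field_simp
    rw [hsp]
    push_cast
    constructor
    · rw [← hmain L, ← hnum, ← nsmul_eq_mul]
      exact card_nsmul_le_sum _ _ _ (fun j hj => (hstep j hj).1)
    · rw [← hmain U, ← hnum, ← nsmul_eq_mul]
      exact sum_le_card_nsmul _ _ _ (fun j hj => (hstep j hj).2)

/-- a class with the primes of `2 A` -/
theorem class_ex (A : ℕ) (B C : ℤ) (hA : 1 ≤ A) (hom : ∀ p : ℕ, p.Prime → om A B C p < p) :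
    ∀ k : ℕ, ∀ (Q : ℕ) (r : ℤ), 1 ≤ Q → IsCoprime (fv A B C r) Q → (So A Q).card = k →
      ∃ (Q' : ℕ) (r' : ℤ), Cl A B C Q' r' ∧ Q ∣ Q' ∧ (Q : ℤ) ∣ r' - r ∧
        Q' ≤ Q * ∏ p ∈ So A Q, p := by
  intro k
  induction k with
  | zero =>
    intro Q r hQ hc hk
    have hS : So A Q = ∅ := card_eq_zero.1 hk
    refine ⟨Q, r, ⟨hA, hQ, hc, ?_⟩, dvd_rfl, by simp, by rw [hS]; simp⟩
    intro p hp hpA
    by_contra hpQ
    have h1 : p ∈ So A Q := by
      unfold So
      rw [mem_filter, Nat.mem_primeFactors]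
      exact ⟨⟨hp, hpA, by omega⟩, hpQ⟩
    rw [hS] at h1
    exact absurd h1 (notMem_empty _)
  | succ k ih =>
    intro Q r hQ hc hk
    have hne : (So A Q).Nonempty := by
      rw [← card_pos]
      omega
    obtain ⟨p, hpS⟩ := hne
    have hpS' := hpS
    unfold So at hpS'
    rw [mem_filter, Nat.mem_primeFactors] at hpS'
    obtain ⟨⟨hp, hpA, -⟩, hpQ⟩ := hpS'
    have hS := So_mul A Q p hpS
    have hcard : (So A (Q * p)).card = k := by
      rw [hS, card_erase_of_mem hpS]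
      omega
    have hnum := card_adm A B C Q r p hp hpQ
    have hpos : 0 < ((range p).filter (fun j : ℕ => ¬ (p : ℤ) ∣ fv A B C (Q * j + r))).card := by
      have h1 : (om A B C p : ℝ) < p := by exact_mod_cast hom p hp
      have h2 : (0 : ℝ) < (((range p).filter
          (fun j : ℕ => ¬ (p : ℤ) ∣ fv A B C (Q * j + r))).card : ℝ) := by
        rw [hnum]
        linarith
      exact_mod_cast h2
    obtain ⟨j, hj⟩ := card_pos.1 hpos
    rw [mem_filter] at hj
    obtain ⟨Q', r', h1, h2, h3, h4⟩ := ih (Q * p) (Q * j + r) (Nat.mul_pos hQ hp.pos)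
      (cop_mul A B C Q p r j hp hc hj.2) hcard
    refine ⟨Q', r', h1, (dvd_mul_right _ _).trans h2, ?_, ?_⟩
    · have h5 : (Q : ℤ) ∣ r' - (Q * j + r) := by
        refine dvd_trans ?_ h3
        push_cast
        exact dvd_mul_right _ _
      have h6 : r' - r = (r' - (Q * j + r)) + Q * j := by ring
      rw [h6]
      exact dvd_add h5 (dvd_mul_right _ _)
    · refine h4.trans (le_of_eq ?_)
      rw [hS, ← mul_prod_erase (So A Q) (fun p => p) hpS]
      ring

end Pool.Agent.H543.DP
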