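import Pool.Agent.H543.DP.Cls

/-!
# Quadratic polynomials: the constant of Conjecture F
-/

set_option autoImplicit false

namespace Pool.Agent.H543.DP

open Finset Filter Topology
open Pool.Agent.W23.DC
open Pool.Agent.Y882.JR (dens)
open Pool.Agent.Y882.PX (ro)
open Pool.Agent.Y882.SI
open Pool.Agent.Y346.PA (S_KL)
open Pool.Agent.H543.DG hiding rep_sum lin_q lin_big lin_all prime_rough prime_up rough_low rough_anti rough_nat

/-- one root for linear polynomials -/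
theorem om_one (A : ℕ) (B C : ℤ) (p : ℕ) (hp : p.Prime) (hA : (p : ℤ) ∣ A) (hB : ¬ (p : ℤ) ∣ B) :
    om A B C p = 1 := by
  have hcop : IsCoprime B (p : ℤ) := by
    have hp' : Prime (p : ℤ) := Nat.prime_iff_prime_int.1 hp
    exact ((Prime.coprime_iff_not_dvd hp').2 hB).symm
  have h1 := aff p hp.pos B C hcop (fun k => (p : ℤ) ∣ k) (by
    intro m n hmn
    constructor
    · intro h7
      exact (dvd_sub_right h7).1 hmn
    · intro h7
      exact (dvd_sub_left h7).1 hmn)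
  have h2 : om A B C p = ((range p).filter (fun j : ℕ => (p : ℤ) ∣ B * j + C)).card := by
    unfold om
    congr 1
    apply filter_congr
    intro m _
    unfold fv
    have h3 : (A : ℤ) * (m : ℤ) ^ 2 + B * m + C = (B * m + C) + A * (m : ℤ) ^ 2 := by ring
    rw [h3]
    exact (dvd_add_left (hA.mul_right _))
  rw [h2, h1]
  have h4 : (range p).filter (fun m : ℕ => (p : ℤ) ∣ (m : ℤ)) = {0} := by
    ext m
    rw [mem_filter, mem_range, mem_singleton]
    constructor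
    · rintro ⟨h5, h6⟩
      have h7 : p ∣ m := by exact_mod_cast h6
      exact Nat.eq_zero_of_dvd_of_lt h7 h5
    · rintro rfl
      exact ⟨hp.pos, by simp⟩
  rw [h4, card_singleton]

theorem om_none (A : ℕ) (B C : ℤ) (p : ℕ) (hA : (p : ℤ) ∣ A) (hB : (p : ℤ) ∣ B)
    (hC : ¬ (p : ℤ) ∣ C) : om A B C p = 0 := by
  unfold om
  rw [card_eq_zero, filter_eq_empty_iff]
  intro m _ hd
  apply hC
  unfold fv at hd
  have h1 : (p : ℤ) ∣ (A : ℤ) * (m : ℤ) ^ 2 + B * m := dvd_add (hA.mul_right _) (hB.mul_right _)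
  exact (dvd_add_right h1).1 hd

theorem om_two (A : ℕ) (B C : ℤ) (h : ¬ (Even ((A : ℤ) + B) ∧ Even C)) :
    (om A B C 2 : ℝ) = if Even ((A : ℤ) + B) then 0 else 1 := by
  have h0 : fv A B C ((0 : ℕ) : ℤ) = C := by unfold fv; push_cast; ring
  have h1 : fv A B C ((1 : ℕ) : ℤ) = A + B + C := by unfold fv; push_cast; ring
  have e1 : om A B C 2 = (if (2 : ℤ) ∣ C then 1 else 0) + (if (2 : ℤ) ∣ A + B + C then 1 else 0) := by
    unfold om
    rw [card_filter, sum_range_succ, sum_range_one, h0, h1]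
    rfl
  rw [e1]
  by_cases hAB : Even ((A : ℤ) + B)
  · have hC : ¬ Even C := fun hc => h ⟨hAB, hc⟩
    have h2 : ¬ Even ((A : ℤ) + B + C) := by
      rw [Int.even_add]
      tauto
    rw [if_neg (fun h => hC (even_iff_two_dvd.2 h)), if_neg (fun h => h2 (even_iff_two_dvd.2 h)),
      if_pos hAB]
    norm_num
  · rw [if_neg hAB]
    by_cases hC : Even C
    · have h2 : ¬ Even ((A : ℤ) + B + C) := by
        rw [Int.even_add]
        tauto
      rw [if_pos (even_iff_two_dvd.1 hC), if_neg (fun h => h2 (even_iff_two_dvd.2 h))]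
      norm_num
    · have h2 : Even ((A : ℤ) + B + C) := by
        rw [Int.even_add]
        tauto
      rw [if_neg (fun h => hC (even_iff_two_dvd.2 h)), if_pos (even_iff_two_dvd.1 h2)]
      norm_num

theorem om_jac (A : ℕ) (B C : ℤ) (p : ℕ) (hp : p.Prime) (hp2 : p ≠ 2) (hA : ¬ (p : ℤ) ∣ A) :
    (om A B C p : ℝ) = 1 + (jacobiSym (B ^ 2 - 4 * A * C) p : ℝ) := by
  have hpA : ¬ p ∣ 2 * A := by
    intro hd
    rcases hp.dvd_mul.1 hd with h | h
    · exact hp2 ((Nat.prime_dvd_prime_iff_eq hp Nat.prime_two).1 h)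
    · apply hA
      exact_mod_cast h
  have h1 := om_gd A B C p hp hpA
  have h2 := ro_quad (dt A B C) p hp hp2
  have h3 : (ro (QF (dt A B C)) 0 p : ℝ) = 1 + (jacobiSym (-(dt A B C)) p : ℝ) := by exact_mod_cast h2
  have h4 : -(dt A B C) = B ^ 2 - 4 * A * C := by unfold dt; ring
  rw [gd_ro, h3, h4] at h1
  have hp0 : (p : ℝ) ≠ 0 := by exact_mod_cast hp.ne_zero
  have h5 := (div_left_inj' hp0).1 h1
  exact h5

/-- the local factors of the constant -/
noncomputable def lf (A : ℕ) (B C : ℤ) (p : ℕ) : ℝ :=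
  (if p = 2 then 2 * (if Even ((A : ℤ) + B) then (1 : ℝ) else 1 / 2) else 1) *
  ((if 3 ≤ p ∧ (p : ℤ) ∣ A ∧ (p : ℤ) ∣ B then ((p : ℝ) / ((p : ℝ) - 1)) else 1) *
  (if 3 ≤ p ∧ ¬ (p : ℤ) ∣ A then (1 - (jacobiSym (B ^ 2 - 4 * A * C) p : ℝ) / ((p : ℝ) - 1)) else 1))

theorem lf_eq (A : ℕ) (B C : ℤ) (hg : Int.gcd (Int.gcd A B : ℤ) C = 1)
    (h2 : ¬ (Even ((A : ℤ) + B) ∧ Even C)) (p : ℕ) (hp : p.Prime) :
    1 - (om A B C p : ℝ) / p = (1 - 1 / (p : ℝ)) * lf A B C p := by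
  unfold lf
  have hp2r : (2 : ℝ) ≤ p := by exact_mod_cast hp.two_le
  have hp0 : (p : ℝ) ≠ 0 := by linarith
  have hp1 : (p : ℝ) - 1 ≠ 0 := by linarith
  by_cases hp2 : p = 2
  · subst hp2
    rw [om_two A B C h2, if_pos rfl,
      if_neg (show ¬ (3 ≤ 2 ∧ ((2 : ℕ) : ℤ) ∣ A ∧ ((2 : ℕ) : ℤ) ∣ B) from
        fun h => absurd h.1 (by norm_num)),
      if_neg (show ¬ (3 ≤ 2 ∧ ¬ ((2 : ℕ) : ℤ) ∣ A) from fun h => absurd h.1 (by norm_num))]
    split_ifs <;> norm_num
  · have hp3 : 3 ≤ p := by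
      have := hp.two_le
      omega
    rw [if_neg hp2, one_mul]
    by_cases hA : (p : ℤ) ∣ A
    · rw [if_neg (show ¬ (3 ≤ p ∧ ¬ (p : ℤ) ∣ A) from fun h => h.2 hA), mul_one]
      by_cases hB : (p : ℤ) ∣ B
      · rw [if_pos ⟨hp3, hA, hB⟩, om_none A B C p hA hB]
        · push_cast
          rw [zero_div, sub_zero]
          field_simp
        · intro hC
          have h1 : (p : ℤ) ∣ Int.gcd (Int.gcd A B : ℤ) C := by
            apply Int.dvd_coe_gcd
            · exact Int.dvd_coe_gcd hA hB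
            · exact hC
          rw [hg] at h1
          have h3 : p ∣ 1 := by exact_mod_cast h1
          exact hp.one_lt.ne' (Nat.dvd_one.1 h3)
      · rw [if_neg (fun h => hB h.2.2), om_one A B C p hp hA hB]
        push_cast
        ring
    · rw [if_neg (fun h => hA h.2.1), if_pos ⟨hp3, hA⟩, one_mul, om_jac A B C p hp hp2 hA]
      field_simp
      ring

/-- admissible polynomials have no fixed prime divisor -/
theorem om_lt (A : ℕ) (B C : ℤ) (hg : Int.gcd (Int.gcd A B : ℤ) C = 1)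
    (h2 : ¬ (Even ((A : ℤ) + B) ∧ Even C)) (p : ℕ) (hp : p.Prime) : om A B C p < p := by
  have hp2r : (2 : ℝ) ≤ p := by exact_mod_cast hp.two_le
  have h1 : (om A B C p : ℝ) < p := by
    by_cases hp2 : p = 2
    · subst hp2
      rw [om_two A B C h2]
      split_ifs <;> norm_num
    · have hp3 : 3 ≤ p := by
        have := hp.two_le
        omega
      have hp3r : (3 : ℝ) ≤ p := by exact_mod_cast hp3
      by_cases hA : (p : ℤ) ∣ A
      · by_cases hB : (p : ℤ) ∣ B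
        · rw [om_none A B C p hA hB]
          · push_cast
            linarith
          · intro hC
            have h1 : (p : ℤ) ∣ Int.gcd (Int.gcd A B : ℤ) C := by
              apply Int.dvd_coe_gcd
              · exact Int.dvd_coe_gcd hA hB
              · exact hC
            rw [hg] at h1
            have h3 : p ∣ 1 := by exact_mod_cast h1
            exact hp.one_lt.ne' (Nat.dvd_one.1 h3)
        · rw [om_one A B C p hp hA hB]
          push_cast
          linarith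
      · rw [om_jac A B C p hp hp2 hA]
        rcases jacobiSym.trichotomy (B ^ 2 - 4 * A * C) p with h | h | h <;> rw [h] <;> push_cast <;> linarith
  exact_mod_cast h1

/-- the constant factor -/
noncomputable def cfac (A : ℕ) (B : ℤ) : ℝ :=
  (if Even ((A : ℤ) + B) then (1 : ℝ) else 1 / 2) *
    (∏ p ∈ (Int.gcd A B).primeFactors.filter (fun p : ℕ => 3 ≤ p), ((p : ℝ) / ((p : ℝ) - 1)))

/-- the partial products -/
noncomputable def cpr (A : ℕ) (B C : ℤ) (N : ℕ) : ℝ :=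
  ∏ p ∈ (Finset.range (N + 1)).filter (fun p : ℕ => Nat.Prime p ∧ 3 ≤ p ∧ ¬ ((p : ℤ) ∣ (A : ℤ))),
    (1 - (jacobiSym (B ^ 2 - 4 * A * C) p : ℝ) / ((p : ℝ) - 1))

theorem cfac_pos (A : ℕ) (B : ℤ) : 0 < cfac A B := by
  unfold cfac
  apply mul_pos
  · split_ifs <;> norm_num
  · apply prod_pos
    intro p hp
    have h1 := (mem_filter.1 hp).2
    have h2 : (3 : ℝ) ≤ p := by exact_mod_cast h1
    have h3 : (0 : ℝ) < (p : ℝ) - 1 := by linarith
    positivity

theorem fac3_pos (Δ : ℤ) (p : ℕ) (hp : 3 ≤ p) : 0 < 1 - (jacobiSym Δ p : ℝ) / ((p : ℝ) - 1) := by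
  have h2 : (3 : ℝ) ≤ p := by exact_mod_cast hp
  have h3 : (0 : ℝ) < (p : ℝ) - 1 := by linarith
  rw [sub_pos, div_lt_one h3]
  rcases jacobiSym.trichotomy Δ p with h | h | h <;> rw [h] <;> push_cast <;> linarith

/-- the product of the local factors -/
theorem lf_prod (A : ℕ) (B C : ℤ) (hA : 1 ≤ A) (N : ℕ) (hN : 2 * A ≤ N) :
    ∏ p ∈ (range (N + 1)).filter Nat.Prime, lf A B C p = 2 * cfac A B * cpr A B C N := by
  unfold lf cfac cpr
  rw [prod_mul_distrib, prod_mul_distrib]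
  have e1 : ∏ p ∈ (range (N + 1)).filter Nat.Prime,
      (if p = 2 then 2 * (if Even ((A : ℤ) + B) then (1 : ℝ) else 1 / 2) else 1) =
      2 * (if Even ((A : ℤ) + B) then (1 : ℝ) else 1 / 2) := by
    rw [prod_eq_single 2]
    · rw [if_pos rfl]
    · intro p _ hp
      rw [if_neg hp]
    · intro h
      exfalso
      apply h
      rw [mem_filter, mem_range]
      exact ⟨by omega, Nat.prime_two⟩
  have e2 : ∏ p ∈ (range (N + 1)).filter Nat.Prime,
      (if 3 ≤ p ∧ (p : ℤ) ∣ A ∧ (p : ℤ) ∣ B then ((p : ℝ) / ((p : ℝ) - 1)) else 1) =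
      ∏ p ∈ (Int.gcd A B).primeFactors.filter (fun p : ℕ => 3 ≤ p), ((p : ℝ) / ((p : ℝ) - 1)) := by
    rw [← prod_filter]
    apply prod_congr _ (fun _ _ => rfl)
    ext p
    rw [mem_filter, mem_filter, mem_range, mem_filter, Nat.mem_primeFactors]
    have hg0 : Int.gcd A B ≠ 0 := by
      intro h
      have := (Int.gcd_eq_zero_iff.1 h).1
      omega
    constructor
    · rintro ⟨⟨h1, h2⟩, h3, h4, h5⟩
      refine ⟨⟨h2, ?_, hg0⟩, h3⟩
      have := Int.dvd_coe_gcd h4 h5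
      exact_mod_cast this
    · rintro ⟨⟨h1, h2, h3⟩, h4⟩
      have h5 : (p : ℤ) ∣ (Int.gcd A B : ℤ) := by exact_mod_cast h2
      have h6 : (p : ℤ) ∣ (A : ℤ) := h5.trans (Int.gcd_dvd_left _ _)
      have h7 : (p : ℤ) ∣ B := h5.trans (Int.gcd_dvd_right _ _)
      have h8 : p ∣ A := by exact_mod_cast h6
      have h9 := Nat.le_of_dvd hA h8
      exact ⟨⟨by omega, h1⟩, h4, h6, h7⟩
  have e3 : ∏ p ∈ (range (N + 1)).filter Nat.Prime,
      (if 3 ≤ p ∧ ¬ (p : ℤ) ∣ A then (1 - (jacobiSym (B ^ 2 - 4 * A * C) p : ℝ) / ((p : ℝ) - 1))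
        else 1) = ∏ p ∈ (Finset.range (N + 1)).filter (fun p : ℕ => Nat.Prime p ∧ 3 ≤ p ∧
          ¬ ((p : ℤ) ∣ (A : ℤ))), (1 - (jacobiSym (B ^ 2 - 4 * A * C) p : ℝ) / ((p : ℝ) - 1)) := by
    rw [← prod_filter, filter_filter]
  rw [e1, e2, e3]
  ring

open Pool.Agent.Y781.JR in
/-- the product of the page converges -/
theorem cpr_conv (A : ℕ) (B C : ℤ) (hA : 1 ≤ A) (hna : ¬ IsSquare (-(dt A B C))) :
    ∃ S : ℝ, 0 < S ∧ Tendsto (cpr A B C) atTop (𝓝 S) := by
  obtain ⟨c, hc, hR⟩ := RR_conv (dt A B C) hna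
  set K : ℝ := ∏ p ∈ A.primeFactors.filter (fun p => 3 ≤ p),
    (1 - (jacobiSym (B ^ 2 - 4 * A * C) p : ℝ) / ((p : ℝ) - 1)) with hK
  have hK0 : 0 < K := by
    rw [hK]
    apply prod_pos
    intro p hp
    exact fac3_pos _ p (mem_filter.1 hp).2
  refine ⟨c / K, by positivity, ?_⟩
  have h1 : Tendsto (fun N : ℕ => RR (dt A B C) (N + 1) / K) atTop (𝓝 (c / K)) :=
    ((tendsto_add_atTop_iff_nat 1).2 hR).div_const K
  apply h1.congr'
  filter_upwards [eventually_ge_atTop A] with N hN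
  rw [div_eq_iff hK0.ne']
  unfold RR cpr
  have h4 : -(dt A B C) = B ^ 2 - 4 * A * C := by unfold dt; ring
  rw [h4, hK]
  have hsub : A.primeFactors.filter (fun p => 3 ≤ p) ⊆
      (range (N + 1)).filter (fun p : ℕ => p.Prime ∧ p ≠ 2) := by
    intro p hp
    rw [mem_filter, Nat.mem_primeFactors] at hp
    rw [mem_filter, mem_range]
    have h5 := Nat.le_of_dvd hA hp.1.2.1
    exact ⟨by omega, hp.1.1, by omega⟩
  rw [← prod_sdiff hsub]
  congr 1
  apply prod_congr _ (fun _ _ => rfl)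
  ext p
  rw [Finset.mem_sdiff, mem_filter, mem_filter, mem_filter, mem_range, Nat.mem_primeFactors]
  constructor
  · rintro ⟨⟨h5, h6, h7⟩, h8⟩
    have h9 : 3 ≤ p := by
      have := h6.two_le
      omega
    refine ⟨h5, h6, h9, ?_⟩
    intro hd
    have h10 : p ∣ A := by exact_mod_cast hd
    exact h8 ⟨⟨h6, h10, by omega⟩, h9⟩
  · rintro ⟨h5, h6, h7, h8⟩
    refine ⟨⟨h5, h6, by omega⟩, ?_⟩
    rintro ⟨⟨-, h9, -⟩, -⟩
    apply h8
    exact_mod_cast h9

open Pool.Agent.Y781.JR in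
/-- the density of the polynomial -/
theorem Df_lim (A : ℕ) (B C : ℤ) (hA : 1 ≤ A) (hg : Int.gcd (Int.gcd A B : ℤ) C = 1)
    (h2 : ¬ (Even ((A : ℤ) + B) ∧ Even C)) (S : ℝ) (hS : Tendsto (cpr A B C) atTop (𝓝 S)) :
    Tendsto (fun z : ℝ => Df A B C 1 z * Real.log z) atTop
      (𝓝 (2 * cfac A B * S * Real.exp (-Real.eulerMascheroniConstant))) := by
  have h1 := real_version (fun N => Pool.Agent.Y781.JR.GG (N + 1)) (fun N => (GG_pos _).le) (fun N => GG_le _) _ GG_mertens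
  have h3 : Tendsto (fun z : ℝ => 2 * cfac A B * cpr A B C (⌈z⌉₊ - 1)) atTop (𝓝 (2 * cfac A B * S)) := by
    apply Tendsto.const_mul
    apply hS.comp
    exact (tendsto_sub_atTop_nat 1).comp (tendsto_nat_ceil_atTop (α := ℝ))
  have h4 := h3.mul h1
  refine h4.congr' ?_
  filter_upwards [eventually_gt_atTop ((2 * A + 1 : ℕ) : ℝ)] with z hz
  have hc : 2 * A + 1 < ⌈z⌉₊ := Nat.lt_ceil.2 hz
  have hc1 : ⌈z⌉₊ - 1 + 1 = ⌈z⌉₊ := by omega
  rw [← lf_prod A B C hA (⌈z⌉₊ - 1) (by omega), hc1]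
  have h5 : Df A B C 1 z = Pool.Agent.Y781.JR.GG ⌈z⌉₊ * ∏ p ∈ (range ⌈z⌉₊).filter Nat.Prime, lf A B C p := by
    unfold Df Pool.Agent.Y781.JR.GG
    rw [← prod_mul_distrib]
    have h6 : (range ⌈z⌉₊).filter (fun p => p.Prime ∧ ¬ p ∣ 1) = (range ⌈z⌉₊).filter Nat.Prime := by
      apply filter_congr
      intro p _
      constructor
      · exact fun h => h.1
      · intro h
        exact ⟨h, fun hd => h.one_lt.ne' (Nat.dvd_one.1 hd)⟩
    rw [h6]
    apply prod_congr rfl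
    intro p hp
    exact lf_eq A B C hg h2 p (mem_filter.1 hp).2
  rw [h5]
  ring

end Pool.Agent.H543.DP
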