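import Pool.Agent.H543.DP.Bil
import Pool.Agent.H543.DG.Nc

/-!
# The bilinear form of level `X ^ (13/12 - ε)`: all forms
-/

set_option autoImplicit false

namespace Pool.Agent.H543.DP

open Finset Filter
open Pool.Agent.H543.DG hiding rep_sum
open Pool.Agent.Y346.PA (S_KL)
open Pool.Agent.Y882.PX (ro ro_eq ro_prod)
open Pool.Agent.Y882.SI (QF QF_eval)
open Pool.Agent.H300R2.BH (rho)
open scoped Classical

/-- the decomposition of the divisors of `k ^ 2 + a` -/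
structure Dec (a : ℤ) where
  I : Finset (Fm × ℕ)
  fm : Fm × ℕ → Fm
  om : Fm × ℕ → ℝ
  K : ℕ
  M0 : ℕ
  a0 : a ≠ 0
  om_pos : ∀ i ∈ I, 0 < om i
  cone : ∀ i ∈ I, Cone (fm i) a K
  cnt : ∀ m k : ℤ, (M0 : ℤ) < m → m ∣ k ^ 2 + a → ∑ i ∈ I, om i * (Nn (fm i) K m k : ℝ) = 1

theorem Dec.nb {a : ℤ} (D : Dec a) (i : Fm × ℕ) (hi : i ∈ D.I) (m k : ℤ) (hm : (D.M0 : ℤ) < m)
    (h : m ∣ k ^ 2 + a) : (Nn (D.fm i) D.K m k : ℝ) ≤ 1 / D.om i := by
  have h1 := D.cnt m k hm h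
  have h2 := D.om_pos i hi
  rw [le_div_iff₀ h2, mul_comm, ← h1]
  apply single_le_sum (f := fun i => D.om i * (Nn (D.fm i) D.K m k : ℝ)) _ hi
  intro j hj
  exact mul_nonneg (D.om_pos j hj).le (Nat.cast_nonneg _)

/-- the number of the `k` in the class `r` modulo `q` with `d ∣ k ^ 2 + a` -/
noncomputable def cIq (a : ℤ) (X H : ℕ) (q r : ℤ) (d : ℕ) : ℝ :=
  (((Ioc (X : ℤ) (X + H)).filter (fun k => (d : ℤ) ∣ k ^ 2 + a ∧ q ∣ k - r)).card : ℝ)

theorem cIq_nonneg (a : ℤ) (X H : ℕ) (q r : ℤ) (d : ℕ) : 0 ≤ cIq a X H q r d := Nat.cast_nonneg _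

theorem cIq_le (a : ℤ) (X H : ℕ) (q r : ℤ) (d : ℕ) : cIq a X H q r d ≤ cI a X H d := by
  unfold cIq cI
  have : ((Ioc (X : ℤ) (X + H)).filter (fun k => (d : ℤ) ∣ k ^ 2 + a ∧ q ∣ k - r)) ⊆
      ((Ioc (X : ℤ) (X + H)).filter (fun k => (d : ℤ) ∣ k ^ 2 + a)) := by
    intro k hk
    rw [mem_filter] at hk ⊢
    exact ⟨hk.1, hk.2.1⟩
  exact_mod_cast card_le_card this

/-- one residue class -/
theorem one_cls (x h : ℤ) (hh : 0 ≤ h) (n : ℤ) (hn : 0 < n) (v : ℤ) :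
    |(((Ioc x (x + h)).filter (fun k => n ∣ k - v)).card : ℝ) - h / n| ≤ 1 := by
  have h1 : ((Ioc x (x + h)).filter (fun k => n ∣ k - v)) =
      ((Ioc x (x + h)).filter (fun k => k ≡ v [ZMOD n])) := by
    apply filter_congr
    intro k _
    rw [Int.modEq_comm, Int.modEq_iff_dvd]
  have h2 := Int.Ioc_filter_modEq_card x (x + h) hn v
  rw [h1]
  have hnr : (0 : ℝ) < n := by exact_mod_cast hn
  set A : ℤ := ⌊(((x + h : ℤ) : ℚ) - v) / n⌋ with hA
  set B : ℤ := ⌊(((x : ℤ) : ℚ) - v) / n⌋ with hB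
  have hAB : B ≤ A := by
    rw [hA, hB]
    apply Int.floor_le_floor
    apply div_le_div_of_nonneg_right _ (by exact_mod_cast hn.le)
    push_cast
    have : (0 : ℚ) ≤ h := by exact_mod_cast hh
    linarith
  have h3 : (((Ioc x (x + h)).filter (fun k => k ≡ v [ZMOD n])).card : ℤ) = A - B := by
    rw [h2, max_eq_left (by linarith)]
  have h4 : (((Ioc x (x + h)).filter (fun k => k ≡ v [ZMOD n])).card : ℝ) = (A : ℝ) - B := by
    exact_mod_cast h3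
  rw [h4]
  have hnq : (0 : ℚ) < n := by exact_mod_cast hn
  have a1 : (A : ℚ) ≤ (((x + h : ℤ) : ℚ) - v) / n := Int.floor_le _
  have a2 : (((x + h : ℤ) : ℚ) - v) / n < A + 1 := Int.lt_floor_add_one _
  have b1 : (B : ℚ) ≤ (((x : ℤ) : ℚ) - v) / n := Int.floor_le _
  have b2 : (((x : ℤ) : ℚ) - v) / n < B + 1 := Int.lt_floor_add_one _
  have e : (((x + h : ℤ) : ℚ) - v) / n = (((x : ℤ) : ℚ) - v) / n + (h : ℚ) / n := by
    push_cast
    ring
  rw [e] at a1 a2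
  have c1 : ((A : ℚ) - B) - (h : ℚ) / n < 1 := by linarith
  have c2 : -1 < ((A : ℚ) - B) - (h : ℚ) / n := by linarith
  have d1 : ((A : ℝ) - B) - (h : ℝ) / n < 1 := by exact_mod_cast c1
  have d2 : -1 < ((A : ℝ) - B) - (h : ℝ) / n := by exact_mod_cast c2
  rw [abs_le]
  constructor <;> linarith

theorem cIq_asym (a : ℤ) (X H : ℕ) (q r : ℤ) (hq : 0 < q) (d : ℕ) (hd : 0 < d)
    (hc : IsCoprime (d : ℤ) q) :
    |cIq a X H q r d - H / q * gd a d| ≤ (Rt a d).card := by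
  have hd0 : (0 : ℤ) < d := by exact_mod_cast hd
  have hdr : (0 : ℝ) < d := by exact_mod_cast hd
  have hqr : (0 : ℝ) < q := by exact_mod_cast hq
  obtain ⟨s, t, hst⟩ := hc
  -- the representative of the class
  set v : ℕ → ℤ := fun i => i * (t * q) + r * (s * d) with hv
  have hvd : ∀ (i : ℕ) (k : ℤ), ((d : ℤ) ∣ k - i ∧ q ∣ k - r) ↔ (d : ℤ) * q ∣ k - v i := by
    intro i k
    have e1 : v i = i + (r - i) * (s * d) := by
      simp only [hv]
      linear_combination (i : ℤ) * hst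
    have e2 : v i = r + (i - r) * (t * q) := by
      simp only [hv]
      linear_combination r * hst
    constructor
    · rintro ⟨h1, h2⟩
      apply IsCoprime.mul_dvd ⟨s, t, hst⟩
      · rw [e1, show k - (↑i + (r - ↑i) * (s * ↑d)) = (k - i) - d * ((r - i) * s) by ring]
        exact dvd_sub h1 (dvd_mul_right _ _)
      · rw [e2, show k - (r + (↑i - r) * (t * q)) = (k - r) - q * ((i - r) * t) by ring]
        exact dvd_sub h2 (dvd_mul_right _ _)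
    · intro h
      constructor
      · have h1 : (d : ℤ) ∣ k - v i := (dvd_mul_right _ _).trans h
        have h2 : k - i = (k - v i) + d * ((r - i) * s) := by rw [e1]; ring
        rw [h2]
        exact dvd_add h1 (dvd_mul_right _ _)
      · have h1 : q ∣ k - v i := (dvd_mul_left _ _).trans h
        have h2 : k - r = (k - v i) + q * ((i - r) * t) := by rw [e2]; ring
        rw [h2]
        exact dvd_add h1 (dvd_mul_right _ _)
  have h1 : (Ioc (X : ℤ) (X + H)).filter (fun k => (d : ℤ) ∣ k ^ 2 + a ∧ q ∣ k - r) =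
      (Rt a d).biUnion (fun i => (Ioc (X : ℤ) (X + H)).filter (fun k => (d : ℤ) * q ∣ k - v i)) := by
    ext k
    rw [mem_filter, mem_biUnion]
    constructor
    · rintro ⟨h2, h3, h4⟩
      refine ⟨(k % d).toNat, ?_, ?_⟩
      · unfold Rt
        rw [mem_filter, mem_range]
        have h5 := Int.emod_nonneg k hd0.ne'
        have h6 := Int.emod_lt_of_pos k hd0
        refine ⟨by omega, ?_⟩
        rw [Int.toNat_of_nonneg h5]
        have h7 : (d : ℤ) ∣ k - k % d := Int.dvd_self_sub_emod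
        have h8 : (k % (d : ℤ)) ^ 2 + a = (k ^ 2 + a) - (k - k % d) * (k + k % d) := by ring
        rw [h8]
        exact dvd_sub h3 (h7.mul_right _)
      · rw [mem_filter]
        refine ⟨h2, ?_⟩
        rw [← hvd]
        refine ⟨?_, h4⟩
        rw [Int.toNat_of_nonneg (Int.emod_nonneg k hd0.ne')]
        exact Int.dvd_self_sub_emod
    · rintro ⟨i, hi, h2⟩
      rw [mem_filter] at h2
      obtain ⟨h3, h4⟩ := (hvd i k).2 h2.2
      refine ⟨h2.1, ?_, h4⟩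
      unfold Rt at hi
      rw [mem_filter] at hi
      have h8 : k ^ 2 + a = ((i : ℤ) ^ 2 + a) + (k - i) * (k + i) := by ring
      rw [h8]
      exact dvd_add hi.2 (h3.mul_right _)
  have h2 : cIq a X H q r d = ∑ i ∈ Rt a d,
      (((Ioc (X : ℤ) (X + H)).filter (fun k => (d : ℤ) * q ∣ k - v i)).card : ℝ) := by
    unfold cIq
    rw [h1, card_biUnion]
    · push_cast
      rfl
    · intro i hi j hj hij
      rw [mem_coe] at hi hj
      show Disjoint ((Ioc (X : ℤ) (X + H)).filter (fun k => (d : ℤ) * q ∣ k - v i))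
        ((Ioc (X : ℤ) (X + H)).filter (fun k => (d : ℤ) * q ∣ k - v j))
      rw [Finset.disjoint_left]
      intro k hk hk'
      rw [mem_filter] at hk hk'
      apply hij
      have h3 := ((hvd i k).2 hk.2).1
      have h4 := ((hvd j k).2 hk'.2).1
      unfold Rt at hi hj
      rw [mem_filter, mem_range] at hi hj
      have h5 : (d : ℤ) ∣ (i : ℤ) - j := by
        have : (i : ℤ) - j = (k - j) - (k - i) := by ring
        rw [this]
        exact dvd_sub h4 h3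
      have h6 : (i : ℤ) - j = 0 := by
        apply Int.eq_zero_of_abs_lt_dvd h5
        rw [abs_lt]
        constructor <;> omega
      omega
  have h3 : cIq a X H q r d - H / q * gd a d = ∑ i ∈ Rt a d,
      ((((Ioc (X : ℤ) (X + H)).filter (fun k => (d : ℤ) * q ∣ k - v i)).card : ℝ) -
        ((H : ℤ) : ℝ) / (((d : ℤ) * q : ℤ) : ℝ)) := by
    rw [sum_sub_distrib, ← h2, sum_const, nsmul_eq_mul]
    unfold gd
    push_cast
    congr 1
    field_simp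
  rw [h3]
  refine (abs_sum_le_sum_abs _ _).trans ?_
  calc ∑ i ∈ Rt a d, |(((Ioc (X : ℤ) (X + H)).filter (fun k => (d : ℤ) * q ∣ k - v i)).card : ℝ) -
        ((H : ℤ) : ℝ) / (((d : ℤ) * q : ℤ) : ℝ)| ≤ ∑ i ∈ Rt a d, 1 :=
        sum_le_sum fun i _ => one_cls X H (Int.natCast_nonneg H) _ (mul_pos hd0 hq) _
    _ = _ := by rw [sum_const, nsmul_eq_mul, mul_one]

theorem Rt_mul (a : ℤ) (m n : ℕ) (hm : 1 ≤ m) (hn : 1 ≤ n) (h : Nat.Coprime m n) :
    (Rt a (m * n)).card = (Rt a m).card * (Rt a n).card := by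
  rw [Rt_ro, Rt_ro, Rt_ro]
  unfold ro
  exact Pool.Agent.H475R2.BH.rho_mul _ _ _ hm hn h

theorem gd_mul (a : ℤ) (m n : ℕ) (hm : 1 ≤ m) (hn : 1 ≤ n) (h : Nat.Coprime m n) :
    gd a (m * n) = gd a m * gd a n := by
  unfold gd
  rw [Rt_mul a m n hm hn h]
  push_cast
  rw [mul_div_mul_comm]

/-- one `m` -/
theorem FF_sum (a : ℤ) (X H : ℕ) (q r : ℤ) (b : ℕ → ℝ) (B : Finset ℕ) (m : ℕ) :
    ∑ k ∈ (Ioc (X : ℤ) (X + H)).filter (fun k => (m : ℤ) ∣ k ^ 2 + a ∧ q ∣ k - r),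
      FF a b B ((k ^ 2 + a) / m) =
      ∑ n ∈ B, b n * (cIq a X H q r (m * n) - gd a n * cIq a X H q r m) := by
  unfold FF
  rw [sum_comm]
  apply sum_congr rfl
  intro n _
  have h2 : ∑ k ∈ (Ioc (X : ℤ) (X + H)).filter (fun k => (m : ℤ) ∣ k ^ 2 + a ∧ q ∣ k - r),
      dv n ((k ^ 2 + a) / m) = cIq a X H q r (m * n) := by
    unfold dv cIq
    rw [← sum_filter, sum_const, nsmul_eq_mul, mul_one]
    congr 2
    ext k
    simp only [mem_filter, and_assoc]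
    apply and_congr_right
    intro _
    push_cast
    constructor
    · rintro ⟨h3, h5, h4⟩
      exact ⟨(Int.dvd_div_iff_mul_dvd h3).1 h4, h5⟩
    · rintro ⟨h3, h5⟩
      have h4 : (m : ℤ) ∣ k ^ 2 + a := (dvd_mul_right _ _).trans h3
      exact ⟨h4, h5, (Int.dvd_div_iff_mul_dvd h4).2 h3⟩
  have h3 : ∑ k ∈ (Ioc (X : ℤ) (X + H)).filter (fun k => (m : ℤ) ∣ k ^ 2 + a ∧ q ∣ k - r), gd a n =
      gd a n * cIq a X H q r m := by
    unfold cIq
    rw [sum_const, nsmul_eq_mul, mul_comm]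
  rw [← h2, ← h3, ← sum_sub_distrib, mul_sum]

/-- the sum over `m` and `n` as a sum over forms -/
theorem D_rep {a : ℤ} (D : Dec a) (X H M M0 : ℕ) (hM0 : D.M0 ≤ M0) (q r : ℤ) (al b : ℕ → ℝ)
    (B : Finset ℕ) :
    ∑ i ∈ D.I, D.om i * Dsum (D.fm i) a D.K X H M M0 q r al b B =
      ∑ m ∈ Ioc M0 M, ∑ n ∈ B, al m * b n * (cIq a X H q r (m * n) - gd a n * cIq a X H q r m) := by
  have h1 : ∀ i ∈ D.I, Dsum (D.fm i) a D.K X H M M0 q r al b B =
      ∑ m ∈ Ioc (M0 : ℤ) M, ∑ k ∈ (Ioc (X : ℤ) (X + H)).filter (fun k => m ∣ k ^ 2 + a),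
        (Nn (D.fm i) D.K m k : ℝ) *
          (if q ∣ k - r then al m.toNat * FF a b B ((k ^ 2 + a) / m) else 0) := by
    intro i hi
    rw [← rep_sum (D.fm i) a D.K (D.cone i hi) X H M0 M (Int.natCast_nonneg M0)
      (fun m k => if q ∣ k - r then al m.toNat * FF a b B ((k ^ 2 + a) / m) else 0)]
    unfold Dsum
    apply sum_congr rfl
    intro x hx
    apply sum_congr rfl
    intro y _
    by_cases hc : (M0 : ℤ) < qm (D.fm i) x y ∧ qm (D.fm i) x y ≤ (M : ℤ)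
    · rw [if_pos hc, if_pos hc]
      apply sum_congr rfl
      intro u hu
      have hm0 : 0 < qm (D.fm i) x y := lt_of_le_of_lt (Int.natCast_nonneg M0) hc.1
      rw [mem_Icc] at hx
      obtain ⟨-, -, s3, -, -⟩ := US_spec (D.fm i) a (D.cone i hi).disc X H x y u (by linarith [hx.1])
        hm0 hu
      by_cases hk : q ∣ kk (D.fm i) x y u - r
      · rw [if_pos hk, if_pos hk, s3, Int.mul_ediv_cancel_left _ hm0.ne']
      · rw [if_neg hk, if_neg hk]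
    · rw [if_neg hc, if_neg hc]
  rw [sum_congr rfl (fun i hi => by rw [h1 i hi])]
  have h2 : ∑ i ∈ D.I, D.om i * ∑ m ∈ Ioc (M0 : ℤ) M,
      ∑ k ∈ (Ioc (X : ℤ) (X + H)).filter (fun k => m ∣ k ^ 2 + a),
        (Nn (D.fm i) D.K m k : ℝ) *
          (if q ∣ k - r then al m.toNat * FF a b B ((k ^ 2 + a) / m) else 0) =
      ∑ m ∈ Ioc (M0 : ℤ) M, ∑ k ∈ (Ioc (X : ℤ) (X + H)).filter (fun k => m ∣ k ^ 2 + a),
        (∑ i ∈ D.I, D.om i * (Nn (D.fm i) D.K m k : ℝ)) *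
          (if q ∣ k - r then al m.toNat * FF a b B ((k ^ 2 + a) / m) else 0) := by
    simp_rw [mul_sum, sum_mul]
    rw [sum_comm]
    apply sum_congr rfl
    intro m _
    rw [sum_comm]
    apply sum_congr rfl
    intro k _
    apply sum_congr rfl
    intro i _
    ring
  rw [h2]
  have h3 : (Ioc (M0 : ℤ) M) = (Ioc M0 M).map ⟨fun x : ℕ => (x : ℤ), Nat.cast_injective⟩ := by
    ext m
    rw [Finset.mem_map, mem_Ioc]
    constructor
    · intro hm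
      refine ⟨m.toNat, ?_, Int.toNat_of_nonneg (by omega)⟩
      rw [mem_Ioc]
      omega
    · rintro ⟨m', hm', rfl⟩
      rw [mem_Ioc] at hm'
      simp only [Function.Embedding.coeFn_mk]
      omega
  rw [h3, sum_map]
  apply sum_congr rfl
  intro m hm
  rw [mem_Ioc] at hm
  simp only [Function.Embedding.coeFn_mk]
  have e1 : ((m : ℤ)).toNat = m := Int.toNat_natCast m
  rw [e1]
  have h4 : ∑ k ∈ (Ioc (X : ℤ) (X + H)).filter (fun k => (m : ℤ) ∣ k ^ 2 + a),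
      (∑ i ∈ D.I, D.om i * (Nn (D.fm i) D.K m k : ℝ)) *
        (if q ∣ k - r then al m * FF a b B ((k ^ 2 + a) / m) else 0) =
      al m * ∑ k ∈ (Ioc (X : ℤ) (X + H)).filter (fun k => (m : ℤ) ∣ k ^ 2 + a ∧ q ∣ k - r),
        FF a b B ((k ^ 2 + a) / m) := by
    rw [← filter_filter, sum_filter (p := fun k => q ∣ k - r), mul_sum]
    apply sum_congr rfl
    intro k hk
    rw [D.cnt m k (by exact_mod_cast lt_of_le_of_lt hM0 hm.1) (mem_filter.1 hk).2, one_mul]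
    split_ifs
    · rfl
    · rw [mul_zero]
  rw [h4, FF_sum, mul_sum]
  apply sum_congr rfl
  intro n _
  ring

/-- the part of the dispersion method -/
theorem D_small (kl : S_KL) {a : ℤ} (D : Dec a) (ε ρ κ : ℝ) (hκ : 0 < κ) (hκε : 200 * κ ≤ ε)
    (hκρ : 100 * κ ≤ ρ) (hε : ε ≤ 1 / 100) : ∃ X0 : ℕ, ∀ X : ℕ, X0 ≤ X → ∀ H : ℕ,
    (X : ℝ) ^ (1 - κ) ≤ H → H ≤ X →
    ∀ N M M0 : ℕ, (N : ℝ) ≤ (X : ℝ) ^ (1 / 12 - ε) → (M : ℝ) ≤ (X : ℝ) ^ (1 - ε) →
    (X : ℝ) ^ (9 / 10 : ℝ) ≤ M0 + 1 →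
    ∀ q r : ℤ, 0 < q → ∀ al b : ℕ → ℝ, (∀ n, |al n| ≤ 1) → (∀ n, |b n| ≤ 1) →
    (∀ m : ℕ, al m ≠ 0 → IsCoprime (m : ℤ) q) →
    |∑ m ∈ Ioc M0 M, ∑ n ∈ Bs X N ρ, al m * b n *
      (cIq a X H q r (m * n) - gd a n * cIq a X H q r m)| ≤
      (∑ i ∈ D.I, D.om i) * (2 * (H * (X : ℝ) ^ (-κ))) := by
  have h1 : ∀ i ∈ D.I, ∃ X0 : ℕ, ∀ X : ℕ, X0 ≤ X → ∀ H : ℕ,
    (X : ℝ) ^ (1 - κ) ≤ H → H ≤ X →
    ∀ N M M0 : ℕ, (N : ℝ) ≤ (X : ℝ) ^ (1 / 12 - ε) → (M : ℝ) ≤ (X : ℝ) ^ (1 - ε) →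
    (X : ℝ) ^ (9 / 10 : ℝ) ≤ M0 + 1 →
    ∀ q r : ℤ, 0 < q → ∀ al b : ℕ → ℝ, (∀ n, |al n| ≤ 1) → (∀ n, |b n| ≤ 1) →
    (∀ m : ℕ, al m ≠ 0 → IsCoprime (m : ℤ) q) →
    |Dsum (D.fm i) a D.K X H M M0 q r al b (Bs X N ρ)| ≤ 2 * (H * (X : ℝ) ^ (-κ)) := by
    intro i hi
    exact D_one kl (D.fm i) a D.a0 D.K (D.cone i hi) D.M0 (1 / D.om i)
      (one_div_nonneg.2 (D.om_pos i hi).le) (fun m k hm h => D.nb i hi m k hm h) ε ρ κ hκ hκε hκρ hε
  choose! f hf using h1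
  have e1 : ∀ᶠ X : ℕ in atTop, (D.M0 : ℝ) + 1 ≤ (X : ℝ) ^ (9 / 10 : ℝ) :=
    tendsto_natCast_atTop_atTop.eventually
      ((tendsto_rpow_atTop (by norm_num)).eventually_ge_atTop _)
  obtain ⟨X3, hX3⟩ := eventually_atTop.1 e1
  refine ⟨max (D.I.sup f) X3, fun X hX H hH1 hH2 N M M0 hN hM hM0 q r hq al b hal hb hcq => ?_⟩
  have hM0' : D.M0 ≤ M0 := by
    have h2 := hX3 X ((le_max_right _ _).trans hX)
    have h3 : (D.M0 : ℝ) ≤ M0 := by linarith
    exact_mod_cast h3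
  rw [← D_rep D X H M M0 hM0' q r al b (Bs X N ρ), sum_mul]
  refine (abs_sum_le_sum_abs _ _).trans (sum_le_sum fun i hi => ?_)
  rw [abs_mul, abs_of_pos (D.om_pos i hi)]
  apply mul_le_mul_of_nonneg_left _ (D.om_pos i hi).le
  exact hf i hi X ((le_sup hi).trans ((le_max_left _ _).trans hX)) H hH1 hH2 N M M0 hN hM hM0 q r hq
    al b hal hb hcq

end Pool.Agent.H543.DP
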