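import Pool.Agent.H543.DP.Pack

/-!
# Quadratic polynomials: almost prime values with prescribed digits
-/

set_option autoImplicit false

namespace Pool.Agent.H543.DP

open Finset Filter Topology
open Pool.Agent.Y346.PA (S_KL)

theorem dig_num (b K j L X : ℕ) (δ : ℝ) (hb : 2 ≤ b) (hδ : 0 < δ) (hδ1 : δ ≤ 1)
    (hj : (j : ℝ) ≤ δ / 2 * K) (hL : 3 ≤ L) (hLb : L < b ^ j) (hX : X = L * b ^ (K - j) - 1) :
    j ≤ K ∧ 2 * b ^ (K - j) ≤ X ∧ X < b ^ K ∧ (b : ℝ) ^ ((K : ℝ) / 2) ≤ X ∧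
      (X : ℝ) ^ (1 - δ) ≤ ((b ^ (K - j) : ℕ) : ℝ) ∧ ((b ^ j : ℕ) : ℝ) ≤ (X : ℝ) ^ δ := by
  have hKr : (0 : ℝ) ≤ K := Nat.cast_nonneg _
  have hj2 : (j : ℝ) ≤ K / 2 := by nlinarith
  have hjK : j ≤ K := by
    have : (j : ℝ) ≤ K := by linarith
    exact_mod_cast this
  have hbr : (2 : ℝ) ≤ b := by exact_mod_cast hb
  have hb0 : (0 : ℝ) < b := by linarith
  have hb1 : (1 : ℝ) ≤ b := by linarith
  have hpos : 1 ≤ b ^ (K - j) := Nat.one_le_pow _ _ (by omega)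
  have hsplit : b ^ j * b ^ (K - j) = b ^ K := by
    rw [← pow_add]
    congr 1
    omega
  have h1 : L * b ^ (K - j) < b ^ K := by
    rw [← hsplit]
    exact Nat.mul_lt_mul_of_pos_right hLb (by omega)
  have h2 : 3 * b ^ (K - j) ≤ L * b ^ (K - j) := Nat.mul_le_mul_right _ hL
  have h3 : 2 * b ^ (K - j) ≤ X := by omega
  have h4 : X < b ^ K := by omega
  have h5 : b ^ (K - j) ≤ X := by omega
  have h6 : ((b ^ (K - j) : ℕ) : ℝ) = (b : ℝ) ^ ((K : ℝ) - j) := by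
    push_cast
    rw [← Real.rpow_natCast, Nat.cast_sub hjK]
  have h7 : ((b ^ (K - j) : ℕ) : ℝ) ≤ X := by exact_mod_cast h5
  have h8 : (X : ℝ) ≤ (b : ℝ) ^ (K : ℝ) := by
    rw [Real.rpow_natCast]
    exact_mod_cast h4.le
  have hX0 : (0 : ℝ) < X := lt_of_lt_of_le (by rw [h6]; positivity) h7
  refine ⟨hjK, h3, h4, ?_, ?_, ?_⟩
  · refine le_trans ?_ h7
    rw [h6]
    apply Real.rpow_le_rpow_of_exponent_le hb1
    linarith
  · rw [h6]
    calc (X : ℝ) ^ (1 - δ) ≤ ((b : ℝ) ^ (K : ℝ)) ^ (1 - δ) :=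
          Real.rpow_le_rpow hX0.le h8 (by linarith)
      _ = (b : ℝ) ^ ((K : ℝ) * (1 - δ)) := by rw [← Real.rpow_mul hb0.le]
      _ ≤ _ := by
          apply Real.rpow_le_rpow_of_exponent_le hb1
          nlinarith
  · calc ((b ^ j : ℕ) : ℝ) = (b : ℝ) ^ (j : ℝ) := by
          push_cast
          rw [Real.rpow_natCast]
      _ ≤ (b : ℝ) ^ (((K : ℝ) - j) * δ) := by
          apply Real.rpow_le_rpow_of_exponent_le hb1
          nlinarith
      _ = ((b : ℝ) ^ ((K : ℝ) - j)) ^ δ := by rw [← Real.rpow_mul hb0.le]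
      _ ≤ (X : ℝ) ^ δ := by
          apply Real.rpow_le_rpow (by positivity) _ hδ.le
          rw [← h6]
          exact h7

theorem dig_cop (b j : ℕ) (x : ℤ) (h : IsCoprime x (b : ℤ)) : IsCoprime x ((b ^ j : ℕ) : ℤ) := by
  push_cast
  exact h.pow_right

theorem dig_ev (b : ℕ) (hb : 2 ≤ b) (X0 : ℕ) : ∀ᶠ K : ℕ in atTop, (X0 : ℝ) ≤ (b : ℝ) ^ ((K : ℝ) / 2) := by
  have hbr : (2 : ℝ) ≤ b := by exact_mod_cast hb
  have h1 : Tendsto (fun K : ℕ => ((b : ℝ) ^ (1 / 2 : ℝ)) ^ K) atTop atTop := by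
    apply tendsto_pow_atTop_atTop_of_one_lt
    exact Real.one_lt_rpow (by linarith) (by norm_num)
  filter_upwards [h1.eventually_ge_atTop (X0 : ℝ)] with K hK
  refine hK.trans (le_of_eq ?_)
  rw [← Real.rpow_natCast, ← Real.rpow_mul (by linarith)]
  congr 1
  ring

open Classical in
/-- **prescribed digits**: almost primes -/
theorem digits_p2 (kl : S_KL) (A : ℕ) (B C : ℤ) (hA : 1 ≤ A) (hna : ¬ IsSquare (-(dt A B C)))
    (hg : Int.gcd (Int.gcd A B : ℤ) C = 1) (ho : ¬ (Even ((A : ℤ) + B) ∧ Even C)) (b : ℕ)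
    (hb : 2 ≤ b) : ∃ δ κ : ℝ, 0 < δ ∧ 0 < κ ∧ ∀ᶠ K : ℕ in atTop, ∀ j : ℕ, (j : ℝ) ≤ δ * K →
      ∀ (L : ℕ) (t : ℤ), 3 ≤ L → L < b ^ j → IsCoprime (fv A B C t) b →
      κ * ((b : ℝ) ^ (K - j) / ((b : ℝ) ^ j * K)) ≤ (((range (b ^ K)).filter (fun n : ℕ =>
        n / b ^ (K - j) = L ∧ ((b ^ j : ℕ) : ℤ) ∣ (n : ℤ) - t ∧
        (NV A B C n).primeFactorsList.length ≤ 2 ∧
        ∀ p : ℕ, p.Prime → p ∣ NV A B C n → (n : ℝ) ^ (23 / 100 : ℝ) ≤ p)).card : ℝ) := by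
  obtain ⟨δ, hδ, κ, hκ, h5⟩ := p2_f kl A B C hA hna hg ho
  have h6 := to_half B _ δ h5
  obtain ⟨X0, hX0⟩ := eventually_atTop.1 h6
  obtain ⟨δ', hδ'⟩ : ∃ δ' : ℝ, δ' = min δ 1 := ⟨_, rfl⟩
  have hd0 : 0 < δ' := by rw [hδ']; exact lt_min hδ one_pos
  have hd1 : δ' ≤ 1 := by rw [hδ']; exact min_le_right _ _
  have hd2 : δ' ≤ δ := by rw [hδ']; exact min_le_left _ _
  have hbr : (2 : ℝ) ≤ b := by exact_mod_cast hb
  have hlb : 0 < Real.log b := Real.log_pos (by linarith)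
  refine ⟨δ' / 2, κ / Real.log b, by positivity, by positivity, ?_⟩
  filter_upwards [dig_ev b hb (X0 + 2), eventually_ge_atTop 1] with K hK hK1
  intro j hj L t hL hLb ht
  obtain ⟨X, hX⟩ : ∃ X : ℕ, X = L * b ^ (K - j) - 1 := ⟨_, rfl⟩
  obtain ⟨a1, a2, a3, a4, a5, a6⟩ := dig_num b K j L X δ' hb hd0 hd1 hj hL hLb hX
  have hXX : (X0 + 2 : ℕ) ≤ X := by
    have : ((X0 + 2 : ℕ) : ℝ) ≤ X := hK.trans a4
    exact_mod_cast this
  have hX2 : (2 : ℝ) ≤ X := by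
    have : 2 ≤ X := by omega
    exact_mod_cast this
  have hX1 : (1 : ℝ) ≤ X := by linarith
  have h7 := hX0 X (by omega) (b ^ (K - j))
    ((Real.rpow_le_rpow_of_exponent_le hX1 (by linarith)).trans a5) a2 (b ^ j) t
    (Nat.one_le_pow _ _ (by omega))
    (a6.trans (Real.rpow_le_rpow_of_exponent_le hX1 hd2)) (dig_cop b j _ ht)
  have hpos : 1 ≤ b ^ (K - j) := Nat.one_le_pow _ _ (by omega)
  have hLpos : 1 ≤ L * b ^ (K - j) := Nat.mul_pos (by omega) hpos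
  have hsub : NS X (b ^ (K - j)) (b ^ j) t ⊆ (range (b ^ K)).filter (fun n : ℕ =>
      n / b ^ (K - j) = L ∧ ((b ^ j : ℕ) : ℤ) ∣ (n : ℤ) - t) := by
    intro n hn
    unfold NS at hn
    rw [mem_filter, mem_Ioc] at hn
    obtain ⟨⟨h8, h9⟩, h10⟩ := hn
    have h11 : (L + 1) * b ^ (K - j) ≤ b ^ K := by
      calc (L + 1) * b ^ (K - j) ≤ b ^ j * b ^ (K - j) := Nat.mul_le_mul_right _ hLb
        _ = b ^ K := by
            rw [← pow_add]
            congr 1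
            omega
    have h12 : (L + 1) * b ^ (K - j) = L * b ^ (K - j) + b ^ (K - j) := by ring
    rw [mem_filter, mem_range]
    refine ⟨by omega, ?_, h10⟩
    rw [Nat.div_eq_iff (by omega)]
    constructor
    · rw [mul_comm] at *
      omega
    · omega
  have hcard := card_le_card (filter_subset_filter (fun n : ℕ =>
    (NV A B C n).primeFactorsList.length ≤ 2 ∧
        ∀ p : ℕ, p.Prime → p ∣ NV A B C n → (n : ℝ) ^ (23 / 100 : ℝ) ≤ p) hsub)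
  rw [filter_filter] at hcard
  have hcard' : (((NS X (b ^ (K - j)) (b ^ j) t).filter (fun n : ℕ =>
        (NV A B C n).primeFactorsList.length ≤ 2 ∧
        ∀ p : ℕ, p.Prime → p ∣ NV A B C n → (n : ℝ) ^ (23 / 100 : ℝ) ≤ p)).card : ℝ) ≤
      (((range (b ^ K)).filter (fun n : ℕ =>
        n / b ^ (K - j) = L ∧ ((b ^ j : ℕ) : ℤ) ∣ (n : ℤ) - t ∧
        (NV A B C n).primeFactorsList.length ≤ 2 ∧
        ∀ p : ℕ, p.Prime → p ∣ NV A B C n → (n : ℝ) ^ (23 / 100 : ℝ) ≤ p)).card : ℝ) := by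
    refine le_trans (Nat.cast_le.2 hcard) (le_of_eq ?_)
    congr 2
    ext n
    simp only [mem_filter]
    tauto
  refine le_trans ?_ (h7.trans hcard')
  have hlX : 0 < Real.log X := Real.log_pos (by linarith)
  have hK0 : (0 : ℝ) < K := by exact_mod_cast hK1
  have hlXK : Real.log X ≤ K * Real.log b := by
    rw [← Real.log_pow]
    apply Real.log_le_log (by linarith)
    exact_mod_cast a3.le
  push_cast
  calc κ / Real.log b * ((b : ℝ) ^ (K - j) / ((b : ℝ) ^ j * K)) =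
      κ * ((b : ℝ) ^ (K - j) / ((b : ℝ) ^ j * (K * Real.log b))) := by field_simp
    _ ≤ _ := by
        apply mul_le_mul_of_nonneg_left _ hκ.le
        apply div_le_div_of_nonneg_left (by positivity) (by positivity)
        exact mul_le_mul_of_nonneg_left hlXK (by positivity)

end Pool.Agent.H543.DP
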