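import Pool.Agent.H543.DP.Fin1
import Pool.Agent.H543.DG.Fin3

/-!
# The linear sieve for quadratic polynomials in short intervals and classes
-/

set_option autoImplicit false

namespace Pool.Agent.H543.DP

open Finset Filter Topology
open Pool.Agent.W23.DC
open Pool.Agent.Y882
open Pool.Agent.Y882.KW
open Pool.Agent.Y882.SI
open Pool.Agent.Y882.JR (dens PZ_eq)
open Pool.Agent.Y882.PX (ro)
open Pool.Agent.Y346.PA (S_KL)
open Pool.Agent.H543.DG hiding rep_sum lin_q lin_big lin_all prime_rough prime_up rough_low rough_anti rough_nat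
open Pool.Agent.H543.DD

open Classical in
/-- the `n` of the class such that `f n` has no prime factor below `z` -/
noncomputable def rgh (A : ℕ) (B C : ℤ) (X H Q : ℕ) (r : ℤ) (z : ℝ) : ℕ :=
  ((NS X H Q r).filter (fun n : ℕ => ∀ p : ℕ, p.Prime → (p : ℤ) ∣ fv A B C n → z ≤ p)).card

/-- the factor of the class -/
noncomputable def kQ (a : ℤ) (Q : ℕ) : ℝ := ∏ p ∈ Q.primeFactors, (1 - gd a p)

/-- the weight of the class -/
noncomputable def WQ (a : ℤ) (H Q : ℕ) : ℝ := (H : ℝ) / Q / kQ a Q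

theorem one_gd (a : ℤ) (p : ℕ) (hp : p.Prime) : 0 < 1 - gd a p := by
  linarith [(gd_prime a p hp).1]

theorem kQ_pos (a : ℤ) (Q : ℕ) : 0 < kQ a Q := by
  unfold kQ
  exact prod_pos fun p hp => one_gd a p (Nat.prime_of_mem_primeFactors hp)

theorem WQ_nonneg (a : ℤ) (H Q : ℕ) : 0 ≤ WQ a H Q := by
  unfold WQ
  have := kQ_pos a Q
  positivity

/-- the density without the primes of `Q` -/
theorem dens_out (a : ℤ) (Q : ℕ) (hQ : 1 ≤ Q) (z : ℝ) (hz : (Q : ℝ) < z) :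
    ∏ p ∈ (range ⌈z⌉₊).filter Nat.Prime, (1 - gq a Q p) = dens a z / kQ a Q := by
  rw [eq_div_iff (kQ_pos a Q).ne']
  unfold kQ JR.dens
  have hsub : Q.primeFactors ⊆ (range ⌈z⌉₊).filter Nat.Prime := by
    intro p hp
    rw [mem_filter, mem_range]
    refine ⟨?_, Nat.prime_of_mem_primeFactors hp⟩
    have h1 : p ≤ Q := Nat.le_of_dvd hQ (Nat.dvd_of_mem_primeFactors hp)
    have h2 : (p : ℝ) ≤ Q := by exact_mod_cast h1
    exact Nat.lt_ceil.2 (by linarith)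
  have e1 : ∏ p ∈ (range ⌈z⌉₊).filter Nat.Prime, (1 - gq a Q p) =
      ∏ p ∈ (range ⌈z⌉₊).filter Nat.Prime \ Q.primeFactors, (1 - gd a p) := by
    rw [← prod_sdiff hsub]
    have e2 : ∏ p ∈ Q.primeFactors, (1 - gq a Q p) = 1 := by
      apply prod_eq_one
      intro p hp
      unfold gq
      rw [if_neg, sub_zero]
      intro hc
      exact (Nat.Prime.coprime_iff_not_dvd (Nat.prime_of_mem_primeFactors hp)).1 hc
        (Nat.dvd_of_mem_primeFactors hp)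
    rw [e2, mul_one]
    apply prod_congr rfl
    intro p hp
    rw [Finset.mem_sdiff, mem_filter] at hp
    unfold gq
    rw [if_pos]
    rw [Nat.Prime.coprime_iff_not_dvd hp.1.2]
    intro hd
    exact hp.2 (Nat.mem_primeFactors.2 ⟨hp.1.2, hd, by omega⟩)
  have e3 : ∏ p ∈ (range ⌈z⌉₊).filter Nat.Prime, (1 - (((Finset.range p).filter
      (fun m : ℕ => (p : ℤ) ∣ (m : ℤ) ^ 2 + a)).card : ℝ) / p) =
      ∏ p ∈ (range ⌈z⌉₊).filter Nat.Prime, (1 - gd a p) := by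
    apply prod_congr rfl
    intro p _
    rw [Pool.Agent.Y781.JR.rho_eq, ← gd_ro]
  rw [e1, e3]
  exact prod_sdiff hsub

theorem dens_gq (a : ℤ) (Q : ℕ) (hQ : 1 ≤ Q) (X : ℕ) (hX : 2 ≤ X) (ζ : ℝ) (hζ : ζ ≤ 1)
    (hQX : (Q : ℝ) < (X : ℝ) ^ (2 * ζ)) :
    ∏ p ∈ PZ (X ^ 2) ζ, (1 - gq a Q p) = dens a ((X : ℝ) ^ (2 * ζ)) / kQ a Q := by
  have hY : 2 ≤ X ^ 2 := by nlinarith
  rw [← dens_out a Q hQ _ hQX, ← sq_rpow, ← PZ_eq (X ^ 2) hY ζ hζ]

open Classical in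
theorem rgh_nat (A : ℕ) (B C : ℤ) (X : ℕ) (hX : 2 ≤ X) (ζ : ℝ) (hζ : ζ ≤ 1) (H Q : ℕ) (r : ℤ) :
    (rgh A B C X H Q r ((X : ℝ) ^ (2 * ζ)) : ℝ) =
      (((NS X H Q r).filter (fun n => ∀ p ∈ PZ (X ^ 2) ζ, ¬ p ∣ NV A B C n)).card : ℝ) := by
  have hY : 2 ≤ X ^ 2 := by nlinarith
  unfold rgh
  congr 2
  ext n
  simp only [mem_filter]
  apply and_congr_right
  intro _
  rw [PZ_eq (X ^ 2) hY ζ hζ, sq_rpow]
  constructor
  · intro h p hp hd
    rw [mem_filter, mem_range] at hp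
    have h2 := h p hp.2 ((dvd_NV A B C n p).1 hd)
    exact absurd (Nat.lt_ceil.1 hp.1) (not_lt.2 h2)
  · intro h p hp hd
    by_contra hlt
    push Not at hlt
    refine h p ?_ ?_
    · rw [mem_filter, mem_range]
      exact ⟨Nat.lt_ceil.2 hlt, hp⟩
    · exact (dvd_NV A B C n p).2 hd

theorem rgh_anti (A : ℕ) (B C : ℤ) (z z' : ℝ) (h : z ≤ z') (X H Q : ℕ) (r : ℤ) :
    rgh A B C X H Q r z' ≤ rgh A B C X H Q r z := by
  classical
  unfold rgh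
  apply card_le_card
  intro n hn
  rw [mem_filter] at hn ⊢
  exact ⟨hn.1, fun p hp hd => h.trans (hn.2 p hp hd)⟩

/-- the linear sieve, rational parameters -/
theorem lin_q (kl : S_KL) (A : ℕ) (B C : ℤ) (hA : 1 ≤ A) {a : ℤ} (hadt : a = dt A B C) (hna : ¬ IsSquare (-a)) (A0 : ℝ) (F f : ℝ → ℝ) (hSF : SF A0 F f) (τ : ℝ)
    (hτ : τ < 13 / 24) (q : ℚ) (hq : (0 : ℝ) < q) (h2 : 2 * (q : ℝ) < τ) (ε : ℝ) (hε : 0 < ε) :
    ∃ δ : ℝ, 0 < δ ∧ ∀ᶠ X : ℕ in atTop, ∀ H : ℕ, (X : ℝ) ^ (1 - δ) ≤ H → (H : ℤ) + |B| ≤ X →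
      ∀ (Q : ℕ) (r : ℤ), (Q : ℝ) ≤ (X : ℝ) ^ δ → Cl A B C Q r →
      (f (τ / q) - ε) * (WQ a H Q * dens a ((X : ℝ) ^ (2 * (q : ℝ)))) ≤ rgh A B C X H Q r ((X : ℝ) ^ (2 * (q : ℝ))) ∧
      (rgh A B C X H Q r ((X : ℝ) ^ (2 * (q : ℝ))) : ℝ) ≤
        (F (τ / q) + ε) * (WQ a H Q * dens a ((X : ℝ) ^ (2 * (q : ℝ)))) := by
  classical
  obtain ⟨β, hβ1, hβ2⟩ := exists_between (show max 0 (τ - 1 / 2) < min (1 / 24) (τ - q) from
    max_lt (lt_min (by norm_num) (by linarith)) (lt_min (by linarith) (by linarith)))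
  have b1 : 0 < β := lt_of_le_of_lt (le_max_left _ _) hβ1
  have b2 : τ - 1 / 2 < β := lt_of_le_of_lt (le_max_right _ _) hβ1
  have b3 : β < 1 / 24 := lt_of_lt_of_le hβ2 (min_le_left _ _)
  have b4 : β < τ - q := lt_of_lt_of_le hβ2 (min_le_right _ _)
  set α : ℝ := τ - β with hα
  have hαβ : α + β = τ := by rw [hα]; ring
  obtain ⟨δ, hδ, X0, HS⟩ := siG kl A B C hA hadt hna A0 F f hSF α β q q 0 0 ε hq ⟨q, rfl⟩
    (by linarith) (fun h => absurd h (lt_irrefl _)) le_rfl (by linarith) (by linarith) le_rfl le_rfl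
    (by simp) (by linarith) (by linarith) hε
  rw [hαβ] at HS
  refine ⟨min δ q, lt_min hδ hq, ?_⟩
  filter_upwards [eventually_ge_atTop X0, eventually_ge_atTop 2] with X hX hX2
  intro H hH1 hH2 Q r hQ hcl
  have hX2r : (2 : ℝ) ≤ X := by exact_mod_cast hX2
  have hX1r : (1 : ℝ) ≤ X := by linarith
  have hQX : (Q : ℝ) < (X : ℝ) ^ (2 * (q : ℝ)) := by
    calc (Q : ℝ) ≤ (X : ℝ) ^ min δ q := hQ
      _ ≤ (X : ℝ) ^ (q : ℝ) := Real.rpow_le_rpow_of_exponent_le hX1r (min_le_right _ _)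
      _ < _ := Real.rpow_lt_rpow_of_exponent_lt (by linarith) (by linarith)
  obtain ⟨h3, h4⟩ := HS X hX H
    ((Real.rpow_le_rpow_of_exponent_le hX1r (by linarith [min_le_left δ (q : ℝ)])).trans hH1) hH2 Q r
    (hQ.trans (Real.rpow_le_rpow_of_exponent_le hX1r (min_le_left _ _))) hcl
  rw [dens_gq a Q hcl.Q1 X hX2 q (by linarith) hQX] at h3 h4
  rw [rgh_nat A B C X hX2 q (by linarith)]
  have hW : ∀ x : ℝ, WQ a H Q * x = (H : ℝ) / Q * (x / kQ a Q) := by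
    intro x
    unfold WQ
    ring
  rw [hW]
  constructor
  · have h5 : ∑ n ∈ NS X H Q r, WW (X ^ 2) q q 0 0 (NV A B C n) =
        (((NS X H Q r).filter (fun n => ∀ p ∈ PZ (X ^ 2) q, ¬ p ∣ NV A B C n)).card : ℝ) := by
      rw [card_filter]
      push_cast
      apply sum_congr rfl
      intro n _
      unfold WW
      simp
    rw [h5, intervalIntegral.integral_same, mul_zero, sub_zero] at h3
    refine le_trans (le_of_eq ?_) h3
    ring
  · refine le_trans (le_trans (le_of_eq ?_) h4) (le_of_eq (by ring))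
    congr

/-- **the linear sieve for `n ^ 2 + a` in short intervals**, `s > 2` -/
theorem lin_big (kl : S_KL) (A : ℕ) (B C : ℤ) (hA : 1 ≤ A) {a : ℤ} (hadt : a = dt A B C) (hna : ¬ IsSquare (-a)) (A0 : ℝ) (F f : ℝ → ℝ) (hSF : SF A0 F f) (θ s : ℝ) (hθ1 : 0 < θ)
    (hθ : θ < 13 / 12) (hs : 2 < s) (ε : ℝ) (hε : 0 < ε) :
    ∃ δ : ℝ, 0 < δ ∧ ∀ᶠ X : ℕ in atTop, ∀ H : ℕ, (X : ℝ) ^ (1 - δ) ≤ H → (H : ℤ) + |B| ≤ X →
      ∀ (Q : ℕ) (r : ℤ), (Q : ℝ) ≤ (X : ℝ) ^ δ → Cl A B C Q r →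
      (f s - ε) * (WQ a H Q * dens a ((X : ℝ) ^ (θ / s))) ≤ rgh A B C X H Q r ((X : ℝ) ^ (θ / s)) ∧
      (rgh A B C X H Q r ((X : ℝ) ^ (θ / s)) : ℝ) ≤ (F s + ε) * (WQ a H Q * dens a ((X : ℝ) ^ (θ / s))) := by
  set τ : ℝ := θ / 2 with hτ
  have hτ0 : 0 < τ := by linarith
  set ζ : ℝ := τ / s with hζ
  have hs0 : 0 < s := by linarith
  have hζ0 : 0 < ζ := by positivity
  have hζ2 : 2 * ζ < τ := by
    rw [hζ, ← mul_div_assoc, div_lt_iff₀ hs0]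
    nlinarith
  have hsζ : τ / ζ = s := by rw [hζ]; field_simp
  have e0 : θ / s = 2 * ζ := by rw [hζ, hτ]; ring
  rw [e0]
  have hs1 : 1 < τ / ζ := by rw [hsζ]; linarith
  -- continuity
  have hc : ∀ G : ℝ → ℝ, ContinuousOn G (Set.Ici 1) → ContinuousAt (fun x => G (τ / x) * (ζ / x)) ζ := by
    intro G hG
    have h3 : ContinuousAt G (τ / ζ) := hG.continuousAt (Ici_mem_nhds hs1)
    have h4 : ContinuousAt (fun x => G (τ / x)) ζ := by
      apply ContinuousAt.comp (g := G) (f := fun x => τ / x) h3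
      exact continuousAt_const.div continuousAt_id hζ0.ne'
    exact h4.mul (continuousAt_const.div continuousAt_id hζ0.ne')
  have hcF := hc F hSF.cF
  have hcf := hc f hSF.cf
  -- upper bound
  have hup : ∃ δ : ℝ, 0 < δ ∧ ∀ᶠ X : ℕ in atTop, ∀ H : ℕ, (X : ℝ) ^ (1 - δ) ≤ H → (H : ℤ) + |B| ≤ X →
      ∀ (Q : ℕ) (r : ℤ), (Q : ℝ) ≤ (X : ℝ) ^ δ → Cl A B C Q r →
      (rgh A B C X H Q r ((X : ℝ) ^ (2 * ζ)) : ℝ) ≤ (F s + ε) * (WQ a H Q * dens a ((X : ℝ) ^ (2 * ζ))) := by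
    have h1 : ∀ᶠ x in 𝓝 ζ, F (τ / x) * (ζ / x) < F s + ε := by
      have h0 : F (τ / ζ) * (ζ / ζ) < F s + ε := by
        rw [hsζ, div_self hζ0.ne', mul_one]
        linarith
      exact hcF.eventually (gt_mem_nhds h0)
    obtain ⟨r, hr, h2⟩ := Metric.eventually_nhds_iff.1 h1
    obtain ⟨q, hq1, hq2⟩ := exists_rat_btwn (show max (ζ - r) 0 < ζ from max_lt (by linarith) hζ0)
    have hq0 : (0 : ℝ) < q := lt_of_le_of_lt (le_max_right _ _) hq1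
    have hqr : ζ - r < (q : ℝ) := lt_of_le_of_lt (le_max_left _ _) hq1
    have h3 := h2 (y := (q : ℝ)) (by rw [Real.dist_eq, abs_lt]; constructor <;> linarith)
    obtain ⟨e, he, he2⟩ := eps_up _ _ _ h3
    obtain ⟨δ, hδ, h4⟩ := lin_q kl A B C hA hadt hna A0 F f hSF τ (by linarith) q hq0 (by linarith) e he
    refine ⟨δ, hδ, ?_⟩
    filter_upwards [h4, dens_ratio hna ζ q e hζ0 hq0 he, eventually_ge_atTop 1] with X h5 h6 h7
    intro H hH1 hH2 Q r hQ hcl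
    have hX1 : (1 : ℝ) ≤ X := by exact_mod_cast h7
    have h8 := (h5 H hH1 hH2 Q r hQ hcl).2
    have h9 : rgh A B C X H Q r ((X : ℝ) ^ (2 * ζ)) ≤ rgh A B C X H Q r ((X : ℝ) ^ (2 * (q : ℝ))) :=
      rgh_anti A B C _ _ (Real.rpow_le_rpow_of_exponent_le hX1 (by linarith)) X H Q r
    have h10 : (rgh A B C X H Q r ((X : ℝ) ^ (2 * ζ)) : ℝ) ≤ rgh A B C X H Q r ((X : ℝ) ^ (2 * (q : ℝ))) := by
      exact_mod_cast h9
    have hF0 : 0 ≤ F (τ / q) + e := by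
      have := hSF.F1 (τ / q) (by rw [le_div_iff₀ hq0]; linarith)
      linarith
    have hH0 : 0 ≤ WQ a H Q := WQ_nonneg a H Q
    have hd0 := dens_nonneg a ((X : ℝ) ^ (2 * ζ))
    calc (rgh A B C X H Q r ((X : ℝ) ^ (2 * ζ)) : ℝ) ≤
        (F (τ / q) + e) * (WQ a H Q * dens a ((X : ℝ) ^ (2 * (q : ℝ)))) := h10.trans h8
      _ ≤ (F (τ / q) + e) * (WQ a H Q * ((ζ / q + e) * dens a ((X : ℝ) ^ (2 * ζ)))) := by
          apply mul_le_mul_of_nonneg_left _ hF0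
          exact mul_le_mul_of_nonneg_left h6.1 hH0
      _ = (F (τ / q) + e) * (ζ / q + e) * (WQ a H Q * dens a ((X : ℝ) ^ (2 * ζ))) := by ring
      _ ≤ _ := mul_le_mul_of_nonneg_right he2 (by positivity)
  have hdn : ∃ δ : ℝ, 0 < δ ∧ ∀ᶠ X : ℕ in atTop, ∀ H : ℕ, (X : ℝ) ^ (1 - δ) ≤ H → (H : ℤ) + |B| ≤ X →
      ∀ (Q : ℕ) (r : ℤ), (Q : ℝ) ≤ (X : ℝ) ^ δ → Cl A B C Q r →
      (f s - ε) * (WQ a H Q * dens a ((X : ℝ) ^ (2 * ζ))) ≤ rgh A B C X H Q r ((X : ℝ) ^ (2 * ζ)) := by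
    by_cases hf0 : f s ≤ ε
    · refine ⟨1, one_pos, Eventually.of_forall fun X H _ _ Q r _ _ => ?_⟩
      have hd0 := dens_nonneg a ((X : ℝ) ^ (2 * ζ))
      have hH0 : 0 ≤ WQ a H Q := WQ_nonneg a H Q
      refine le_trans ?_ (Nat.cast_nonneg _)
      apply mul_nonpos_of_nonpos_of_nonneg (by linarith)
      positivity
    · push Not at hf0
      have h1 : ∀ᶠ x in 𝓝 ζ, f s - ε < f (τ / x) * (ζ / x) := by
        have h0 : f s - ε < f (τ / ζ) * (ζ / ζ) := by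
          rw [hsζ, div_self hζ0.ne', mul_one]
          linarith
        exact hcf.eventually (lt_mem_nhds h0)
      obtain ⟨r, hr, h2⟩ := Metric.eventually_nhds_iff.1 h1
      obtain ⟨q, hq1, hq2⟩ := exists_rat_btwn (show ζ < min (ζ + r) (τ / 2) from
        lt_min (by linarith) (by linarith))
      have hq0 : (0 : ℝ) < q := hζ0.trans hq1
      have hqr : (q : ℝ) < ζ + r := lt_of_lt_of_le hq2 (min_le_left _ _)
      have hqτ : (q : ℝ) < τ / 2 := lt_of_lt_of_le hq2 (min_le_right _ _)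
      have h3 := h2 (y := (q : ℝ)) (by rw [Real.dist_eq, abs_lt]; constructor <;> linarith)
      have hr0 : 0 < ζ / q := by positivity
      have hfq : 0 < f (τ / q) := by
        by_contra hc0
        push Not at hc0
        have : f (τ / q) * (ζ / q) ≤ 0 := mul_nonpos_of_nonpos_of_nonneg hc0 hr0.le
        linarith
      obtain ⟨e, he, he1, he2, he3⟩ := eps_dn _ _ _ hfq hr0 h3
      obtain ⟨δ, hδ, h4⟩ := lin_q kl A B C hA hadt hna A0 F f hSF τ (by linarith) q hq0 (by linarith) e he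
      refine ⟨δ, hδ, ?_⟩
      filter_upwards [h4, dens_ratio hna ζ q e hζ0 hq0 he, eventually_ge_atTop 1] with X h5 h6 h7
      intro H hH1 hH2 Q r hQ hcl
      have hX1 : (1 : ℝ) ≤ X := by exact_mod_cast h7
      have h8 := (h5 H hH1 hH2 Q r hQ hcl).1
      have h9 : rgh A B C X H Q r ((X : ℝ) ^ (2 * (q : ℝ))) ≤ rgh A B C X H Q r ((X : ℝ) ^ (2 * ζ)) :=
        rgh_anti A B C _ _ (Real.rpow_le_rpow_of_exponent_le hX1 (by linarith)) X H Q r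
      have h10 : (rgh A B C X H Q r ((X : ℝ) ^ (2 * (q : ℝ))) : ℝ) ≤ rgh A B C X H Q r ((X : ℝ) ^ (2 * ζ)) := by
        exact_mod_cast h9
      have hH0 : 0 ≤ WQ a H Q := WQ_nonneg a H Q
      have hd0 := dens_nonneg a ((X : ℝ) ^ (2 * ζ))
      calc (f s - ε) * (WQ a H Q * dens a ((X : ℝ) ^ (2 * ζ))) ≤
          (f (τ / q) - e) * (ζ / q - e) * (WQ a H Q * dens a ((X : ℝ) ^ (2 * ζ))) :=
            mul_le_mul_of_nonneg_right he3 (by positivity)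
        _ = (f (τ / q) - e) * (WQ a H Q * ((ζ / q - e) * dens a ((X : ℝ) ^ (2 * ζ)))) := by ring
        _ ≤ (f (τ / q) - e) * (WQ a H Q * dens a ((X : ℝ) ^ (2 * (q : ℝ)))) := by
            apply mul_le_mul_of_nonneg_left _ (by linarith)
            exact mul_le_mul_of_nonneg_left h6.2 hH0
        _ ≤ _ := h8.trans h10
  obtain ⟨δ1, hδ1, hU⟩ := hup
  obtain ⟨δ2, hδ2, hD⟩ := hdn
  refine ⟨min δ1 δ2, lt_min hδ1 hδ2, ?_⟩
  filter_upwards [hU, hD, eventually_ge_atTop 1] with X h1 h2 h3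
  intro H hH1 hH2 Q r hQ hcl
  have hX1 : (1 : ℝ) ≤ X := by exact_mod_cast h3
  exact ⟨h2 H ((Real.rpow_le_rpow_of_exponent_le hX1 (by linarith [min_le_right δ1 δ2])).trans hH1) hH2
      Q r (hQ.trans (Real.rpow_le_rpow_of_exponent_le hX1 (min_le_right _ _))) hcl,
    h1 H ((Real.rpow_le_rpow_of_exponent_le hX1 (by linarith [min_le_left δ1 δ2])).trans hH1) hH2
      Q r (hQ.trans (Real.rpow_le_rpow_of_exponent_le hX1 (min_le_left _ _))) hcl⟩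

/-- **the linear sieve for `n ^ 2 + a` in short intervals** -/
theorem lin_all (kl : S_KL) (A : ℕ) (B C : ℤ) (hA : 1 ≤ A) {a : ℤ} (hadt : a = dt A B C) (hna : ¬ IsSquare (-a)) (A0 : ℝ) (F f : ℝ → ℝ) (hSF : SF A0 F f) (θ s : ℝ) (hθ1 : 0 < θ)
    (hθ : θ < 13 / 12) (hs : 1 ≤ s) (ε : ℝ) (hε : 0 < ε) :
    ∃ δ : ℝ, 0 < δ ∧ ∀ᶠ X : ℕ in atTop, ∀ H : ℕ, (X : ℝ) ^ (1 - δ) ≤ H → (H : ℤ) + |B| ≤ X →
      ∀ (Q : ℕ) (r : ℤ), (Q : ℝ) ≤ (X : ℝ) ^ δ → Cl A B C Q r →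
      (f s - ε) * (WQ a H Q * dens a ((X : ℝ) ^ (θ / s))) ≤ rgh A B C X H Q r ((X : ℝ) ^ (θ / s)) ∧
      (rgh A B C X H Q r ((X : ℝ) ^ (θ / s)) : ℝ) ≤ (F s + ε) * (WQ a H Q * dens a ((X : ℝ) ^ (θ / s))) := by
  rcases lt_or_ge 2 s with h | h
  · exact lin_big kl A B C hA hadt hna A0 F f hSF θ s hθ1 hθ h ε hε
  · -- reduce to `s = 3`
    have hs0 : 0 < s := by linarith
    have h3 : F 3 * (3 / s) = F s := by
      rw [hSF.F3 3 (by norm_num) le_rfl, hSF.F3 s hs (by linarith)]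
      field_simp
    obtain ⟨e, he, he2⟩ := eps_up (F 3) (3 / s) (F s + ε) (by rw [h3]; linarith)
    obtain ⟨δ, hδ, h4⟩ := lin_big kl A B C hA hadt hna A0 F f hSF θ 3 hθ1 hθ (by norm_num) e he
    have hr := dens_ratio hna (θ / (2 * s)) (θ / 6) e (by positivity) (by positivity) he
    have e1 : θ / (2 * s) / (θ / 6) = 3 / s := by field_simp; norm_num
    have e2 : 2 * (θ / (2 * s)) = θ / s := by field_simp
    have e3 : 2 * (θ / 6) = θ / 3 := by ring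
    rw [e1, e2, e3] at hr
    refine ⟨δ, hδ, ?_⟩
    filter_upwards [h4, hr, eventually_ge_atTop 1] with X h5 h6 h7
    intro H hH1 hH2 Q r hQ hcl
    have hX1 : (1 : ℝ) ≤ X := by exact_mod_cast h7
    have hH0 : 0 ≤ WQ a H Q := WQ_nonneg a H Q
    have hd0 := dens_nonneg a ((X : ℝ) ^ (θ / s))
    constructor
    · rw [hSF.f2 s hs h]
      refine le_trans ?_ (Nat.cast_nonneg _)
      apply mul_nonpos_of_nonpos_of_nonneg (by linarith)
      positivity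
    · have h8 := (h5 H hH1 hH2 Q r hQ hcl).2
      have h9 : rgh A B C X H Q r ((X : ℝ) ^ (θ / s)) ≤ rgh A B C X H Q r ((X : ℝ) ^ (θ / 3)) :=
        rgh_anti A B C _ _ (Real.rpow_le_rpow_of_exponent_le hX1
          (div_le_div_of_nonneg_left (by linarith) hs0 (by linarith))) X H Q r
      have h10 : (rgh A B C X H Q r ((X : ℝ) ^ (θ / s)) : ℝ) ≤ rgh A B C X H Q r ((X : ℝ) ^ (θ / 3)) := by
        exact_mod_cast h9
      have hF0 : 0 ≤ F 3 + e := by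
        have := hSF.F1 3 (by norm_num)
        linarith
      calc (rgh A B C X H Q r ((X : ℝ) ^ (θ / s)) : ℝ) ≤
          (F 3 + e) * (WQ a H Q * dens a ((X : ℝ) ^ (θ / 3))) := h10.trans h8
        _ ≤ (F 3 + e) * (WQ a H Q * ((3 / s + e) * dens a ((X : ℝ) ^ (θ / s)))) := by
            apply mul_le_mul_of_nonneg_left _ hF0
            exact mul_le_mul_of_nonneg_left h6.1 hH0
        _ = (F 3 + e) * (3 / s + e) * (WQ a H Q * dens a ((X : ℝ) ^ (θ / s))) := by ring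
        _ ≤ _ := mul_le_mul_of_nonneg_right he2 (by positivity)

end Pool.Agent.H543.DP
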