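import Pool.Agent.H543.DP.Cst

/-!
# Quadratic polynomials in short intervals and classes: the results
-/

set_option autoImplicit false

namespace Pool.Agent.H543.DP

open Finset Filter Topology
open Pool.Agent.W23.DC
open Pool.Agent.Y882.JR (dens)
open Pool.Agent.Y882.PX (ro)
open Pool.Agent.Y882.SI
open Pool.Agent.Y346.PA (S_KL)
open Pool.Agent.H543.DG hiding rep_sum lin_q lin_big lin_all prime_rough prime_up rough_low rough_anti rough_nat

/-- the densities -/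
theorem Df_dens {A : ℕ} {B C : ℤ} {Q : ℕ} {r : ℤ} (h : Cl A B C Q r) (H : ℕ) (z : ℝ)
    (hz : (Q : ℝ) < z) :
    WQ (dt A B C) H Q * dens (dt A B C) z = (H : ℝ) / Q * Df A B C Q z := by
  have h1 : Df A B C Q z = ∏ p ∈ (range ⌈z⌉₊).filter Nat.Prime, (1 - gq (dt A B C) Q p) := by
    unfold Df
    rw [← filter_filter, prod_filter]
    apply prod_congr rfl
    intro p hp
    have hpp := (mem_filter.1 hp).2
    unfold gq
    by_cases hd : p ∣ Q
    · rw [if_neg (not_not.2 hd), if_neg, sub_zero]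
      rw [Nat.Prime.coprime_iff_not_dvd hpp]
      exact not_not.2 hd
    · rw [if_pos hd, if_pos ((Nat.Prime.coprime_iff_not_dvd hpp).2 hd), om_gd A B C p hpp]
      intro h2
      exact hd (h.rad p hpp h2)
  rw [h1, dens_out _ Q h.Q1 z hz]
  unfold WQ
  ring

/-- **the linear sieve in all classes** -/
theorem lin_f (kl : S_KL) (A : ℕ) (B C : ℤ) (hA : 1 ≤ A) (hna : ¬ IsSquare (-(dt A B C)))
    (A0 : ℝ) (F f : ℝ → ℝ) (hSF : SF A0 F f) (θ s : ℝ) (hθ1 : 0 < θ) (hθ : θ < 13 / 12)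
    (hs : 1 ≤ s) (ε : ℝ) (hε : 0 < ε) :
    ∃ δ : ℝ, 0 < δ ∧ ∀ᶠ X : ℕ in atTop, ∀ H : ℕ, (X : ℝ) ^ (1 - δ) ≤ H → (H : ℤ) + |B| ≤ X →
      ∀ (Q : ℕ) (r : ℤ), 1 ≤ Q → (Q : ℝ) ≤ (X : ℝ) ^ δ → IsCoprime (fv A B C r) Q →
      (f s - ε) * ((H : ℝ) / Q * Df A B C Q ((X : ℝ) ^ (θ / s))) ≤
        rgh A B C X H Q r ((X : ℝ) ^ (θ / s)) ∧
      (rgh A B C X H Q r ((X : ℝ) ^ (θ / s)) : ℝ) ≤
        (F s + ε) * ((H : ℝ) / Q * Df A B C Q ((X : ℝ) ^ (θ / s))) := by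
  obtain ⟨δ1, hδ1, h1⟩ := lin_all kl A B C hA (a := dt A B C) rfl hna A0 F f hSF θ s hθ1 hθ hs ε hε
  have hs0 : 0 < s := by linarith
  have hθs : 0 < θ / s := by positivity
  set δ2 : ℝ := min δ1 (θ / s / 2) with hδ2
  have hδ20 : 0 < δ2 := lt_min hδ1 (by linarith)
  refine ⟨δ2 / 2, by linarith, ?_⟩
  have ev1 : ∀ᶠ X : ℕ in atTop, (2 * A : ℝ) ≤ (X : ℝ) ^ (δ2 / 2) :=
    tendsto_natCast_atTop_atTop.eventually
      ((tendsto_rpow_atTop (by positivity)).eventually_ge_atTop _)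
  have ev2 : ∀ᶠ X : ℕ in atTop, (2 * A : ℝ) < (X : ℝ) ^ (θ / s) :=
    tendsto_natCast_atTop_atTop.eventually
      ((tendsto_rpow_atTop (by positivity)).eventually_gt_atTop _)
  filter_upwards [h1, ev1, ev2, eventually_ge_atTop 2] with X h2 e1 e2 hX2
  intro H hH1 hH2 Q r hQ1 hQ hc
  have hX2r : (2 : ℝ) ≤ X := by exact_mod_cast hX2
  have hX1r : (1 : ℝ) ≤ X := by linarith
  have hX0 : (0 : ℝ) < X := by linarith
  have hH1' : (X : ℝ) ^ (1 - δ1) ≤ H := by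
    refine le_trans ?_ hH1
    apply Real.rpow_le_rpow_of_exponent_le hX1r
    linarith [min_le_left δ1 (θ / s / 2)]
  apply class_ind A B C hA X H ((X : ℝ) ^ (θ / s)) (f s - ε) (F s + ε) ((X : ℝ) ^ δ2) _ _
    (So A Q).card Q r hQ1 hc rfl
  · have h3 : ((∏ p ∈ So A Q, p : ℕ) : ℝ) ≤ 2 * A := by
      have := So_prod A Q hA
      exact_mod_cast this
    calc (Q : ℝ) * ((∏ p ∈ So A Q, p : ℕ) : ℝ) ≤ (X : ℝ) ^ (δ2 / 2) * (X : ℝ) ^ (δ2 / 2) :=
          mul_le_mul hQ (h3.trans e1) (Nat.cast_nonneg _) (by positivity)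
      _ = (X : ℝ) ^ δ2 := by
          rw [← Real.rpow_add hX0]
          congr 1
          ring
  · intro p hp hpA
    have h3 : p ≤ 2 * A := Nat.le_of_dvd (by omega) hpA
    have h4 : (p : ℝ) ≤ 2 * A := by exact_mod_cast h3
    linarith
  · intro Q' r' hQ' hcl
    have hQz : (Q' : ℝ) < (X : ℝ) ^ (θ / s) := by
      refine lt_of_le_of_lt hQ' ?_
      apply Real.rpow_lt_rpow_of_exponent_lt (by linarith)
      linarith [min_le_right δ1 (θ / s / 2)]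
    have h3 := h2 H hH1' hH2 Q' r' (hQ'.trans
      (Real.rpow_le_rpow_of_exponent_le hX1r (min_le_left _ _))) hcl
    rw [Df_dens hcl H _ hQz] at h3
    exact h3

theorem Df_nonneg (A : ℕ) (B C : ℤ) (hom : ∀ p : ℕ, p.Prime → om A B C p < p) (Q : ℕ) (z : ℝ) :
    0 ≤ Df A B C Q z := by
  unfold Df
  apply prod_nonneg
  intro p hp
  have hpp := (mem_filter.1 hp).2.1
  have h1 : (om A B C p : ℝ) < p := by exact_mod_cast hom p hpp
  have h2 : (0 : ℝ) < p := by exact_mod_cast hpp.pos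
  rw [sub_nonneg, div_le_one h2]
  exact h1.le

/-- the factor of the class -/
noncomputable def kf (A : ℕ) (B C : ℤ) (Q : ℕ) : ℝ := ∏ p ∈ Q.primeFactors, (1 - (om A B C p : ℝ) / p)

theorem kf_pos (A : ℕ) (B C : ℤ) (hom : ∀ p : ℕ, p.Prime → om A B C p < p) (Q : ℕ) :
    0 < kf A B C Q ∧ kf A B C Q ≤ 1 := by
  unfold kf
  have h : ∀ p ∈ Q.primeFactors, 0 < 1 - (om A B C p : ℝ) / p ∧ 1 - (om A B C p : ℝ) / p ≤ 1 := by
    intro p hp
    have hpp := Nat.prime_of_mem_primeFactors hp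
    have h1 : (om A B C p : ℝ) < p := by exact_mod_cast hom p hpp
    have h2 : (0 : ℝ) < p := by exact_mod_cast hpp.pos
    have h3 : 0 ≤ (om A B C p : ℝ) / p := by positivity
    constructor
    · rw [sub_pos, div_lt_one h2]
      exact h1
    · linarith
  exact ⟨prod_pos fun p hp => (h p hp).1, prod_le_one (fun p hp => (h p hp).1.le) fun p hp => (h p hp).2⟩

theorem Df_one (A : ℕ) (B C : ℤ) (Q : ℕ) (hQ : 1 ≤ Q) (z : ℝ) (hz : (Q : ℝ) < z) :
    Df A B C 1 z = kf A B C Q * Df A B C Q z := by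
  unfold Df kf
  have h1 : (range ⌈z⌉₊).filter (fun p => p.Prime ∧ ¬ p ∣ 1) =
      Q.primeFactors ∪ (range ⌈z⌉₊).filter (fun p => p.Prime ∧ ¬ p ∣ Q) := by
    ext p
    rw [mem_union, mem_filter, mem_filter, mem_range, Nat.mem_primeFactors]
    constructor
    · rintro ⟨h1, h2, h3⟩
      by_cases hd : p ∣ Q
      · left
        exact ⟨h2, hd, by omega⟩
      · right
        exact ⟨h1, h2, hd⟩
    · rintro (⟨h1, h2, h3⟩ | ⟨h1, h2, h3⟩)
      · refine ⟨?_, h1, fun hd => h1.one_lt.ne' (Nat.dvd_one.1 hd)⟩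
        have h4 : p ≤ Q := Nat.le_of_dvd hQ h2
        have h5 : (p : ℝ) ≤ Q := by exact_mod_cast h4
        exact Nat.lt_ceil.2 (by linarith)
      · exact ⟨h1, h2, fun hd => h2.one_lt.ne' (Nat.dvd_one.1 hd)⟩
  rw [h1, prod_union]
  rw [disjoint_left]
  intro p hp hp2
  rw [mem_filter] at hp2
  exact hp2.2.2 (Nat.dvd_of_mem_primeFactors hp)

open Classical in
/-- the `n` of the class with prime value -/
noncomputable def prc (A : ℕ) (B C : ℤ) (X H Q : ℕ) (r : ℤ) : ℕ :=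
  ((NS X H Q r).filter (fun n : ℕ => Prime (fv A B C n))).card

/-- primes are rough -/
theorem prime_rgh (A : ℕ) (B C : ℤ) (hA : 1 ≤ A) (X H Q : ℕ) (r : ℤ)
    (hX : 4 * B.natAbs + 4 * C.natAbs + 4 ≤ X) (z : ℝ) (hz : z ≤ (X : ℝ) ^ 2 / 2) :
    prc A B C X H Q r ≤ rgh A B C X H Q r z := by
  classical
  unfold prc rgh
  refine card_le_card fun n hn => ?_
  have hn' := hn
  unfold NS at hn'
  rw [mem_filter, mem_filter, mem_Ioc] at hn'
  rw [mem_filter] at hn ⊢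
  refine ⟨hn.1, ?_⟩
  intro p hp hd
  have hpi : Prime (p : ℤ) := Nat.prime_iff_prime_int.1 hp
  have h12 : (p : ℤ).natAbs = (fv A B C n).natAbs :=
    Int.natAbs_eq_iff_associated.2 ((hpi.dvd_prime_iff_associated hn.2).1 hd)
  rw [Int.natAbs_natCast] at h12
  have h13 : (X : ℤ) < n := by exact_mod_cast hn'.1.1.1
  have hAi : (1 : ℤ) ≤ A := by exact_mod_cast hA
  have hB := neg_abs_le B
  have hC := neg_abs_le C
  have hB2 : |B| = (B.natAbs : ℤ) := Int.abs_eq_natAbs B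
  have hC2 : |C| = (C.natAbs : ℤ) := Int.abs_eq_natAbs C
  have hX' : 4 * |B| + 4 * |C| + 4 ≤ (X : ℤ) := by
    rw [hB2, hC2]
    exact_mod_cast hX
  have hB3 := abs_nonneg B
  have hC3 := abs_nonneg C
  have hX0 : (0 : ℤ) < X := by linarith
  have h14 : (X : ℤ) ^ 2 ≤ 2 * fv A B C n := by
    unfold fv
    have e1 : (n : ℤ) ^ 2 ≤ A * (n : ℤ) ^ 2 := by nlinarith [sq_nonneg (n : ℤ)]
    have e2 : -(|B| * n) ≤ B * n := by nlinarith
    have e3 : 4 * (|B| * n) ≤ n * n := by nlinarith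
    have e4 : 4 * |C| ≤ n * n := by nlinarith
    nlinarith
  have h15 : (X : ℤ) ^ 2 ≤ 2 * (p : ℤ) := by
    rw [h12]
    exact h14.trans (mul_le_mul_of_nonneg_left Int.le_natAbs (by norm_num))
  have h16 : (X : ℝ) ^ 2 ≤ 2 * (p : ℝ) := by exact_mod_cast h15
  linarith

/-- **prime values in classes and short intervals** -/
theorem prime_f (kl : S_KL) (A : ℕ) (B C : ℤ) (hA : 1 ≤ A) (hna : ¬ IsSquare (-(dt A B C)))
    (hg : Int.gcd (Int.gcd A B : ℤ) C = 1) (h2 : ¬ (Even ((A : ℤ) + B) ∧ Even C))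
    (A0 : ℝ) (F f : ℝ → ℝ) (hSF : SF A0 F f)
    (hA0 : A0 = 2 * Real.exp Real.eulerMascheroniConstant) (S : ℝ) (hS0 : 0 < S)
    (hS : Tendsto (cpr A B C) atTop (𝓝 S)) (ε : ℝ) (hε : 0 < ε) :
    ∃ δ : ℝ, 0 < δ ∧ ∀ᶠ X : ℕ in atTop, ∀ H : ℕ, (X : ℝ) ^ (1 - δ) ≤ H → (H : ℤ) + |B| ≤ X →
      ∀ (Q : ℕ) (r : ℤ), 1 ≤ Q → (Q : ℝ) ≤ (X : ℝ) ^ δ → IsCoprime (fv A B C r) Q →
      (prc A B C X H Q r : ℝ) ≤ (48 / 13 + ε) * (cfac A B * S) *
        ((H : ℝ) / (Q * kf A B C Q * Real.log X)) := by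
  obtain ⟨E, hE⟩ : ∃ E : ℝ, E = Real.exp (-Real.eulerMascheroniConstant) := ⟨_, rfl⟩
  have hE0 : 0 < E := by rw [hE]; exact Real.exp_pos _
  have hA00 := hSF.pos
  have hom := om_lt A B C hg h2
  have hAE : A0 * E = 2 := by
    rw [hA0, hE, mul_assoc, ← Real.exp_add]
    simp
  have hC := Df_lim A B C hA hg h2 S hS
  rw [← hE] at hC
  have hcf := cfac_pos A B
  obtain ⟨T, hT⟩ : ∃ T : ℝ, T = cfac A B * S := ⟨_, rfl⟩
  have hT0 : 0 < T := by rw [hT]; positivity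
  have e0 : 2 * cfac A B * S * E = 2 * T * E := by rw [hT]; ring
  rw [e0] at hC
  have hF1 : F 1 = A0 := by
    rw [hSF.F3 1 le_rfl (by norm_num), div_one]
  obtain ⟨e, he0, he1, he⟩ := eps_pr A0 (2 * T * E) (48 / 13 * T) (ε * T) (by positivity) (by
    have : A0 * (2 * T * E) * (12 / 13) = (A0 * E) * (2 * T) * (12 / 13) := by ring
    rw [this, hAE]
    ring)
  obtain ⟨θ, hθ⟩ : ∃ θ : ℝ, θ = 13 / 12 - e := ⟨_, rfl⟩
  rw [← hθ] at he
  have hθ0 : 0 < θ := by rw [hθ]; linarith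
  have hθ1 : 1 < θ := by rw [hθ]; linarith
  obtain ⟨δ, hδ, h4⟩ := lin_f kl A B C hA hna A0 F f hSF θ 1 hθ0 (by linarith) le_rfl e he0
  refine ⟨min δ 1, lt_min hδ one_pos, ?_⟩
  have ev2 : ∀ᶠ X : ℕ in atTop, Df A B C 1 ((X : ℝ) ^ θ) * Real.log ((X : ℝ) ^ θ) ≤ 2 * T * E + e := by
    have h1 : Tendsto (fun X : ℕ => ((X : ℝ) ^ θ)) atTop atTop :=
      (tendsto_rpow_atTop hθ0).comp tendsto_natCast_atTop_atTop
    exact (hC.comp h1).eventually (ge_mem_nhds (show 2 * T * E < 2 * T * E + e by linarith))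
  have ev3 : ∀ᶠ X : ℕ in atTop, (2 : ℝ) ≤ (X : ℝ) ^ (2 - θ) :=
    tendsto_natCast_atTop_atTop.eventually
      ((tendsto_rpow_atTop (by linarith)).eventually_ge_atTop _)
  filter_upwards [h4, ev2, ev3, eventually_ge_atTop 3,
    eventually_ge_atTop (4 * B.natAbs + 4 * C.natAbs + 4)] with X h5 h6 h6' h7 h7a
  intro H hH1 hH2 Q r hQ1 hQ hc
  have hXr : (3 : ℝ) ≤ X := by exact_mod_cast h7
  have hX0 : (0 : ℝ) < X := by linarith
  have hX1 : (1 : ℝ) ≤ X := by linarith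
  have hQ0 : (0 : ℝ) < Q := by exact_mod_cast hQ1
  have hlX : 0 < Real.log X := Real.log_pos (by linarith)
  have h8 := (h5 H ((Real.rpow_le_rpow_of_exponent_le hX1
    (by linarith [min_le_left δ (1 : ℝ)])).trans hH1) hH2 Q r hQ1
    (hQ.trans (Real.rpow_le_rpow_of_exponent_le hX1 (min_le_left _ _))) hc).2
  rw [div_one, hF1] at h8
  rw [Real.log_rpow hX0] at h6
  have hQz : (Q : ℝ) < (X : ℝ) ^ θ := by
    refine lt_of_le_of_lt hQ ?_
    apply Real.rpow_lt_rpow_of_exponent_lt (by linarith)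
    linarith [min_le_right δ (1 : ℝ)]
  have hk := (kf_pos A B C hom Q).1
  have hDf : Df A B C Q ((X : ℝ) ^ θ) = Df A B C 1 ((X : ℝ) ^ θ) / kf A B C Q := by
    rw [Df_one A B C Q hQ1 _ hQz]
    field_simp
  have hH0 : (0 : ℝ) ≤ H := Nat.cast_nonneg _
  have hzX : (X : ℝ) ^ θ ≤ (X : ℝ) ^ 2 / 2 := by
    rw [le_div_iff₀ (by norm_num)]
    calc (X : ℝ) ^ θ * 2 ≤ (X : ℝ) ^ θ * (X : ℝ) ^ (2 - θ) :=
          mul_le_mul_of_nonneg_left h6' (by positivity)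
      _ = (X : ℝ) ^ (2 : ℝ) := by
          rw [← Real.rpow_add hX0]
          congr 1
          ring
      _ = _ := Real.rpow_two _
  have h9 : (prc A B C X H Q r : ℝ) ≤ rgh A B C X H Q r ((X : ℝ) ^ θ) := by
    have h10 := prime_rgh A B C hA X H Q r h7a ((X : ℝ) ^ θ) hzX
    exact_mod_cast h10
  have h10 : Df A B C 1 ((X : ℝ) ^ θ) ≤ (2 * T * E + e) / (θ * Real.log X) := by
    rw [le_div_iff₀ (mul_pos hθ0 hlX)]
    exact h6
  have h11 : 0 ≤ A0 + e := by linarith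
  have h12 := h9.trans h8
  rw [hDf] at h12
  have h13 : (A0 + e) * ((H : ℝ) / Q * (Df A B C 1 ((X : ℝ) ^ θ) / kf A B C Q)) ≤
      (A0 + e) * ((H : ℝ) / Q * (((2 * T * E + e) / (θ * Real.log X)) / kf A B C Q)) := by
    apply mul_le_mul_of_nonneg_left _ h11
    apply mul_le_mul_of_nonneg_left _ (by positivity)
    exact div_le_div_of_nonneg_right h10 hk.le
  have h14 : (A0 + e) * ((H : ℝ) / Q * (((2 * T * E + e) / (θ * Real.log X)) / kf A B C Q)) =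
      ((A0 + e) * (2 * T * E + e)) / θ * ((H : ℝ) / (Q * kf A B C Q * Real.log X)) := by
    field_simp
  have h15 : ((A0 + e) * (2 * T * E + e)) / θ * ((H : ℝ) / (Q * kf A B C Q * Real.log X)) ≤
      (48 / 13 * T + ε * T) * ((H : ℝ) / (Q * kf A B C Q * Real.log X)) := by
    apply mul_le_mul_of_nonneg_right he
    positivity
  rw [h14] at h13
  refine (h12.trans h13).trans (h15.trans (le_of_eq ?_))
  rw [← hT]
  ring

open Classical in
/-- **values without small prime factors** -/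
theorem rgh_f (kl : S_KL) (A : ℕ) (B C : ℤ) (hA : 1 ≤ A) (hna : ¬ IsSquare (-(dt A B C)))
    (hg : Int.gcd (Int.gcd A B : ℤ) C = 1) (h2 : ¬ (Even ((A : ℤ) + B) ∧ Even C))
    (A0 : ℝ) (F f : ℝ → ℝ) (hSF : SF A0 F f) (S : ℝ) (hS0 : 0 < S)
    (hS : Tendsto (cpr A B C) atTop (𝓝 S)) (η : ℝ) (hη0 : 0 < η) (hη : η < 13 / 24) :
    ∃ δ : ℝ, 0 < δ ∧ ∃ c : ℝ, 0 < c ∧ ∀ᶠ X : ℕ in atTop, ∀ H : ℕ, (X : ℝ) ^ (1 - δ) ≤ H →
      (H : ℤ) + |B| ≤ X →
      ∀ (Q : ℕ) (r : ℤ), 1 ≤ Q → (Q : ℝ) ≤ (X : ℝ) ^ δ → IsCoprime (fv A B C r) Q →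
      c * ((H : ℝ) / (Q * Real.log X)) ≤ (((NS X H Q r).filter
        (fun n : ℕ => ∀ p : ℕ, p.Prime → (p : ℤ) ∣ fv A B C n → (n : ℝ) ^ η < p)).card : ℝ) := by
  have hom := om_lt A B C hg h2
  have hC := Df_lim A B C hA hg h2 S hS
  have hcf := cfac_pos A B
  obtain ⟨T, hT⟩ : ∃ T : ℝ, T = 2 * cfac A B * S * Real.exp (-Real.eulerMascheroniConstant) := ⟨_, rfl⟩
  have hT0 : 0 < T := by rw [hT]; positivity
  rw [← hT] at hC
  set η' : ℝ := (η + 13 / 24) / 2 with hη'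
  have h1 : η < η' := by rw [hη']; linarith
  have h2' : η' < 13 / 24 := by rw [hη']; linarith
  have hη'0 : 0 < η' := by linarith
  set θ : ℝ := (2 * η' + 13 / 12) / 2 with hθ
  have h3 : 2 * η' < θ := by rw [hθ]; linarith
  have h4 : θ < 13 / 12 := by rw [hθ]; linarith
  set s : ℝ := θ / η' with hs
  have hs2 : 2 < s := by rw [hs, lt_div_iff₀ hη'0]; exact h3
  have hθ0 : 0 < θ := by linarith
  have hθs : θ / s = η' := by rw [hs]; field_simp
  have hf := f_low hSF s hs2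
  obtain ⟨δ, hδ, h5⟩ := lin_f kl A B C hA hna A0 F f hSF θ s hθ0 h4 (by linarith) (f s / 2)
    (by positivity)
  rw [hθs] at h5
  refine ⟨min δ (η' / 2), lt_min hδ (by linarith), f s / 2 * (T / (2 * η')), by positivity, ?_⟩
  have ev2 : ∀ᶠ X : ℕ in atTop, T / 2 ≤ Df A B C 1 ((X : ℝ) ^ η') * Real.log ((X : ℝ) ^ η') := by
    have h1 : Tendsto (fun X : ℕ => ((X : ℝ) ^ η')) atTop atTop :=
      (tendsto_rpow_atTop hη'0).comp tendsto_natCast_atTop_atTop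
    exact (hC.comp h1).eventually (le_mem_nhds (show T / 2 < T by linarith))
  have ev3 : ∀ᶠ X : ℕ in atTop, (2 : ℝ) ^ η < (X : ℝ) ^ (η' - η) :=
    ((tendsto_rpow_atTop (by linarith)).comp tendsto_natCast_atTop_atTop).eventually_gt_atTop _
  filter_upwards [h5, ev2, ev3, eventually_ge_atTop 3] with X h6 h7 h8 h9
  intro H hH1 hH2 Q r hQ1 hQ hc
  have hXr : (3 : ℝ) ≤ X := by exact_mod_cast h9
  have hX0 : (0 : ℝ) < X := by linarith
  have hX1 : (1 : ℝ) ≤ X := by linarith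
  have hQ0 : (0 : ℝ) < Q := by exact_mod_cast hQ1
  have hlX : 0 < Real.log X := Real.log_pos (by linarith)
  have hH0 : (0 : ℝ) ≤ H := Nat.cast_nonneg _
  have hHX : H ≤ X := by
    have := abs_nonneg B
    omega
  have h10 := (h6 H ((Real.rpow_le_rpow_of_exponent_le hX1
    (by linarith [min_le_left δ (η' / 2)])).trans hH1) hH2 Q r hQ1
    (hQ.trans (Real.rpow_le_rpow_of_exponent_le hX1 (min_le_left _ _))) hc).1
  have hQz : (Q : ℝ) < (X : ℝ) ^ η' := by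
    refine lt_of_le_of_lt hQ ?_
    apply Real.rpow_lt_rpow_of_exponent_lt (by linarith)
    linarith [min_le_right δ (η' / 2)]
  have hk := kf_pos A B C hom Q
  have hDf : Df A B C 1 ((X : ℝ) ^ η') ≤ Df A B C Q ((X : ℝ) ^ η') := by
    rw [Df_one A B C Q hQ1 _ hQz]
    have := Df_nonneg A B C hom Q ((X : ℝ) ^ η')
    nlinarith [hk.2]
  have h11 : rgh A B C X H Q r ((X : ℝ) ^ η') ≤ ((NS X H Q r).filter
        (fun n : ℕ => ∀ p : ℕ, p.Prime → (p : ℤ) ∣ fv A B C n → (n : ℝ) ^ η < p)).card := by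
    unfold rgh
    apply card_le_card
    intro n hn
    have hn' := hn
    unfold NS at hn'
    rw [mem_filter, mem_filter, mem_Ioc] at hn'
    rw [mem_filter] at hn ⊢
    refine ⟨hn.1, ?_⟩
    intro p hp hd
    have h10 := hn.2 p hp hd
    refine lt_of_lt_of_le ?_ h10
    have h11 : (n : ℝ) ≤ 2 * X := by
      have : n ≤ 2 * X := by omega
      exact_mod_cast this
    calc (n : ℝ) ^ η ≤ (2 * X) ^ η := Real.rpow_le_rpow (Nat.cast_nonneg _) h11 hη0.le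
      _ = 2 ^ η * (X : ℝ) ^ η := Real.mul_rpow (by norm_num) hX0.le
      _ < (X : ℝ) ^ (η' - η) * (X : ℝ) ^ η := by gcongr
      _ = (X : ℝ) ^ η' := by rw [← Real.rpow_add hX0]; congr 1; ring
  have h11' : (rgh A B C X H Q r ((X : ℝ) ^ η') : ℝ) ≤ (((NS X H Q r).filter
        (fun n : ℕ => ∀ p : ℕ, p.Prime → (p : ℤ) ∣ fv A B C n → (n : ℝ) ^ η < p)).card : ℝ) := by
    exact_mod_cast h11
  refine le_trans ?_ h11'
  refine le_trans ?_ h10
  rw [Real.log_rpow hX0] at h7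
  have h12 : T / (2 * η') / Real.log X ≤ Df A B C Q ((X : ℝ) ^ η') := by
    refine le_trans ?_ hDf
    rw [div_div, div_le_iff₀ (by positivity)]
    linarith
  have h13 : f s - f s / 2 = f s / 2 := by ring
  rw [h13]
  calc f s / 2 * (T / (2 * η')) * ((H : ℝ) / (Q * Real.log X)) =
      f s / 2 * ((H : ℝ) / Q * (T / (2 * η') / Real.log X)) := by
        field_simp
    _ ≤ _ := by gcongr

open Classical in
/-- **values with at most two prime factors** -/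
theorem p2_f (kl : S_KL) (A : ℕ) (B C : ℤ) (hA : 1 ≤ A) (hna : ¬ IsSquare (-(dt A B C)))
    (hg : Int.gcd (Int.gcd A B : ℤ) C = 1) (h2 : ¬ (Even ((A : ℤ) + B) ∧ Even C)) :
    ∃ δ : ℝ, 0 < δ ∧ ∃ c : ℝ, 0 < c ∧ ∀ᶠ X : ℕ in atTop, ∀ H : ℕ, (X : ℝ) ^ (1 - δ) ≤ H →
      (H : ℤ) + |B| ≤ X →
      ∀ (Q : ℕ) (r : ℤ), 1 ≤ Q → (Q : ℝ) ≤ (X : ℝ) ^ δ → IsCoprime (fv A B C r) Q →
      c * ((H : ℝ) / (Q * Real.log X)) ≤
        (((NS X H Q r).filter (fun n : ℕ => (NV A B C n).primeFactorsList.length ≤ 2 ∧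
        ∀ p : ℕ, p.Prime → p ∣ NV A B C n → (n : ℝ) ^ (23 / 100 : ℝ) ≤ p)).card : ℝ) := by
  have hom := om_lt A B C hg h2
  obtain ⟨δ, c, hδ, hc, X0, h⟩ := p2_cl kl A B C hA (a := dt A B C) rfl hna
  have hAr : (1 : ℝ) ≤ A := by exact_mod_cast hA
  refine ⟨δ / 2, by linarith, c / (2 * A), by positivity, ?_⟩
  have ev1 : ∀ᶠ X : ℕ in atTop, (2 * A : ℝ) ≤ (X : ℝ) ^ (δ / 2) :=
    tendsto_natCast_atTop_atTop.eventually
      ((tendsto_rpow_atTop (by positivity)).eventually_ge_atTop _)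
  filter_upwards [eventually_ge_atTop X0, ev1, eventually_ge_atTop 2] with X hX e1 hX2
  intro H hH1 hH2 Q r hQ1 hQ hcp
  have hX2r : (2 : ℝ) ≤ X := by exact_mod_cast hX2
  have hX1r : (1 : ℝ) ≤ X := by linarith
  have hX0 : (0 : ℝ) < X := by linarith
  have hlX : 0 < Real.log X := Real.log_pos (by linarith)
  have hQ0 : (0 : ℝ) < Q := by exact_mod_cast hQ1
  obtain ⟨Q', r', hcl, hQQ, hrr, hle⟩ := class_ex A B C hA hom _ Q r hQ1 hcp rfl
  have h3 : Q' ≤ Q * (2 * A) := hle.trans (Nat.mul_le_mul_left _ (So_prod A Q hA))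
  have h3r : (Q' : ℝ) ≤ Q * (2 * A) := by exact_mod_cast h3
  have hQ'X : (Q' : ℝ) ≤ (X : ℝ) ^ δ := by
    calc (Q' : ℝ) ≤ Q * (2 * A) := h3r
      _ ≤ (X : ℝ) ^ (δ / 2) * (X : ℝ) ^ (δ / 2) := mul_le_mul hQ e1 (by positivity) (by positivity)
      _ = (X : ℝ) ^ δ := by
          rw [← Real.rpow_add hX0]
          congr 1
          ring
  have hH1' : (X : ℝ) ^ (1 - δ) ≤ H := by
    refine le_trans ?_ hH1
    apply Real.rpow_le_rpow_of_exponent_le hX1r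
    linarith
  have h4 := h X hX H hH1' hH2 Q' r' hQ'X hcl
  have hsub : NS X H Q' r' ⊆ NS X H Q r := by
    unfold NS
    intro n hn
    rw [mem_filter] at hn ⊢
    refine ⟨hn.1, ?_⟩
    have h5 : (Q : ℤ) ∣ (Q' : ℤ) := by exact_mod_cast hQQ
    have h6 : (n : ℤ) - r = ((n : ℤ) - r') + (r' - r) := by ring
    rw [h6]
    exact dvd_add (h5.trans hn.2) hrr
  have hcard := card_le_card (filter_subset_filter (fun n : ℕ =>
    (NV A B C n).primeFactorsList.length ≤ 2 ∧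
        ∀ p : ℕ, p.Prime → p ∣ NV A B C n → (n : ℝ) ^ (23 / 100 : ℝ) ≤ p) hsub)
  have hcard' : (((NS X H Q' r').filter (fun n : ℕ => (NV A B C n).primeFactorsList.length ≤ 2 ∧
        ∀ p : ℕ, p.Prime → p ∣ NV A B C n → (n : ℝ) ^ (23 / 100 : ℝ) ≤ p)).card : ℝ) ≤
      (((NS X H Q r).filter (fun n : ℕ => (NV A B C n).primeFactorsList.length ≤ 2 ∧
        ∀ p : ℕ, p.Prime → p ∣ NV A B C n → (n : ℝ) ^ (23 / 100 : ℝ) ≤ p)).card : ℝ) := by
    exact_mod_cast hcard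
  refine le_trans ?_ (h4.trans hcard')
  have hQ'0 : (0 : ℝ) < Q' := by exact_mod_cast hcl.Q1
  have hH0 : (0 : ℝ) ≤ H := Nat.cast_nonneg _
  have h7 : (H : ℝ) / (Q * (2 * A)) ≤ H / Q' := div_le_div_of_nonneg_left hH0 hQ'0 h3r
  calc c / (2 * A) * ((H : ℝ) / (Q * Real.log X)) = c * ((H : ℝ) / (Q * (2 * A)) / Real.log X) := by
        field_simp
    _ ≤ _ := by
        apply mul_le_mul_of_nonneg_left _ hc.le
        exact div_le_div_of_nonneg_right h7 hlX.le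

end Pool.Agent.H543.DP
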