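import Pool.Agent.H543.DP.BilF
import Pool.Graph.R_seed8.W366.DC.SFX
import Pool.Graph.R_seed8.Y445.JRB.Buch

/-!
# Quadratic polynomials: counts up to `N`
-/

set_option autoImplicit false

namespace Pool.Agent.H543.DP

open Finset Filter Topology
open Pool.Agent.Y346.PA (S_KL)

theorem to_half (b : ℤ) (P : ℕ → ℕ → Prop) (δ : ℝ)
    (h : ∀ᶠ X : ℕ in atTop, ∀ H : ℕ, (X : ℝ) ^ (1 - δ) ≤ H → (H : ℤ) + |b| ≤ X → P X H) :
    ∀ᶠ X : ℕ in atTop, ∀ H : ℕ, (X : ℝ) ^ (1 - δ) ≤ H → 2 * H ≤ X → P X H := by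
  filter_upwards [h, eventually_ge_atTop (2 * b.natAbs)] with X h1 h2
  intro H h3 h4
  apply h1 H h3
  have h5 : |b| = (b.natAbs : ℤ) := Int.abs_eq_natAbs b
  omega

/-- short intervals to long intervals -/
theorem up_ind (g : ℕ → ℕ) (hg : ∀ n, g n ≤ n) (c δ : ℝ) (hc : 0 < c) (hδ : 0 < δ)
    (h : ∀ᶠ X : ℕ in atTop, ∀ H : ℕ, (X : ℝ) ^ (1 - δ) ≤ H → 2 * H ≤ X →
      (g (X + H) : ℝ) ≤ g X + c * (H / Real.log X)) :
    ∃ M0 : ℕ, 2 ≤ M0 ∧ ∀ M : ℕ, M0 ≤ M → ∀ n : ℕ, (g n : ℝ) ≤ 2 * M + c * (n / Real.log M) := by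
  have ev : ∀ᶠ n : ℕ in atTop, (4 : ℝ) ≤ (n : ℝ) ^ δ :=
    tendsto_natCast_atTop_atTop.eventually ((tendsto_rpow_atTop hδ).eventually_ge_atTop _)
  obtain ⟨X0, hX0⟩ := eventually_atTop.1 (h.and ev)
  refine ⟨max X0 12, by omega, ?_⟩
  intro M hM n
  have hMX : X0 ≤ M := (le_max_left _ _).trans hM
  have hM12 : 12 ≤ M := (le_max_right _ _).trans hM
  have hMr : (12 : ℝ) ≤ M := by exact_mod_cast hM12
  have hlM : 0 < Real.log M := Real.log_pos (by linarith)
  induction n using Nat.strong_induction_on with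
  | _ n ih =>
    by_cases hn : n < 2 * M
    · have h1 : (g n : ℝ) ≤ n := by exact_mod_cast hg n
      have h2 : (n : ℝ) ≤ 2 * M := by exact_mod_cast hn.le
      have h3 : 0 ≤ c * (n / Real.log M) := by positivity
      linarith
    · push Not at hn
      obtain ⟨H, hH⟩ : ∃ H : ℕ, H = n / 3 := ⟨_, rfl⟩
      obtain ⟨X, hX⟩ : ∃ X : ℕ, X = n - H := ⟨_, rfl⟩
      have hXH : X + H = n := by omega
      have hXM : M ≤ X := by omega
      have h2H : 2 * H ≤ X := by omega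
      have hXn : X < n := by omega
      obtain ⟨h1, h2⟩ := hX0 X (by omega)
      have hXr : (12 : ℝ) ≤ X := by
        have : 12 ≤ X := by omega
        exact_mod_cast this
      have hX0' : (0 : ℝ) < X := by linarith
      have h3 : (X : ℝ) ^ (1 - δ) ≤ H := by
        have h4 : (X : ℝ) ^ (1 - δ) * 4 ≤ X := by
          calc (X : ℝ) ^ (1 - δ) * 4 ≤ (X : ℝ) ^ (1 - δ) * (X : ℝ) ^ δ :=
                mul_le_mul_of_nonneg_left h2 (by positivity)
            _ = X := by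
                rw [← Real.rpow_add hX0']
                simp
        have h5 : X ≤ 4 * H := by omega
        have h6 : (X : ℝ) ≤ 4 * H := by exact_mod_cast h5
        linarith
      have h4 := h1 H h3 h2H
      rw [hXH] at h4
      have h5 := ih X hXn
      have h6 : Real.log M ≤ Real.log X := by
        apply Real.log_le_log (by linarith)
        exact_mod_cast hXM
      have hH0 : (0 : ℝ) ≤ H := Nat.cast_nonneg _
      have h7 : (H : ℝ) / Real.log X ≤ H / Real.log M := div_le_div_of_nonneg_left hH0 hlM h6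
      have h8 : c * (H / Real.log X) ≤ c * (H / Real.log M) := mul_le_mul_of_nonneg_left h7 hc.le
      have h9 : (n : ℝ) = X + H := by
        rw [← hXH]
        push_cast
        rfl
      calc (g n : ℝ) ≤ 2 * M + c * (X / Real.log M) + c * (H / Real.log M) := by linarith
        _ = 2 * M + c * (n / Real.log M) := by
            rw [h9]
            ring

/-- the upper bound for the counts up to `N` -/
theorem up_lim (g : ℕ → ℕ) (hg : ∀ n, g n ≤ n) (c : ℝ) (hc : 0 < c)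
    (h : ∀ ε : ℝ, 0 < ε → ∃ δ : ℝ, 0 < δ ∧ ∀ᶠ X : ℕ in atTop, ∀ H : ℕ, (X : ℝ) ^ (1 - δ) ≤ H →
      2 * H ≤ X → (g (X + H) : ℝ) ≤ g X + (c + ε) * (H / Real.log X)) (ε : ℝ) (hε : 0 < ε) :
    ∀ᶠ N : ℕ in atTop, (g N : ℝ) ≤ (c + ε) * (N / Real.log N) := by
  obtain ⟨δ, hδ, h1⟩ := h (ε / 4) (by linarith)
  obtain ⟨M0, hM2, hM0⟩ := up_ind g hg (c + ε / 4) δ (by linarith) hδ h1
  -- the exponent
  obtain ⟨η, hη0, hη1, hη⟩ : ∃ η : ℝ, 0 < η ∧ η < 1 ∧ (c + ε / 4) / (1 - η) ≤ c + ε / 2 := by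
    refine ⟨ε / 4 / (c + ε / 2), by positivity, ?_, ?_⟩
    · rw [div_lt_one (by positivity)]
      linarith
    · have h2 : 0 < c + ε / 2 := by linarith
      have h3 : 1 - ε / 4 / (c + ε / 2) = (c + ε / 4) / (c + ε / 2) := by
        field_simp
        ring
      have h4 : 0 < c + ε / 4 := by linarith
      rw [h3, div_div_eq_mul_div, mul_comm, mul_div_assoc, div_self h4.ne', mul_one]
  have ev1 : ∀ᶠ N : ℕ in atTop, (M0 : ℝ) ≤ (N : ℝ) ^ (1 - η) :=
    tendsto_natCast_atTop_atTop.eventually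
      ((tendsto_rpow_atTop (by linarith)).eventually_ge_atTop _)
  have ev2 : ∀ᶠ N : ℕ in atTop, Real.log N ≤ ε / 8 * (N : ℝ) ^ η := by
    have h1 : Tendsto (fun x : ℝ => Real.log x / x ^ η) atTop (nhds 0) :=
      (isLittleO_log_rpow_atTop hη0).tendsto_div_nhds_zero
    have h2 := h1.eventually_le_const (show (0 : ℝ) < ε / 8 by positivity)
    have h3 := tendsto_natCast_atTop_atTop.eventually (h2.and (eventually_gt_atTop (0 : ℝ)))
    filter_upwards [h3] with X hX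
    obtain ⟨h4, h5⟩ := hX
    have h6 : (0 : ℝ) < (X : ℝ) ^ η := by positivity
    rw [div_le_iff₀ h6] at h4
    exact h4
  filter_upwards [ev1, ev2, eventually_ge_atTop 3] with N e1 e2 e3
  have hNr : (3 : ℝ) ≤ N := by exact_mod_cast e3
  have hN0 : (0 : ℝ) < N := by linarith
  have hlN : 0 < Real.log N := Real.log_pos (by linarith)
  obtain ⟨M, hM⟩ : ∃ M : ℕ, M = ⌈(N : ℝ) ^ (1 - η)⌉₊ := ⟨_, rfl⟩
  have hMge : (N : ℝ) ^ (1 - η) ≤ M := by rw [hM]; exact Nat.le_ceil _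
  have hMle : (M : ℝ) ≤ 2 * (N : ℝ) ^ (1 - η) := by
    have h2 : (1 : ℝ) ≤ (N : ℝ) ^ (1 - η) := Real.one_le_rpow (by linarith) (by linarith)
    rw [hM]
    have := (Nat.ceil_lt_add_one (show (0 : ℝ) ≤ (N : ℝ) ^ (1 - η) by positivity)).le
    linarith
  have hMM : M0 ≤ M := by
    have : (M0 : ℝ) ≤ M := e1.trans hMge
    exact_mod_cast this
  have h2 := hM0 M hMM N
  have hM0r : (2 : ℝ) ≤ M := by
    have : 2 ≤ M := hM2.trans hMM
    exact_mod_cast this
  have hlM : (1 - η) * Real.log N ≤ Real.log M := by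
    rw [← Real.log_rpow hN0]
    exact Real.log_le_log (by positivity) hMge
  have h3 : (0 : ℝ) < (1 - η) * Real.log N := mul_pos (by linarith) hlN
  have h4 : (N : ℝ) / Real.log M ≤ N / ((1 - η) * Real.log N) :=
    div_le_div_of_nonneg_left hN0.le h3 hlM
  have h5 : (c + ε / 4) * (N / Real.log M) ≤ (c + ε / 2) * (N / Real.log N) := by
    calc (c + ε / 4) * (N / Real.log M) ≤ (c + ε / 4) * (N / ((1 - η) * Real.log N)) :=
          mul_le_mul_of_nonneg_left h4 (by linarith)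
      _ = (c + ε / 4) / (1 - η) * (N / Real.log N) := by
          have : (1 - η) ≠ 0 := by linarith
          field_simp
      _ ≤ _ := mul_le_mul_of_nonneg_right hη (by positivity)
  have h6 : 2 * (M : ℝ) ≤ ε / 2 * (N / Real.log N) := by
    have h7 : 4 * (N : ℝ) ^ (1 - η) * Real.log N ≤ ε / 2 * N := by
      calc 4 * (N : ℝ) ^ (1 - η) * Real.log N ≤ 4 * (N : ℝ) ^ (1 - η) * (ε / 8 * (N : ℝ) ^ η) :=
            mul_le_mul_of_nonneg_left e2 (by positivity)
        _ = ε / 2 * ((N : ℝ) ^ (1 - η) * (N : ℝ) ^ η) := by ring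
        _ = ε / 2 * N := by
            rw [← Real.rpow_add hN0]
            simp
    have h8 : 4 * (N : ℝ) ^ (1 - η) ≤ ε / 2 * (N / Real.log N) := by
      rw [← mul_div_assoc, le_div_iff₀ hlN]
      exact h7
    linarith
  calc (g N : ℝ) ≤ ε / 2 * (N / Real.log N) + (c + ε / 2) * (N / Real.log N) := by linarith
    _ = _ := by ring

/-- the number of the `n ≤ N` with prime value -/
noncomputable def pcN (A : ℕ) (B C : ℤ) (N : ℕ) : ℕ := by
  classical
  exact ((Icc 1 N).filter (fun n : ℕ => Prime (fv A B C n))).card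

theorem pcN_add (A : ℕ) (B C : ℤ) (X H : ℕ) :
    pcN A B C (X + H) = pcN A B C X + prc A B C X H 1 0 := by
  classical
  unfold pcN prc NS
  have h1 : Icc 1 (X + H) = Icc 1 X ∪ Ioc X (X + H) := by
    ext n
    rw [mem_union, mem_Icc, mem_Icc, mem_Ioc]
    omega
  have h2 : (Ioc X (X + H)).filter (fun n : ℕ => ((1 : ℕ) : ℤ) ∣ (n : ℤ) - 0) = Ioc X (X + H) := by
    apply filter_true_of_mem
    intro n _
    simp
  rw [h2, h1, filter_union, card_union_of_disjoint]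
  apply disjoint_filter_filter
  rw [disjoint_left]
  intro n hn hn2
  rw [mem_Icc] at hn
  rw [mem_Ioc] at hn2
  omega

/-- **the number of the primes** `f n`, `n ≤ N` -/
theorem pcN_up (kl : S_KL) (A : ℕ) (B C : ℤ) (hA : 1 ≤ A) (hna : ¬ IsSquare (-(dt A B C)))
    (hg : Int.gcd (Int.gcd A B : ℤ) C = 1) (h2 : ¬ (Even ((A : ℤ) + B) ∧ Even C))
    (S : ℝ) (hS0 : 0 < S) (hS : Tendsto (cpr A B C) atTop (𝓝 S)) (ε : ℝ) (hε : 0 < ε) :
    ∀ᶠ N : ℕ in atTop, (pcN A B C N : ℝ) ≤ (48 / 13 + ε) * (cfac A B * S) * (N / Real.log N) := by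
  obtain ⟨A0, F, f, hSF⟩ := Pool.Agent.W366.DC.SFX
  have hA0 : A0 = 2 * Real.exp Real.eulerMascheroniConstant :=
    Pool.Agent.Y882.JR.A0_eq Pool.Agent.Y445.JRB.t hSF
  have hT : 0 < cfac A B * S := mul_pos (cfac_pos A B) hS0
  have h3 := up_lim (pcN A B C) (fun n => by
    unfold pcN
    refine (card_le_card (filter_subset _ _)).trans ?_
    rw [Nat.card_Icc, Nat.add_sub_cancel]) (48 / 13 * (cfac A B * S)) (by positivity) (by
    intro e he
    obtain ⟨δ, hδ, h4⟩ := prime_f kl A B C hA hna hg h2 A0 F f hSF hA0 S hS0 hS (e / (cfac A B * S))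
      (by positivity)
    refine ⟨δ, hδ, ?_⟩
    have h5 := to_half B _ δ h4
    filter_upwards [h5, eventually_ge_atTop 1] with X h6 h7
    intro H hH1 hH2
    have hX1 : (1 : ℝ) ≤ X := by exact_mod_cast h7
    have h8 := h6 H hH1 hH2 1 0 le_rfl (by
      push_cast
      exact Real.one_le_rpow hX1 hδ.le) (by push_cast; exact isCoprime_one_right)
    rw [pcN_add]
    push_cast
    have h9 : kf A B C 1 = 1 := by
      unfold kf
      simp
    rw [h9] at h8
    have h10 : (48 / 13 + e / (cfac A B * S)) * (cfac A B * S) = 48 / 13 * (cfac A B * S) + e := by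
      rw [add_mul, div_mul_cancel₀ _ hT.ne']
    rw [h10] at h8
    push_cast at h8
    rw [one_mul, one_mul] at h8
    linarith) (ε * (cfac A B * S)) (by positivity)
  filter_upwards [h3] with N h4
  refine h4.trans (le_of_eq ?_)
  ring

open Classical in
/-- the values with at most two prime factors up to `N` -/
theorem p2N_low (kl : S_KL) (A : ℕ) (B C : ℤ) (hA : 1 ≤ A) (hna : ¬ IsSquare (-(dt A B C)))
    (hg : Int.gcd (Int.gcd A B : ℤ) C = 1) (h2 : ¬ (Even ((A : ℤ) + B) ∧ Even C)) :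
    ∃ κ : ℝ, 0 < κ ∧ ∀ᶠ N : ℕ in atTop, κ * (N / Real.log N) ≤
      (((Icc 1 N).filter (fun n : ℕ => (NV A B C n).primeFactorsList.length ≤ 2 ∧
        ∀ p : ℕ, p.Prime → p ∣ NV A B C n → (n : ℝ) ^ (23 / 100 : ℝ) ≤ p)).card : ℝ) := by
  obtain ⟨δ, hδ, κ, hκ, h5⟩ := p2_f kl A B C hA hna hg h2
  have h6 := to_half B _ δ h5
  have ev : ∀ᶠ n : ℕ in atTop, (4 : ℝ) ≤ (n : ℝ) ^ δ :=
    tendsto_natCast_atTop_atTop.eventually ((tendsto_rpow_atTop hδ).eventually_ge_atTop _)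
  obtain ⟨X0, hX0⟩ := eventually_atTop.1 (h6.and ev)
  refine ⟨κ / 4, by positivity, ?_⟩
  filter_upwards [eventually_ge_atTop (2 * X0 + 12)] with N hN
  obtain ⟨H, hH⟩ : ∃ H : ℕ, H = N / 3 := ⟨_, rfl⟩
  obtain ⟨X, hX⟩ : ∃ X : ℕ, X = N - H := ⟨_, rfl⟩
  have hXH : X + H = N := by omega
  have h2H : 2 * H ≤ X := by omega
  obtain ⟨h1, h3⟩ := hX0 X (by omega)
  have hXr : (8 : ℝ) ≤ X := by
    have : 8 ≤ X := by omega
    exact_mod_cast this
  have hX0' : (0 : ℝ) < X := by linarith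
  have hH1 : (X : ℝ) ^ (1 - δ) ≤ H := by
    have h4 : (X : ℝ) ^ (1 - δ) * 4 ≤ X := by
      calc (X : ℝ) ^ (1 - δ) * 4 ≤ (X : ℝ) ^ (1 - δ) * (X : ℝ) ^ δ :=
            mul_le_mul_of_nonneg_left h3 (by positivity)
        _ = X := by
            rw [← Real.rpow_add hX0']
            simp
    have h5 : X ≤ 4 * H := by omega
    have h6 : (X : ℝ) ≤ 4 * H := by exact_mod_cast h5
    linarith
  have h8 := h1 H hH1 h2H 1 0 le_rfl (by
    push_cast
    exact Real.one_le_rpow (by linarith) hδ.le) (by push_cast; exact isCoprime_one_right)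
  have hsub : NS X H 1 0 ⊆ Icc 1 N := by
    unfold NS
    intro n hn
    rw [mem_filter, mem_Ioc] at hn
    rw [mem_Icc]
    omega
  have hcard := card_le_card (filter_subset_filter (fun n : ℕ =>
    (NV A B C n).primeFactorsList.length ≤ 2 ∧
        ∀ p : ℕ, p.Prime → p ∣ NV A B C n → (n : ℝ) ^ (23 / 100 : ℝ) ≤ p) hsub)
  have hcard' : (((NS X H 1 0).filter (fun n : ℕ => (NV A B C n).primeFactorsList.length ≤ 2 ∧
        ∀ p : ℕ, p.Prime → p ∣ NV A B C n → (n : ℝ) ^ (23 / 100 : ℝ) ≤ p)).card : ℝ) ≤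
      (((Icc 1 N).filter (fun n : ℕ => (NV A B C n).primeFactorsList.length ≤ 2 ∧
        ∀ p : ℕ, p.Prime → p ∣ NV A B C n → (n : ℝ) ^ (23 / 100 : ℝ) ≤ p)).card : ℝ) := by
    exact_mod_cast hcard
  refine le_trans ?_ (h8.trans hcard')
  have hlX : 0 < Real.log X := Real.log_pos (by linarith)
  have hXN : (X : ℝ) ≤ N := by
    have : X ≤ N := by omega
    exact_mod_cast this
  have hlXN : Real.log X ≤ Real.log N := Real.log_le_log hX0' hXN
  have h9 : N ≤ 4 * H := by omega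
  have h10 : (N : ℝ) ≤ 4 * H := by exact_mod_cast h9
  push_cast
  rw [one_mul]
  calc κ / 4 * (N / Real.log N) ≤ κ / 4 * (4 * H / Real.log X) := by
        apply mul_le_mul_of_nonneg_left _ (by positivity)
        exact div_le_div₀ (by positivity) h10 hlX hlXN
    _ = κ * (H / Real.log X) := by ring

end Pool.Agent.H543.DP
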