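import Pool.Agent.H543.DP.Lim

/-!
# Quadratic polynomials: the least almost prime value of a class
-/

set_option autoImplicit false

namespace Pool.Agent.H543.DP

open Finset Filter Topology
open Pool.Agent.Y346.PA (S_KL)

open Classical in
/-- **the least value with at most two prime factors in a class** -/
theorem least_f (kl : S_KL) (A : ℕ) (b c : ℤ) (hA : 1 ≤ A) (hna : ¬ IsSquare (-(dt A b c)))
    (hg : Int.gcd (Int.gcd A b : ℤ) c = 1) (ho : ¬ (Even ((A : ℤ) + b) ∧ Even c)) :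
    ∃ L K : ℝ, ∀ (Q : ℕ) (r : ℤ), 1 ≤ Q → IsCoprime (fv A b c r) Q →
      ∃ n : ℕ, (n : ℝ) ≤ K * (Q : ℝ) ^ L ∧ (Q : ℤ) ∣ (n : ℤ) - r ∧ 1 < fv A b c n ∧
        (NV A b c n).primeFactorsList.length ≤ 2 := by
  obtain ⟨δ, hδ, κ, hκ, h5⟩ := p2_f kl A b c hA hna hg ho
  have h6 := to_half b _ δ h5
  have ev1 : ∀ᶠ X : ℕ in atTop, (3 : ℝ) ≤ (X : ℝ) ^ δ :=
    tendsto_natCast_atTop_atTop.eventually
      ((tendsto_rpow_atTop hδ).eventually_ge_atTop _)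
  obtain ⟨X0, hX0⟩ := eventually_atTop.1 (h6.and (ev1.and
    (eventually_ge_atTop (4 * b.natAbs + 4 * c.natAbs + 4))))
  refine ⟨1 / δ, 2 * (X0 + 2), ?_⟩
  intro Q r hQ hc
  have hQ1 : (1 : ℝ) ≤ Q := by exact_mod_cast hQ
  have hQL : (1 : ℝ) ≤ (Q : ℝ) ^ (1 / δ) := Real.one_le_rpow hQ1 (by positivity)
  obtain ⟨X, hX⟩ : ∃ X : ℕ, X = X0 + ⌈(Q : ℝ) ^ (1 / δ)⌉₊ := ⟨_, rfl⟩
  have hXle : (X : ℝ) ≤ X0 + ((Q : ℝ) ^ (1 / δ) + 1) := by
    rw [hX]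
    push_cast
    have := (Nat.ceil_lt_add_one (show (0 : ℝ) ≤ (Q : ℝ) ^ (1 / δ) by positivity)).le
    linarith
  have hXge : (Q : ℝ) ^ (1 / δ) ≤ X := by
    rw [hX]
    push_cast
    have h1 := Nat.le_ceil ((Q : ℝ) ^ (1 / δ))
    have h2 : (0 : ℝ) ≤ X0 := Nat.cast_nonneg _
    linarith
  obtain ⟨h7, h8, h9⟩ := hX0 X (by omega)
  have hX4 : 4 ≤ X := by omega
  have hX4r : (4 : ℝ) ≤ X := by exact_mod_cast hX4
  have hXp : (0 : ℝ) < X := by linarith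
  have hQX : (Q : ℝ) ≤ (X : ℝ) ^ δ := by
    calc (Q : ℝ) = ((Q : ℝ) ^ (1 / δ)) ^ δ := by
          rw [← Real.rpow_mul (by linarith), one_div_mul_cancel hδ.ne', Real.rpow_one]
      _ ≤ (X : ℝ) ^ δ := Real.rpow_le_rpow (by positivity) hXge hδ.le
  have hHX : (X : ℝ) ^ (1 - δ) ≤ ((X / 2 : ℕ) : ℝ) := by
    have h1 : X ≤ 2 * (X / 2) + 1 := by omega
    have h2 : (X : ℝ) ≤ 2 * ((X / 2 : ℕ) : ℝ) + 1 := by exact_mod_cast h1
    have h3 : (X : ℝ) ^ (1 - δ) * 3 ≤ X := by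
      calc (X : ℝ) ^ (1 - δ) * 3 ≤ (X : ℝ) ^ (1 - δ) * (X : ℝ) ^ δ :=
            mul_le_mul_of_nonneg_left h8 (by positivity)
        _ = X := by
            rw [← Real.rpow_add hXp]
            simp
    linarith
  have h10 := h7 (X / 2) hHX (by omega) Q r hQ hQX hc
  have hlX : 0 < Real.log X := Real.log_pos (by linarith)
  have hH0 : (0 : ℝ) < ((X / 2 : ℕ) : ℝ) := by
    have : 0 < X / 2 := by omega
    exact_mod_cast this
  have h11 : 0 < κ * (((X / 2 : ℕ) : ℝ) / (Q * Real.log X)) := by positivity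
  have h12 := lt_of_lt_of_le h11 h10
  have h13 : 0 < ((NS X (X / 2) Q r).filter (fun n : ℕ =>
      (NV A b c n).primeFactorsList.length ≤ 2 ∧
      ∀ p : ℕ, p.Prime → p ∣ NV A b c n →
        (n : ℝ) ^ (23 / 100 : ℝ) ≤ p)).card := by
    exact_mod_cast h12
  obtain ⟨n, hn⟩ := card_pos.1 h13
  rw [mem_filter] at hn
  obtain ⟨hn1, hn2, -⟩ := hn
  unfold NS at hn1
  rw [mem_filter, mem_Ioc] at hn1
  obtain ⟨⟨hn3, hn4⟩, hn5⟩ := hn1
  refine ⟨n, ?_, hn5, ?_, hn2⟩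
  · have h14 : n ≤ 2 * X := by omega
    have h15 : (n : ℝ) ≤ 2 * X := by exact_mod_cast h14
    have h16 : (0 : ℝ) ≤ X0 := Nat.cast_nonneg _
    calc (n : ℝ) ≤ 2 * (X0 + ((Q : ℝ) ^ (1 / δ) + 1)) := by linarith
      _ ≤ 2 * (X0 + 2) * (Q : ℝ) ^ (1 / δ) := by nlinarith
  · have h17 : (X : ℤ) < n := by exact_mod_cast hn3
    have hAi : (1 : ℤ) ≤ A := by exact_mod_cast hA
    have hB := neg_abs_le b
    have hC := neg_abs_le c
    have hB2 : |b| = (b.natAbs : ℤ) := Int.abs_eq_natAbs b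
    have hC2 : |c| = (c.natAbs : ℤ) := Int.abs_eq_natAbs c
    have hX' : 4 * |b| + 4 * |c| + 4 ≤ (X : ℤ) := by
      rw [hB2, hC2]
      exact_mod_cast h9
    have hB3 := abs_nonneg b
    have hC3 := abs_nonneg c
    unfold fv
    have e1 : (n : ℤ) ^ 2 ≤ A * (n : ℤ) ^ 2 := by nlinarith [sq_nonneg (n : ℤ)]
    have e2 : -(|b| * n) ≤ b * n := by nlinarith
    have e3 : 4 * (|b| * n) ≤ n * n := by nlinarith
    have e4 : 4 * |c| ≤ n * n := by nlinarith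
    have e5 : (16 : ℤ) ≤ n * n := by nlinarith
    have e6 : (0 : ℤ) ≤ |b| * n := by positivity
    show 1 < (A : ℤ) * (n : ℤ) ^ 2 + b * n + c
    nlinarith

end Pool.Agent.H543.DP
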