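import Pool.Agent.H543.DP.Dec

/-!
# Quadratic polynomials in residue classes
-/

set_option autoImplicit false

namespace Pool.Agent.H543.DP

open Finset
open Pool.Agent.H543.DG hiding rep_sum
open scoped Classical

/-- the value of the polynomial -/
def fv (A : ℕ) (B C : ℤ) (n : ℤ) : ℤ := A * n ^ 2 + B * n + C

/-- its absolute value -/
def NV (A : ℕ) (B C : ℤ) (n : ℕ) : ℕ := (fv A B C n).natAbs

/-- the determinant -/
def dt (A : ℕ) (B C : ℤ) : ℤ := 4 * A * C - B ^ 2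

/-- the class `r` modulo `Q`: the values are prime to `Q`, and `Q` contains the primes of `2 A` -/
structure Cl (A : ℕ) (B C : ℤ) (Q : ℕ) (r : ℤ) : Prop where
  A1 : 1 ≤ A
  Q1 : 1 ≤ Q
  cop : IsCoprime (fv A B C r) Q
  rad : ∀ p : ℕ, p.Prime → p ∣ 2 * A → p ∣ Q

/-- the `n` of the class -/
noncomputable def NS (X H Q : ℕ) (r : ℤ) : Finset ℕ :=
  (Ioc X (X + H)).filter (fun n : ℕ => (Q : ℤ) ∣ (n : ℤ) - r)

/-- the number of the `n` of the class with `d ∣ f n` -/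
noncomputable def cF (A : ℕ) (B C : ℤ) (X H Q : ℕ) (r : ℤ) (d : ℕ) : ℝ :=
  (((NS X H Q r).filter (fun n => d ∣ NV A B C n)).card : ℝ)

/-- the density of the class -/
noncomputable def gq (a : ℤ) (Q : ℕ) (d : ℕ) : ℝ := if Nat.Coprime d Q then gd a d else 0

theorem gq_nonneg (a : ℤ) (Q d : ℕ) : 0 ≤ gq a Q d := by
  unfold gq
  split_ifs
  · exact gd_nonneg a d
  · exact le_rfl

theorem gq_le (a : ℤ) (Q d : ℕ) : gq a Q d ≤ gd a d := by
  unfold gq
  split_ifs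
  · exact le_rfl
  · exact gd_nonneg a d

theorem dvd_NV (A : ℕ) (B C : ℤ) (n d : ℕ) : d ∣ NV A B C n ↔ (d : ℤ) ∣ fv A B C n := by
  unfold NV
  exact Int.natCast_dvd.symm

theorem four_fv (A : ℕ) (B C n : ℤ) : (2 * A * n + B) ^ 2 + dt A B C = 4 * A * fv A B C n := by
  unfold dt fv
  ring

/-- values in a class -/
theorem fv_cls (A : ℕ) (B C n r m : ℤ) (h : m ∣ n - r) : m ∣ fv A B C n - fv A B C r := by
  have : fv A B C n - fv A B C r = (n - r) * (A * (n + r) + B) := by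
    unfold fv
    ring
  rw [this]
  exact h.mul_right _

theorem cop4 {A : ℕ} {B C : ℤ} {Q : ℕ} {r : ℤ} (h : Cl A B C Q r) (d : ℕ) (hd : Nat.Coprime d Q) :
    Nat.Coprime d (4 * A) := by
  rw [Nat.coprime_iff_gcd_eq_one]
  by_contra hne
  obtain ⟨p, hp, hpd⟩ := Nat.exists_prime_and_dvd hne
  have h1 : p ∣ d := hpd.trans (Nat.gcd_dvd_left _ _)
  have h2 : p ∣ 4 * A := hpd.trans (Nat.gcd_dvd_right _ _)
  have h3 : p ∣ 2 * A := by
    have : p ∣ 2 * (2 * A) := by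
      rw [show 2 * (2 * A) = 4 * A by ring]
      exact h2
    rcases hp.dvd_mul.1 this with h4 | h4
    · exact h4.mul_right _
    · exact h4
  have h4 := h.rad p hp h3
  have h5 : p ∣ Nat.gcd d Q := Nat.dvd_gcd h1 h4
  rw [hd] at h5
  exact hp.one_lt.ne' (Nat.dvd_one.1 h5)

theorem cF_zero {A : ℕ} {B C : ℤ} {Q : ℕ} {r : ℤ} (h : Cl A B C Q r) (X H d : ℕ)
    (hd : ¬ Nat.Coprime d Q) : cF A B C X H Q r d = 0 := by
  unfold cF
  rw [Nat.cast_eq_zero, card_eq_zero, eq_empty_iff_forall_notMem]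
  intro n hn
  unfold NS at hn
  rw [mem_filter, mem_filter] at hn
  obtain ⟨⟨-, h1⟩, h2⟩ := hn
  apply hd
  rw [Nat.coprime_iff_gcd_eq_one]
  by_contra hne
  obtain ⟨p, hp, hpd⟩ := Nat.exists_prime_and_dvd hne
  have h3 : p ∣ d := hpd.trans (Nat.gcd_dvd_left _ _)
  have h4 : p ∣ Q := hpd.trans (Nat.gcd_dvd_right _ _)
  have h4' : (p : ℤ) ∣ (Q : ℤ) := by exact_mod_cast h4
  have h5 : (p : ℤ) ∣ fv A B C n := (dvd_NV A B C n p).1 (h3.trans h2)
  have h6 : (p : ℤ) ∣ fv A B C n - fv A B C r := fv_cls A B C n r p (h4'.trans h1)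
  have h7 : (p : ℤ) ∣ fv A B C r := (dvd_sub_right h5).1 h6
  have h8 := h.cop.isUnit_of_dvd' h7 h4'
  rw [Int.isUnit_iff] at h8
  rcases h8 with h8 | h8
  · have := hp.one_lt
    omega
  · have := hp.one_lt
    omega

/-- the counts as counts for `k ^ 2 + a` -/
theorem cF_eq {A : ℕ} {B C : ℤ} {Q : ℕ} {r : ℤ} (h : Cl A B C Q r) (X H d : ℕ)
    (hX : 0 ≤ 2 * (A : ℤ) * X + B) (hd : Nat.Coprime d Q) :
    cF A B C X H Q r d = cIq (dt A B C) (2 * (A : ℤ) * X + B).toNat (2 * A * H) (2 * A * Q)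
      (2 * A * r + B) d := by
  have hA : (0 : ℤ) < A := by exact_mod_cast h.A1
  have hc : IsCoprime (d : ℤ) (4 * (A : ℤ)) := by
    have := cop4 h d hd
    have h2 := Nat.isCoprime_iff_coprime.2 this
    push_cast at h2
    exact h2
  have hX' : (((2 * (A : ℤ) * X + B).toNat : ℕ) : ℤ) = 2 * A * X + B := Int.toNat_of_nonneg hX
  unfold cF cIq
  congr 1
  rw [hX']
  apply card_bij (fun (n : ℕ) _ => 2 * (A : ℤ) * n + B)
  · intro n hn
    unfold NS at hn
    rw [mem_filter, mem_filter, mem_Ioc, dvd_NV] at hn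
    obtain ⟨⟨⟨h1, h2⟩, h3⟩, h4⟩ := hn
    rw [mem_filter, mem_Ioc, four_fv]
    have h1' : (X : ℤ) < n := by exact_mod_cast h1
    have h2' : (n : ℤ) ≤ X + H := by exact_mod_cast h2
    refine ⟨⟨?_, ?_⟩, h4.mul_left _, ?_⟩
    · nlinarith
    · push_cast
      nlinarith
    · have : 2 * (A : ℤ) * n + B - (2 * A * r + B) = 2 * A * (n - r) := by ring
      rw [this]
      exact mul_dvd_mul_left _ h3
  · intro n _ n' _ he
    have h1 : 2 * (A : ℤ) * n = 2 * A * n' := by linarith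
    have h2 : (n : ℤ) = n' := mul_left_cancel₀ (by positivity) h1
    exact_mod_cast h2
  · intro k hk
    rw [mem_filter, mem_Ioc] at hk
    obtain ⟨⟨h1, h2⟩, h3, ⟨t, ht⟩⟩ := hk
    obtain ⟨n, hn⟩ : ∃ n : ℤ, n = r + Q * t := ⟨_, rfl⟩
    have hk : k = 2 * A * n + B := by
      rw [hn]
      linear_combination ht
    rw [hk] at h1 h2 h3
    rw [four_fv] at h3
    push_cast at h2
    have e1 : (X : ℤ) < n := by
      by_contra hc
      push Not at hc
      nlinarith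
    have e2 : n ≤ X + H := by
      by_contra hc
      push Not at hc
      nlinarith
    have hn0 : 0 ≤ n := by
      have := Int.natCast_nonneg X
      linarith
    have hnn : ((n.toNat : ℕ) : ℤ) = n := Int.toNat_of_nonneg hn0
    refine ⟨n.toNat, ?_, ?_⟩
    · unfold NS
      rw [mem_filter, mem_filter, mem_Ioc, dvd_NV, hnn]
      refine ⟨⟨⟨by omega, by omega⟩, ⟨t, by rw [hn]; ring⟩⟩, ?_⟩
      exact hc.dvd_of_dvd_mul_left h3
    · rw [hnn, hk]

/-- the error of a squarefree modulus -/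
theorem cF_err {A : ℕ} {B C : ℤ} {Q : ℕ} {r : ℤ} (h : Cl A B C Q r) (X H d : ℕ)
    (hX : 0 ≤ 2 * (A : ℤ) * X + B) :
    cF A B C X H Q r d - (H : ℝ) / Q * gq (dt A B C) Q d = if Nat.Coprime d Q then
      cIq (dt A B C) (2 * (A : ℤ) * X + B).toNat (2 * A * H) (2 * A * Q) (2 * A * r + B) d -
        ((2 * A * H : ℕ) : ℝ) / ((2 * A * Q : ℤ) : ℝ) * gd (dt A B C) d else 0 := by
  have hA : (0 : ℝ) < A := by exact_mod_cast h.A1
  have hQ : (0 : ℝ) < Q := by exact_mod_cast h.Q1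
  unfold gq
  split_ifs with hd
  · rw [cF_eq h X H d hX hd]
    congr 2
    push_cast
    field_simp
  · rw [cF_zero h X H d hd, mul_zero, sub_zero]

end Pool.Agent.H543.DP
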