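import Pool.Agent.H543.DG.Rep

/-!
# The sum over the divisors of `k ^ 2 + a` as a sum over pairs of a cone, with `k`
-/

set_option autoImplicit false

namespace Pool.Agent.H543.DP

open Finset
open Pool.Agent.H543.DG

/-- the sum over the divisors -/
theorem rep_sum (F : Fm) (a : ℤ) (K : ℕ) (hF : Cone F a K) (X H : ℕ) (M0 M : ℤ) (hM0 : 0 ≤ M0)
    (f : ℤ → ℤ → ℝ) :
    ∑ x ∈ Icc 1 (K * M), ∑ y ∈ Ioo 0 x, (if M0 < qm F x y ∧ qm F x y ≤ M then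
        ∑ u ∈ US F X H x y, f (qm F x y) (kk F x y u) else 0) =
      ∑ m ∈ Ioc M0 M, ∑ k ∈ (Ioc (X : ℤ) (X + H)).filter (fun k => m ∣ k ^ 2 + a),
        (Nn F K m k : ℝ) * f m k := by
  classical
  have h1 : ∑ x ∈ Icc 1 (K * M), ∑ y ∈ Ioo 0 x, (if M0 < qm F x y ∧ qm F x y ≤ M then
        ∑ u ∈ US F X H x y, f (qm F x y) (kk F x y u) else 0) =
      ∑ t ∈ ((Icc 1 (K * M)).sigma (fun x : ℤ => (Ioo 0 x).sigma (fun y => US F X H x y))).filter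
        (fun t => M0 < qm F t.1 t.2.1 ∧ qm F t.1 t.2.1 ≤ M),
        f (qm F t.1 t.2.1) (kk F t.1 t.2.1 t.2.2) := by
    rw [sum_filter, sum_sigma]
    apply sum_congr rfl
    intro x _
    rw [sum_sigma]
    apply sum_congr rfl
    intro y _
    split_ifs
    · rfl
    · simp
  have h2 : ∑ m ∈ Ioc M0 M, ∑ k ∈ (Ioc (X : ℤ) (X + H)).filter (fun k => m ∣ k ^ 2 + a),
        (Nn F K m k : ℝ) * f m k =
      ∑ t ∈ (Ioc M0 M).sigma (fun m : ℤ => ((Ioc (X : ℤ) (X + H)).filter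
          (fun k => m ∣ k ^ 2 + a)).sigma (fun k => Ns F K m k)),
        f t.1 t.2.1 := by
    rw [sum_sigma]
    apply sum_congr rfl
    intro m _
    rw [sum_sigma]
    apply sum_congr rfl
    intro k _
    simp only
    rw [sum_const, nsmul_eq_mul, Nn_eq]
  rw [h1, h2]
  apply sum_bij (fun t _ => (⟨qm F t.1 t.2.1, ⟨kk F t.1 t.2.1 t.2.2, (t.1, t.2.1)⟩⟩ :
    (_ : ℤ) × (_ : ℤ) × (ℤ × ℤ)))
  · rintro ⟨x, y, u⟩ ht
    simp only [mem_filter, mem_sigma, mem_Icc, mem_Ioo] at ht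
    obtain ⟨⟨hx, hy, hu⟩, hm⟩ := ht
    have hm0 : 0 < qm F x y := by linarith [hm.1]
    obtain ⟨s1, s2, s3, s4, s5⟩ := US_spec F a hF.disc X H x y u (by linarith [hx.1]) hm0 hu
    simp only [mem_sigma, mem_Ioc, mem_filter]
    refine ⟨hm, ⟨⟨s1, s2⟩, ⟨_, s3⟩⟩, ?_⟩
    rw [mem_Ns F a K hF]
    exact ⟨hy.1, hy.2, rfl, ⟨u, by linarith⟩, ⟨-vv x y u, by linarith⟩⟩
  · rintro ⟨x, y, u⟩ ht ⟨x', y', u'⟩ ht' heq
    simp only [mem_filter, mem_sigma, mem_Icc, mem_Ioo] at ht ht'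
    obtain ⟨⟨hx, hy, hu⟩, hm⟩ := ht
    obtain ⟨⟨hx', hy', hu'⟩, hm'⟩ := ht'
    have hm0 : 0 < qm F x y := by linarith [hm.1]
    have hm0' : 0 < qm F x' y' := by linarith [hm'.1]
    obtain ⟨s1, s2, s3, s4, s5⟩ := US_spec F a hF.disc X H x y u (by linarith [hx.1]) hm0 hu
    obtain ⟨r1, r2, r3, r4, r5⟩ := US_spec F a hF.disc X H x' y' u' (by linarith [hx'.1]) hm0' hu'
    simp only [Sigma.mk.injEq, heq_eq_eq, Prod.mk.injEq] at heq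
    obtain ⟨e1, e2, e3, e4⟩ := heq
    subst e3
    subst e4
    rw [e2] at s4
    have e4 : qm F x y * u = qm F x y * u' := by linarith
    have e5 : u = u' := mul_left_cancel₀ hm0.ne' e4
    rw [e5]
  · rintro ⟨m, k, ⟨x, y⟩⟩ ht
    simp only [mem_sigma, mem_Ioc, mem_filter] at ht
    obtain ⟨hm, ⟨⟨hk1, hk2⟩, hk⟩, hxy⟩ := ht
    have hm0 : 0 < m := by linarith [hm.1]
    obtain ⟨u, hu1, hu2⟩ := u_of F a K hF X H m k x y hm0 hk1 hk2 hxy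
    rw [mem_Ns F a K hF] at hxy
    obtain ⟨h1, h2, h3, h4, h5⟩ := hxy
    refine ⟨⟨x, y, u⟩, ?_, ?_⟩
    · simp only [mem_filter, mem_sigma, mem_Icc, mem_Ioo]
      have h6 := hF.dn x y h1.le h2.le
      rw [h3] at h6
      have h7 : x ≤ x ^ 2 := by nlinarith
      have h8 : (K : ℤ) * m ≤ K * M := mul_le_mul_of_nonneg_left hm.2 (Int.natCast_nonneg K)
      exact ⟨⟨⟨by linarith, by linarith⟩, ⟨h1, h2⟩, hu1⟩, by rw [h3]; exact hm⟩
    · simp only [Sigma.mk.injEq, heq_eq_eq]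
      subst h3
      exact ⟨rfl, by rw [hu2]; exact ⟨rfl, trivial⟩⟩
  · rintro ⟨x, y, u⟩ _
    rfl

end Pool.Agent.H543.DP
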