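import Pool.Agent.H543.DP.Bil2
import Pool.Agent.H543.DP.DecE
import Pool.Agent.H543.DP.Qd
import Pool.Agent.H543.DD.Ty8
import Pool.Graph.R_seed8.Y882.KW.Core4

/-!
# The weighted sieve for quadratic polynomials in short intervals and residue classes
-/

set_option autoImplicit false

namespace Pool.Agent.H543.DP

open Finset Filter
open Pool.Agent.W23.DC
open Pool.Agent.Y882
open Pool.Agent.Y882.KW
open Pool.Agent.Y882.SI
open Pool.Agent.Y882.PX (ro ro_eq)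
open Pool.Agent.Y346.PA (S_KL)
open Pool.Agent.H543.DG hiding rep_sum
open Pool.Agent.H543.DD

theorem gq_prod (a : ℤ) (Q : ℕ) (T : Finset ℕ) (hT : ∀ p ∈ T, p.Prime) :
    gq a Q (∏ p ∈ T, p) = ∏ p ∈ T, gq a Q p := by
  classical
  induction T using Finset.induction_on with
  | empty =>
    rw [prod_empty, prod_empty]
    unfold gq
    rw [if_pos (Nat.coprime_one_left Q), gd_one]
  | insert p T hp ih =>
    have hT' : ∀ q ∈ T, q.Prime := fun q hq => hT q (mem_insert_of_mem hq)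
    have hpp := hT p (mem_insert_self _ _)
    rw [prod_insert hp, prod_insert hp, ← ih hT']
    have hc : Nat.Coprime p (∏ q ∈ T, q) := by
      apply Nat.Coprime.prod_right
      intro q hq
      rw [Nat.coprime_primes hpp (hT' q hq)]
      rintro rfl
      exact hp hq
    have h0 : 1 ≤ ∏ q ∈ T, q := Nat.pos_of_ne_zero (prod_ne_zero_iff.2 fun q hq => (hT' q hq).ne_zero)
    unfold gq
    by_cases h1 : Nat.Coprime p Q
    · by_cases h2 : Nat.Coprime (∏ q ∈ T, q) Q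
      · rw [if_pos h1, if_pos h2, if_pos (Nat.Coprime.mul_left h1 h2), gd_mul a _ _ hpp.one_le h0 hc]
      · rw [if_neg h2, if_neg (fun h => h2 (Nat.Coprime.coprime_mul_left h)), mul_zero]
    · rw [if_neg h1, if_neg (fun h => h1 (Nat.Coprime.coprime_mul_right h)), zero_mul]

theorem gd_ro (a : ℤ) (p : ℕ) : gd a p = (ro (QF a) 0 p : ℝ) / p := by
  unfold gd
  rw [Rt_ro]

theorem gd_prime (a : ℤ) (p : ℕ) (hp : p.Prime) :
    gd a p ≤ 2 / 3 ∧ (2 < p → gd a p ≤ (2 : ℕ) / ((p : ℝ) - 1)) := by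
  have hp0 : (0 : ℝ) < p := by exact_mod_cast hp.pos
  have hr2 : (ro (QF a) 0 p : ℝ) ≤ 2 := by exact_mod_cast ro_quad_le a p hp
  rw [gd_ro]
  constructor
  · rw [div_le_iff₀ hp0]
    by_cases h2 : p = 2
    · subst h2
      rw [ro_quad_two]
      norm_num
    · have : 3 ≤ p := by
        have := hp.two_le
        omega
      have : (3 : ℝ) ≤ p := by exact_mod_cast this
      linarith
  · intro h2
    have : (2 : ℝ) < p := by exact_mod_cast h2
    push_cast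
    exact div_le_div₀ (by norm_num) hr2 (by linarith) (by linarith)

/-- the sum of the weights over the class -/
theorem sum_VV (A : ℕ) (B C : ℤ) (P : Finset ℕ) (hP : ∀ p ∈ P, p.Prime) (w : Finset ℕ → ℝ)
    (X H Q : ℕ) (r : ℤ) (a : ℤ) :
    ∑ n ∈ NS X H Q r, VV P w (fun p => if p ∣ NV A B C n then 1 else 0) =
      (H : ℝ) / Q * VV P w (gq a Q) + ∑ T ∈ P.powerset, w T *
        (cF A B C X H Q r (∏ p ∈ T, p) - (H : ℝ) / Q * gq a Q (∏ p ∈ T, p)) := by
  unfold VV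
  rw [sum_comm, mul_sum, ← sum_add_distrib]
  apply sum_congr rfl
  intro T hT
  rw [mem_powerset] at hT
  have hT' : ∀ p ∈ T, p.Prime := fun p hp => hP p (hT hp)
  unfold cF
  rw [← gq_prod a Q T hT', card_filter, ← mul_sum]
  push_cast
  have h1 : ∀ n ∈ NS X H Q r, ∏ p ∈ T, (if p ∣ NV A B C n then (1 : ℝ) else 0) =
      if (∏ p ∈ T, p) ∣ NV A B C n then 1 else 0 := fun n _ => PX.prod_ind T hT' (NV A B C n)
  rw [sum_congr rfl h1]
  ring

theorem mer_gq {a : ℤ} {P : Finset ℕ} {Y : ℕ} {ε₁ υ η τ : ℝ} (Q : ℕ)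
    (h : Mer P (tt Y) (gd a) ε₁ υ η)
    (hQ : ∑ p ∈ P.filter (fun p => ¬ Nat.Coprime p Q), gd a p ≤ τ) :
    Mer P (tt Y) (gq a Q) ε₁ υ (η + τ) := by
  classical
  intro u v h1 h2 h3
  have h4 := h u v h1 h2 h3
  have h5 : ∑ p ∈ P.filter (fun p => u ≤ tt Y p ∧ tt Y p < v), gd a p -
      ∑ p ∈ P.filter (fun p => u ≤ tt Y p ∧ tt Y p < v), gq a Q p ≤ τ := by
    rw [← sum_sub_distrib]
    refine le_trans ?_ hQ
    calc ∑ p ∈ P.filter (fun p => u ≤ tt Y p ∧ tt Y p < v), (gd a p - gq a Q p) ≤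
        ∑ p ∈ P, (gd a p - gq a Q p) := sum_le_sum_of_subset_of_nonneg (filter_subset _ _)
          (fun p _ _ => by linarith [gq_le a Q p])
      _ = ∑ p ∈ P.filter (fun p => ¬ Nat.Coprime p Q), gd a p := by
          rw [sum_filter]
          apply sum_congr rfl
          intro p _
          unfold gq
          by_cases hc : Nat.Coprime p Q
          · rw [if_pos hc, if_neg (not_not.2 hc), sub_self]
          · rw [if_neg hc, if_pos hc, sub_zero]
  have h6 : 0 ≤ ∑ p ∈ P.filter (fun p => u ≤ tt Y p ∧ tt Y p < v), gd a p -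
      ∑ p ∈ P.filter (fun p => u ≤ tt Y p ∧ tt Y p < v), gq a Q p := by
    rw [← sum_sub_distrib]
    exact sum_nonneg fun p _ => by linarith [gq_le a Q p]
  rw [abs_le] at h4 ⊢
  constructor <;> linarith [h4.1, h4.2]

/-- the coprime parts of the coefficients -/
theorem bil_cl {A : ℕ} {B C : ℤ} {Q : ℕ} {r : ℤ} (h : Cl A B C Q r) (X H M : ℕ)
    (hX : 0 ≤ 2 * (A : ℤ) * X + B) (S : Finset ℕ) (al b : ℕ → ℝ) :
    ∑ m ∈ Icc 1 M, ∑ n ∈ S.filter (fun n => Nat.Coprime m n),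
      al m * b n * (cF A B C X H Q r (m * n) - (H : ℝ) / Q * gq (dt A B C) Q (m * n)) =
    ∑ m ∈ Icc 1 M, ∑ n ∈ S.filter (fun n => Nat.Coprime m n),
      (if Nat.Coprime m Q then al m else 0) * (if Nat.Coprime n Q then b n else 0) *
      (cIq (dt A B C) (2 * (A : ℤ) * X + B).toNat (2 * A * H) (2 * A * Q) (2 * A * r + B) (m * n) -
        ((2 * A * H : ℕ) : ℝ) / ((2 * A * Q : ℤ) : ℝ) * gd (dt A B C) (m * n)) := by
  apply sum_congr rfl
  intro m _
  apply sum_congr rfl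
  intro n _
  rw [cF_err h X H (m * n) hX]
  by_cases h1 : Nat.Coprime m Q
  · by_cases h2 : Nat.Coprime n Q
    · rw [if_pos (Nat.Coprime.mul_left h1 h2), if_pos h1, if_pos h2]
    · rw [if_neg (fun h => h2 (Nat.Coprime.coprime_mul_left h)), if_neg h2]
      ring
  · rw [if_neg (fun h => h1 (Nat.Coprime.coprime_mul_right h)), if_neg h1]
    ring

theorem num1 (Kf aw A L ε c P : ℝ) (hK : 0 ≤ Kf) (haw : 0 ≤ aw) (hA : 0 < A) (hL : 0 < L) (hε : 0 < ε)
    (hc : 0 < c) (h : (Kf * (5 * (1 + aw)) * 2 * (2 * A) * (4 / (ε * c)) + 1) * L ^ 2 ≤ P) :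
    Kf * (5 * (1 + aw) * (2 * L)) * (2 * A) ≤ ε / 2 * (c / (2 * L)) * P := by
  calc Kf * (5 * (1 + aw) * (2 * L)) * (2 * A) = ε / 2 * (c / (2 * L)) *
      ((Kf * (5 * (1 + aw)) * 2 * (2 * A) * (4 / (ε * c))) * L ^ 2) := by
        field_simp
        ring
    _ ≤ ε / 2 * (c / (2 * L)) * P := by
        apply mul_le_mul_of_nonneg_left _ (by positivity)
        have : 0 ≤ L ^ 2 := by positivity
        linarith

theorem num2 (A X H : ℕ) (X' κ : ℝ) (hA : 1 ≤ A) (hX : 1 ≤ X) (hX'0 : 0 ≤ X') (hX' : X' ≤ 3 * A * X)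
    (hκ : 0 < κ) (hκ1 : κ ≤ 1) (g2 : (2 : ℝ) ≤ (X : ℝ) ^ (κ / 2)) (hH : (X : ℝ) ^ (1 - κ / 4) ≤ H) :
    X' ^ (1 - κ) ≤ ((2 * A * H : ℕ) : ℝ) := by
  have hAr : (1 : ℝ) ≤ A := by exact_mod_cast hA
  have hXr1 : (1 : ℝ) ≤ X := by exact_mod_cast hX
  have hX0 : (0 : ℝ) < X := by linarith
  calc X' ^ (1 - κ) ≤ (3 * A * X : ℝ) ^ (1 - κ) :=
        Real.rpow_le_rpow hX'0 hX' (by linarith)
    _ = (3 * A : ℝ) ^ (1 - κ) * (X : ℝ) ^ (1 - κ) := Real.mul_rpow (by positivity) hX0.le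
    _ ≤ (3 * A : ℝ) ^ (1 : ℝ) * (X : ℝ) ^ (1 - κ) := by
        apply mul_le_mul_of_nonneg_right _ (by positivity)
        exact Real.rpow_le_rpow_of_exponent_le (by linarith) (by linarith)
    _ = 3 * A * (X : ℝ) ^ (1 - κ) := by rw [Real.rpow_one]
    _ ≤ 2 * A * ((X : ℝ) ^ (κ / 2) * (X : ℝ) ^ (1 - κ)) := by
        have h1 : 2 * (X : ℝ) ^ (1 - κ) ≤ (X : ℝ) ^ (κ / 2) * (X : ℝ) ^ (1 - κ) :=
          mul_le_mul_of_nonneg_right g2 (by positivity)
        have h2 : 0 < (X : ℝ) ^ (1 - κ) := by positivity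
        nlinarith
    _ = 2 * A * (X : ℝ) ^ (1 - κ / 2) := by
        rw [← Real.rpow_add hX0]
        congr 2
        ring
    _ ≤ 2 * A * (X : ℝ) ^ (1 - κ / 4) := by
        apply mul_le_mul_of_nonneg_left _ (by positivity)
        exact Real.rpow_le_rpow_of_exponent_le hXr1 (by linarith)
    _ ≤ 2 * A * H := mul_le_mul_of_nonneg_left hH (by positivity)
    _ = _ := by push_cast; ring

theorem num3 (a : ℤ) (S : Finset ℕ) (X Q : ℕ) (ε₁ η δ : ℝ) (hη : 0 < η)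
    (hX : 1 ≤ X) (hQ : 1 ≤ Q) (hQX : (Q : ℝ) ≤ (X : ℝ) ^ δ) (hδ : δ ≤ ε₁) (hSp : ∀ p ∈ S, p.Prime)
    (hSX : ∀ p ∈ S, (X : ℝ) ^ (2 * ε₁) ≤ p) (g3 : 4 / η ≤ (X : ℝ) ^ ε₁) :
    ∑ p ∈ S.filter (fun p => ¬ Nat.Coprime p Q), gd a p ≤ η / 2 := by
  have hXr1 : (1 : ℝ) ≤ X := by exact_mod_cast hX
  have hX0 : (0 : ℝ) < X := by linarith
  calc ∑ p ∈ S.filter (fun p => ¬ Nat.Coprime p Q), gd a p ≤
      ∑ p ∈ S.filter (fun p => ¬ Nat.Coprime p Q), 2 / (X : ℝ) ^ (2 * ε₁) := by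
        apply sum_le_sum
        intro p hp
        rw [mem_filter] at hp
        have h7 := hSp p hp.1
        have h8 := hSX p hp.1
        have hr2 : (ro (QF a) 0 p : ℝ) ≤ 2 := by exact_mod_cast ro_quad_le a p h7
        rw [gd_ro]
        exact div_le_div₀ (by norm_num) hr2 (by positivity) h8
    _ = ((S.filter (fun p => ¬ Nat.Coprime p Q)).card : ℝ) * (2 / (X : ℝ) ^ (2 * ε₁)) := by
        rw [sum_const, nsmul_eq_mul]
    _ ≤ (X : ℝ) ^ ε₁ * (2 / (X : ℝ) ^ (2 * ε₁)) := by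
        apply mul_le_mul_of_nonneg_right _ (by positivity)
        have h7 : (S.filter (fun p => ¬ Nat.Coprime p Q)) ⊆ Icc 1 Q := by
          intro p hp
          rw [mem_filter] at hp
          have h8 := hSp p hp.1
          rw [mem_Icc]
          refine ⟨h8.one_le, ?_⟩
          have h9 : p ∣ Q := by
            by_contra h10
            exact hp.2 ((Nat.Prime.coprime_iff_not_dvd h8).2 h10)
          exact Nat.le_of_dvd hQ h9
        have h8 := card_le_card h7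
        rw [Nat.card_Icc, Nat.add_sub_cancel] at h8
        have h9 : ((S.filter (fun p => ¬ Nat.Coprime p Q)).card : ℝ) ≤ Q := by
          exact_mod_cast h8
        refine h9.trans (hQX.trans ?_)
        exact Real.rpow_le_rpow_of_exponent_le hXr1 hδ
    _ = 2 / (X : ℝ) ^ ε₁ := by
        have : (X : ℝ) ^ (2 * ε₁) = (X : ℝ) ^ ε₁ * (X : ℝ) ^ ε₁ := by
          rw [← Real.rpow_add hX0]
          congr 1
          ring
        rw [this]
        have h7 : (X : ℝ) ^ ε₁ ≠ 0 := by positivity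
        field_simp
    _ ≤ η / 2 := by
        rw [div_le_iff₀ (by positivity)]
        rw [div_le_iff₀ hη] at g3
        linarith

open Classical in
/-- **the weighted sieve for quadratic polynomials in short intervals and classes** -/
theorem siG (kl : S_KL) (A : ℕ) (B C : ℤ) (hA : 1 ≤ A) {a : ℤ} (hadt : a = dt A B C)
    (hna : ¬ IsSquare (-a)) (A0 : ℝ) (F f : ℝ → ℝ) (hSF : SF A0 F f) (α β ζ υ aw bw ε : ℝ)
    (hζ : 0 < ζ) (hζq : ∃ q : ℚ, (q : ℝ) = ζ) (h2 : 2 * ζ < α + β) (h5 : ζ < υ → α + β ≤ 5 * ζ)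
    (hζυ : ζ ≤ υ) (hυα : υ < α) (hβ : 0 < β) (ha : 0 ≤ aw) (hb : 0 ≤ bw)
    (hab : bw * υ ≤ aw) (hα2 : α < 1 / 2) (hβ2 : β < 1 / 24) (hε : 0 < ε) :
    ∃ δ : ℝ, 0 < δ ∧ ∃ X0 : ℕ, ∀ X : ℕ, X0 ≤ X → ∀ H : ℕ, (X : ℝ) ^ (1 - δ) ≤ H →
      (H : ℤ) + |B| ≤ X → ∀ (Q : ℕ) (r : ℤ), (Q : ℝ) ≤ (X : ℝ) ^ δ → Cl A B C Q r →
      (H : ℝ) / Q * ((f ((α + β) / ζ) -
        ζ * A0 * (∫ x in ζ..υ, (aw - bw * x) * Phi ζ (α + β - x) / x) - ε) *
          ∏ p ∈ PZ (X ^ 2) ζ, (1 - gq a Q p)) ≤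
        ∑ n ∈ NS X H Q r, WW (X ^ 2) ζ υ aw bw (NV A B C n) ∧
      (((NS X H Q r).filter (fun n => ∀ p ∈ PZ (X ^ 2) ζ, ¬ p ∣ NV A B C n)).card : ℝ) ≤
        H / Q * ((F ((α + β) / ζ) + ε) * ∏ p ∈ PZ (X ^ 2) ζ, (1 - gq a Q p)) := by
  obtain ⟨D⟩ := dec_exists hna
  set α' : ℝ := (α + 1 / 2) / 2 with hα'
  obtain ⟨ε₁, η, hε₁, hεζ, hη, Kf, Y0, HC⟩ := coreF 2 A0 F f hSF α β ζ υ aw bw α' (ε / 2) hζ hζq h2 h5
    (by linarith) hζυ hυα hβ ha hb hab (by linarith) (by linarith)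
  set fs : ℝ := f ((α + β) / ζ) - ζ * A0 * (∫ x in ζ..υ, (aw - bw * x) * Phi ζ (α + β - x) / x)
    with hfs
  set ε0 : ℝ := min (min (1 - 2 * α') (1 / 12 - 2 * β)) (1 / 100) with hε0
  have hε00 : 0 < ε0 := lt_min (lt_min (by linarith) (by linarith)) (by norm_num)
  have hε01 : ε0 ≤ 1 - 2 * α' := (min_le_left _ _).trans (min_le_left _ _)
  have hε02 : ε0 ≤ 1 / 12 - 2 * β := (min_le_left _ _).trans (min_le_right _ _)
  set κ : ℝ := min (ε0 / 200) (ε₁ / 100) with hκdef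
  have hκ : 0 < κ := lt_min (by positivity) (by positivity)
  have hκ1 : κ ≤ ε0 / 200 := min_le_left _ _
  have hκ2 : κ ≤ ε₁ / 100 := min_le_right _ _
  obtain ⟨X1, HB⟩ := bil kl D ε0 ε₁ κ hκ (by linarith) (by linarith) (min_le_right _ _)
  obtain ⟨Y1, HM⟩ := mer_quad a hna ε₁ υ (η / 2) hε₁ (by linarith) (by linarith)
  obtain ⟨c, hc, HL⟩ := lo_quad a hna
  have hAr : (1 : ℝ) ≤ A := by exact_mod_cast hA
  set C1 : ℝ := Kf * (5 * (1 + aw)) * 2 * (2 * A) * (4 / (ε * c)) + 1 with hC1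
  have hC10 : 0 < C1 := by positivity
  have ev1 : ∀ᶠ X : ℕ in atTop, C1 * (Real.log X) ^ 2 ≤ (X : ℝ) ^ (κ / 4) := by
    have h1 : Tendsto (fun x : ℝ => Real.log x ^ ((2 : ℕ) : ℝ) / x ^ (κ / 4)) atTop (nhds 0) := by
      have := isLittleO_log_rpow_rpow_atTop (((2 : ℕ) : ℝ)) (show 0 < κ / 4 by linarith)
      exact this.tendsto_div_nhds_zero
    have h2 := h1.eventually_le_const (show (0 : ℝ) < 1 / C1 by positivity)
    have h3 := tendsto_natCast_atTop_atTop.eventually (h2.and (eventually_gt_atTop (0 : ℝ)))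
    filter_upwards [h3] with X hX
    obtain ⟨h4, h5⟩ := hX
    have h6 : (0 : ℝ) < (X : ℝ) ^ (κ / 4) := by positivity
    rw [div_le_div_iff₀ h6 (by positivity), one_mul, Real.rpow_natCast] at h4
    linarith
  have ev2 : ∀ᶠ X : ℕ in atTop, (2 : ℝ) ≤ (X : ℝ) ^ (κ / 2) :=
    tendsto_natCast_atTop_atTop.eventually
      ((tendsto_rpow_atTop (by positivity)).eventually_ge_atTop _)
  have ev3 : ∀ᶠ X : ℕ in atTop, 4 / η ≤ (X : ℝ) ^ ε₁ :=
    tendsto_natCast_atTop_atTop.eventually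
      ((tendsto_rpow_atTop (by positivity)).eventually_ge_atTop _)
  obtain ⟨X2, hX2⟩ := eventually_atTop.1 (ev1.and (ev2.and ev3))
  refine ⟨κ / 4, by positivity, max (max X1 X2) (max (max Y0 Y1) (max (3 * A) (B.natAbs + 3))), ?_⟩
  intro X hX H hH1 hH2 Q r hQX hcl
  have hX1 : X1 ≤ X := ((le_max_left _ _).trans (le_max_left _ _)).trans hX
  have hX2' : X2 ≤ X := ((le_max_right _ _).trans (le_max_left _ _)).trans hX
  have hXm := ((le_max_right _ _).trans (le_max_right _ _)).trans hX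
  have hX3A : 3 * A ≤ X := (le_max_left _ _).trans hXm
  have hXB : B.natAbs + 3 ≤ X := (le_max_right _ _).trans hXm
  have hX3 : 3 ≤ X := by omega
  have hXX : X ≤ X ^ 2 := by nlinarith
  have hY0 : Y0 ≤ X ^ 2 :=
    (((le_max_left _ _).trans ((le_max_left _ _).trans (le_max_right _ _))).trans hX).trans hXX
  have hY1 : Y1 ≤ X ^ 2 :=
    (((le_max_right _ _).trans ((le_max_left _ _).trans (le_max_right _ _))).trans hX).trans hXX
  have hXr : (3 : ℝ) ≤ X := by exact_mod_cast hX3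
  have hX0 : (0 : ℝ) < X := by linarith
  have hlX : 1 < Real.log X := by
    rw [Real.lt_log_iff_exp_lt hX0]
    linarith [Real.exp_one_lt_d9]
  have hBabs : |B| = (B.natAbs : ℤ) := Int.abs_eq_natAbs B
  have hB1 := neg_abs_le B
  have hB2 := le_abs_self B
  have hXBz : |B| + 3 ≤ (X : ℤ) := by
    rw [hBabs]
    exact_mod_cast hXB
  have hAz : (1 : ℤ) ≤ A := by exact_mod_cast hA
  have hX'0 : 0 ≤ 2 * (A : ℤ) * X + B := by nlinarith
  obtain ⟨X', hX'⟩ : ∃ X' : ℕ, X' = (2 * (A : ℤ) * X + B).toNat := ⟨_, rfl⟩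
  have hX'z : (X' : ℤ) = 2 * A * X + B := by rw [hX']; exact Int.toNat_of_nonneg hX'0
  have hXX' : X ≤ X' := by
    have : (X : ℤ) ≤ X' := by rw [hX'z]; nlinarith
    exact_mod_cast this
  have hX'3 : (X' : ℝ) ≤ 3 * A * X := by
    have h1 : (X' : ℤ) ≤ 3 * A * X := by rw [hX'z]; nlinarith
    exact_mod_cast h1
  have hH'X' : 2 * A * H ≤ X' := by
    have : (2 * A * H : ℤ) ≤ X' := by rw [hX'z]; nlinarith [abs_nonneg B]
    exact_mod_cast this
  have hQ1 : (1 : ℝ) ≤ Q := by exact_mod_cast hcl.Q1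
  have hXr1 : (1 : ℝ) ≤ X := by linarith
  have hXX'r : (X : ℝ) ≤ X' := by exact_mod_cast hXX'
  have hX'1 : (1 : ℝ) ≤ X' := by linarith
  obtain ⟨g1, g2, g3⟩ := hX2 X hX2'
  have hk1 : κ ≤ 1 := by linarith [min_le_right (min (1 - 2 * α') (1 / 12 - 2 * β)) (1 / 100 : ℝ)]
  have hH'1 := num2 A X H X' κ hA (by omega) (Nat.cast_nonneg _) hX'3 hκ hk1 g2 hH1
  set Y : ℕ := X ^ 2 with hY
  have hYr : (Y : ℝ) = (X : ℝ) ^ (2 : ℝ) := by
    rw [hY]
    push_cast
    exact (Real.rpow_natCast _ 2).symm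
  have hYp : ∀ x : ℝ, (Y : ℝ) ^ x = (X : ℝ) ^ (2 * x) := by
    intro x
    rw [hYr, ← Real.rpow_mul hX0.le]
  have hlY : Real.log Y = 2 * Real.log X := by
    rw [hYr, Real.log_rpow hX0]
  have hY3 : 3 ≤ Y := hX3.trans hXX
  obtain ⟨wU, wL, fU, fL, hN, hV⟩ := HC Y hY0
  have hPp : ∀ p ∈ PZ Y υ, p.Prime := by
    intro p hp
    unfold PZ at hp
    rw [mem_filter] at hp
    exact hp.2.1
  have hPp2 : ∀ p ∈ pr Y ε₁ υ, p.Prime := by
    intro p hp
    unfold pr at hp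
    rw [mem_filter] at hp
    exact hp.2.1
  have hsub : pr Y ε₁ υ ⊆ PZ Y υ := by
    intro p hp
    unfold pr at hp
    unfold PZ
    rw [mem_filter] at hp ⊢
    exact ⟨hp.1, hp.2.1, hp.2.2.2⟩
  have hmer0 : Mer (pr Y ε₁ υ) (tt Y) (gd a) ε₁ υ (η / 2) := by
    have h6 := HM Y hY1
    have h7 : gd a = fun p => (ro (QF a) 0 p : ℝ) / p := funext (gd_ro a)
    rw [h7]
    exact h6
  have hpl : ∀ p ∈ pr Y ε₁ υ, (X : ℝ) ^ (2 * ε₁) ≤ p := by
    intro p hp
    have h7 := hPp2 p hp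
    unfold pr at hp
    rw [mem_filter] at hp
    rw [← hYp]
    by_contra hc
    push Not at hc
    exact absurd ((tt_lt Y p ε₁ (by omega) h7.pos).2 hc) (not_lt.2 hp.2.2.1)
  have hmer : Mer (pr Y ε₁ υ) (tt Y) (gq a Q) ε₁ υ η := by
    have h6 := mer_gq Q hmer0 (τ := η / 2) (num3 a _ X Q ε₁ η (κ / 4) hη (by omega) hcl.Q1 hQX
      (by linarith) hPp2 hpl g3)
    have e : η / 2 + η / 2 = η := by ring
    rw [e] at h6
    exact h6
  obtain ⟨hVL, hVU⟩ := hV (gq a Q) (fun p _ => gq_nonneg a Q p) (fun p hp => by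
    have := (gd_prime a p (hPp p hp)).1
    linarith [gq_le a Q p]) (fun p hp h => (gq_le a Q p).trans ((gd_prime a p (hPp p hp)).2 h)) hmer
  set V : ℝ := ∏ p ∈ PZ Y ζ, (1 - gq a Q p) with hVdef
  -- the local factor
  have hVlow : c / (2 * Real.log X) ≤ V := by
    have h6 := HL Y hY3
    rw [hlY] at h6
    refine h6.trans ?_
    unfold Pool.Agent.Y882.SI.lo
    have hsub2 : PZ Y ζ ⊆ (Icc 1 Y).filter Nat.Prime := by
      intro p hp
      unfold PZ at hp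
      rw [mem_filter] at hp ⊢
      exact ⟨hp.1, hp.2.1⟩
    have hfac : ∀ p ∈ (Icc 1 Y).filter Nat.Prime, 0 ≤ 1 - gd a p ∧ 1 - gd a p ≤ 1 := by
      intro p hp
      have h7 := (gd_prime a p (mem_filter.1 hp).2).1
      have h8 := gd_nonneg a p
      constructor <;> linarith
    have e1 : ∏ p ∈ (Icc 1 Y).filter Nat.Prime, (1 - (ro (QF a) 0 p : ℝ) / p) =
        ∏ p ∈ (Icc 1 Y).filter Nat.Prime, (1 - gd a p) := by
      apply prod_congr rfl
      intro p _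
      rw [gd_ro]
    rw [e1, ← prod_sdiff hsub2]
    calc (∏ p ∈ (Icc 1 Y).filter Nat.Prime \ PZ Y ζ, (1 - gd a p)) * ∏ p ∈ PZ Y ζ, (1 - gd a p) ≤
        1 * ∏ p ∈ PZ Y ζ, (1 - gd a p) := by
          apply mul_le_mul_of_nonneg_right
          · apply prod_le_one
            · intro p hp
              exact (hfac p (mem_sdiff.1 hp).1).1
            · intro p hp
              exact (hfac p (mem_sdiff.1 hp).1).2
          · exact prod_nonneg fun p hp => (hfac p (hsub2 hp)).1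
      _ = ∏ p ∈ PZ Y ζ, (1 - gd a p) := one_mul _
      _ ≤ V := by
          rw [hVdef]
          apply Finset.prod_le_prod
          · exact fun p hp => (hfac p (hsub2 hp)).1
          · intro p _
            linarith [gq_le a Q p]
  have hV0 : 0 < V := lt_of_lt_of_le (by positivity) hVlow
  -- the error term
  have hHr : (0 : ℝ) ≤ H := Nat.cast_nonneg _
  set C0 : ℝ := 5 * (1 + aw) * Real.log Y with hCdef
  have hC0 : 0 < C0 := by
    rw [hCdef, hlY]
    positivity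
  have hq0 : (0 : ℤ) < 2 * A * Q := by
    have := hcl.Q1
    positivity
  have hcopm : ∀ m : ℕ, Nat.Coprime m Q → IsCoprime (m : ℤ) (2 * A * Q) := by
    intro m hm
    have h1 := Nat.isCoprime_iff_coprime.2 (cop4 hcl m hm)
    have h2 := Nat.isCoprime_iff_coprime.2 hm
    push_cast at h1
    have h3 : IsCoprime (m : ℤ) (2 * A) := by
      apply IsCoprime.of_isCoprime_of_dvd_right h1
      exact ⟨2, by ring⟩
    exact h3.mul_right h2
  set E : ℝ := ((2 * A * H : ℕ) : ℝ) * (X' : ℝ) ^ (-(κ / 2)) with hE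
  have herr : ∀ w : Finset ℕ → ℝ, Fac (PZ Y υ) (pr Y ε₁ υ) Y α' β Kf C0 w →
      |∑ T ∈ (PZ Y υ).powerset, w T *
        (cF A B C X H Q r (∏ p ∈ T, p) - (H : ℝ) / Q * gq a Q (∏ p ∈ T, p))| ≤
        (H : ℝ) / Q * (ε / 2 * V) := by
    intro w hw
    have h6 := fac_err (PZ Y υ) (pr Y ε₁ υ) hPp hPp2 hsub Y α' β Kf C0 hC0 w hw ⌊(Y : ℝ) ^ α'⌋₊
      (Bs X' ⌊(Y : ℝ) ^ β⌋₊ ε₁) (Nat.lt_floor_add_one _) ?_ ?_
      (fun d => cF A B C X H Q r d - (H : ℝ) / Q * gq a Q d) E ?_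
    · refine h6.trans ?_
      have h7 : (X' : ℝ) ^ (-(κ / 2)) ≤ (X : ℝ) ^ (-(κ / 2)) :=
        Real.rpow_le_rpow_of_nonpos hX0 hXX'r (by linarith)
      have hlX0 : 0 < Real.log X := by linarith
      have h9 : (Kf : ℝ) * C0 * (2 * A) * Q * (X : ℝ) ^ (-(κ / 2)) ≤ ε / 2 * V := by
        have h8 : ε / 2 * (c / (2 * Real.log X)) ≤ ε / 2 * V :=
          mul_le_mul_of_nonneg_left hVlow (by positivity)
        refine le_trans ?_ h8
        have h10 : (Q : ℝ) * (X : ℝ) ^ (-(κ / 2)) ≤ (X : ℝ) ^ (-(κ / 4)) := by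
          calc (Q : ℝ) * (X : ℝ) ^ (-(κ / 2)) ≤ (X : ℝ) ^ (κ / 4) * (X : ℝ) ^ (-(κ / 2)) :=
                mul_le_mul_of_nonneg_right hQX (by positivity)
            _ = _ := by
                rw [← Real.rpow_add hX0]
                congr 1
                ring
        calc (Kf : ℝ) * C0 * (2 * A) * Q * (X : ℝ) ^ (-(κ / 2)) =
            Kf * C0 * (2 * A) * (Q * (X : ℝ) ^ (-(κ / 2))) := by ring
          _ ≤ Kf * C0 * (2 * A) * (X : ℝ) ^ (-(κ / 4)) :=
              mul_le_mul_of_nonneg_left h10 (by positivity)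
          _ ≤ ε / 2 * (c / (2 * Real.log X)) := by
              rw [Real.rpow_neg hX0.le, ← div_eq_mul_inv, div_le_iff₀ (by positivity)]
              rw [hCdef, hlY]
              exact num1 Kf aw A (Real.log X) ε c _ (Nat.cast_nonneg _) ha (by linarith) hlX0 hε hc g1
      calc (Kf : ℝ) * (C0 * E) ≤ Kf * (C0 * (((2 * A * H : ℕ) : ℝ) * (X : ℝ) ^ (-(κ / 2)))) := by
            apply mul_le_mul_of_nonneg_left _ (by positivity)
            apply mul_le_mul_of_nonneg_left _ hC0.le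
            exact mul_le_mul_of_nonneg_left h7 (by positivity)
        _ = H / Q * (Kf * C0 * (2 * A) * Q * (X : ℝ) ^ (-(κ / 2))) := by
            have : (Q : ℝ) ≠ 0 := by linarith
            push_cast
            field_simp
        _ ≤ _ := mul_le_mul_of_nonneg_left h9 (by positivity)
    · intro n hn1 hn2 hn3 hn4
      unfold Bs
      rw [mem_filter, mem_Icc]
      refine ⟨⟨hn1, Nat.le_floor hn2⟩, hn3, ?_⟩
      intro p hp
      have h6 := hn4 hp
      refine le_trans ?_ (hpl p h6)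
      have h7 : (X' : ℝ) ≤ (X : ℝ) ^ (2 : ℝ) := by
        refine hX'3.trans ?_
        have h8 : (3 * A : ℝ) ≤ X := by exact_mod_cast hX3A
        rw [Real.rpow_two, sq]
        exact mul_le_mul_of_nonneg_right h8 hX0.le
      calc (X' : ℝ) ^ ε₁ ≤ ((X : ℝ) ^ (2 : ℝ)) ^ ε₁ :=
            Real.rpow_le_rpow (Nat.cast_nonneg _) h7 hε₁.le
        _ = _ := by rw [← Real.rpow_mul hX0.le]
    · intro n hn
      unfold Bs at hn
      rw [mem_filter, mem_Icc] at hn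
      exact ⟨hn.1.1, hn.2.1⟩
    · intro al b h1 h2 h3
      rw [hadt, bil_cl hcl X H _ hX'0, ← hadt, ← hX']
      rw [hE]
      apply HB X' (hX1.trans hXX') (2 * A * H) hH'1 hH'X' ⌊(Y : ℝ) ^ β⌋₊ ⌊(Y : ℝ) ^ α'⌋₊ ?_ ?_
        (2 * A * Q) (2 * A * r + B) hq0
      · intro m
        split_ifs
        · exact h1 m
        · simp
      · intro n
        split_ifs
        · exact h2 n
        · simp
      · intro m hm
        split_ifs at hm with hc
        · exact ⟨h3 m hm, hcopm m hc⟩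
        · exact absurd rfl hm
      · intro n hn
        split_ifs at hn with hc
        · exact hcopm n hc
        · exact absurd rfl hn
      · refine (Nat.floor_le (by positivity)).trans ?_
        rw [hYp]
        calc (X : ℝ) ^ (2 * β) ≤ (X' : ℝ) ^ (2 * β) :=
              Real.rpow_le_rpow hX0.le hXX'r (by linarith)
          _ ≤ _ := Real.rpow_le_rpow_of_exponent_le hX'1 (by linarith)
      · refine (Nat.floor_le (by positivity)).trans ?_
        rw [hYp]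
        calc (X : ℝ) ^ (2 * α') ≤ (X' : ℝ) ^ (2 * α') :=
              Real.rpow_le_rpow hX0.le hXX'r (by linarith)
          _ ≤ _ := Real.rpow_le_rpow_of_exponent_le hX'1 (by linarith)
  have hHQ : (0 : ℝ) ≤ H / Q := by positivity
  constructor
  · calc (H : ℝ) / Q * ((fs - ε) * V) = H / Q * ((fs - ε / 2) * V) - H / Q * (ε / 2 * V) := by ring
      _ ≤ H / Q * VV (PZ Y υ) wL (gq a Q) + ∑ T ∈ (PZ Y υ).powerset, wL T *
          (cF A B C X H Q r (∏ p ∈ T, p) - (H : ℝ) / Q * gq a Q (∏ p ∈ T, p)) := by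
          have h6 := mul_le_mul_of_nonneg_left hVL hHQ
          have h7 := neg_le_of_abs_le (herr wL fL)
          linarith
      _ = ∑ n ∈ NS X H Q r, VV (PZ Y υ) wL (fun p => if p ∣ NV A B C n then 1 else 0) :=
          (sum_VV A B C _ hPp wL X H Q r a).symm
      _ ≤ _ := sum_le_sum fun n _ => (hN (NV A B C n)).1
  · refine le_trans (b := ∑ n ∈ NS X H Q r,
      VV (PZ Y υ) wU (fun p => if p ∣ NV A B C n then 1 else 0)) ?_ ?_
    · rw [card_filter]
      push_cast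
      apply sum_le_sum
      intro n _
      refine le_trans (le_of_eq ?_) (hN (NV A B C n)).2
      congr
    rw [sum_VV A B C _ hPp wU X H Q r a]
    have h7 := mul_le_mul_of_nonneg_left hVU hHQ
    have h8 := le_of_abs_le (herr wU fU)
    calc (H : ℝ) / Q * VV (PZ Y υ) wU (gq a Q) + ∑ T ∈ (PZ Y υ).powerset, wU T *
          (cF A B C X H Q r (∏ p ∈ T, p) - (H : ℝ) / Q * gq a Q (∏ p ∈ T, p)) ≤
        H / Q * ((F ((α + β) / ζ) + ε / 2) * V) + H / Q * (ε / 2 * V) := add_le_add h7 h8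
      _ = _ := by ring

end Pool.Agent.H543.DP
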