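import Pool.Agent.H543.DG.Sq

/-!
# Expanding the square, with a residue class for `k`
-/

set_option autoImplicit false

namespace Pool.Agent.H543.DP

open Finset
open Pool.Agent.H543.DG
open scoped Classical

/-- the sum over the `k` in one class -/
noncomputable def SSr (F : Fm) (a : ℤ) (X H : ℕ) (b : ℕ → ℝ) (B : Finset ℕ) (q r x y : ℤ) : ℝ :=
  ∑ u ∈ (US F X H x y).filter (fun u => q ∣ kk F x y u - r), FF a b B (ww F x y u)

/-- the sum of the squares over all classes -/
noncomputable def TQ (F : Fm) (a : ℤ) (X H : ℕ) (b : ℕ → ℝ) (B : Finset ℕ) (q x y : ℤ) : ℝ :=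
  ∑ u ∈ US F X H x y, ∑ u' ∈ US F X H x y, if x * q ∣ u' - u then
    FF a b B (ww F x y u) * FF a b B (ww F x y u') else 0

/-- classes -/
theorem cls_sq (U : Finset ℤ) (n : ℤ) (hn : 0 < n) (f : ℤ → ℝ) :
    ∑ u ∈ U, ∑ u' ∈ U, (if n ∣ u' - u then f u * f u' else 0) =
      ∑ c ∈ Ico 0 n, (∑ u ∈ U.filter (fun u => u % n = c), f u) ^ 2 := by
  have h1 : ∀ c : ℤ, (∑ u ∈ U.filter (fun u => u % n = c), f u) ^ 2 =
      ∑ u ∈ U, ∑ u' ∈ U, (if u % n = c ∧ u' % n = c then f u * f u' else 0) := by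
    intro c
    rw [sq, sum_mul_sum, sum_filter]
    apply sum_congr rfl
    intro u _
    rw [sum_filter]
    by_cases h : u % n = c
    · rw [if_pos h]
      apply sum_congr rfl
      intro u' _
      by_cases h' : u' % n = c
      · rw [if_pos h', if_pos ⟨h, h'⟩]
      · rw [if_neg h', if_neg (fun h2 => h' h2.2)]
    · rw [if_neg h]
      symm
      apply sum_eq_zero
      intro u' _
      rw [if_neg (fun h2 => h h2.1)]
  have h0 : ∑ c ∈ Ico 0 n, ∑ u ∈ U, ∑ u' ∈ U, (if u % n = c ∧ u' % n = c then f u * f u' else 0) =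
      ∑ u ∈ U, ∑ u' ∈ U, ∑ c ∈ Ico 0 n, (if u % n = c ∧ u' % n = c then f u * f u' else 0) := by
    rw [sum_comm]
    apply sum_congr rfl
    intro u _
    rw [sum_comm]
  rw [sum_congr rfl (fun c _ => h1 c), h0]
  apply sum_congr rfl
  intro u _
  apply sum_congr rfl
  intro u' _
  by_cases h : n ∣ u' - u
  · rw [if_pos h]
    have h2 : u' % n = u % n := Int.emod_eq_emod_iff_emod_sub_eq_zero.2 (Int.emod_eq_zero_of_dvd h)
    rw [sum_eq_single (u % n)]
    · rw [if_pos ⟨rfl, h2⟩]
    · intro c _ hc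
      rw [if_neg (fun h3 => hc h3.1.symm)]
    · intro h3
      exfalso
      apply h3
      rw [mem_Ico]
      exact ⟨Int.emod_nonneg _ hn.ne', Int.emod_lt_of_pos _ hn⟩
  · rw [if_neg h]
    symm
    apply sum_eq_zero
    intro c _
    rw [if_neg]
    rintro ⟨h2, h3⟩
    apply h
    exact Int.dvd_of_emod_eq_zero (Int.emod_eq_emod_iff_emod_sub_eq_zero.1 (h3.trans h2.symm))

theorem TQ_nonneg (F : Fm) (a : ℤ) (X H : ℕ) (b : ℕ → ℝ) (B : Finset ℕ) (q x y : ℤ) (hq : 0 < q)
    (hx : 0 < x) : 0 ≤ TQ F a X H b B q x y := by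
  unfold TQ
  rw [cls_sq _ (x * q) (mul_pos hx hq) (fun u => FF a b B (ww F x y u))]
  exact sum_nonneg fun _ _ => sq_nonneg _

/-- one class -/
theorem SSr_le (F : Fm) (a : ℤ) (hF : F.A * F.C - F.B ^ 2 = a) (X H : ℕ) (b : ℕ → ℝ) (B : Finset ℕ)
    (q r x y : ℤ) (hq : 0 < q) (hx : 0 < x) (hm : 0 < qm F x y) (hc : IsCoprime (qm F x y) q) :
    SSr F a X H b B q r x y ^ 2 ≤ TQ F a X H b B q x y := by
  by_cases he : ((US F X H x y).filter (fun u => q ∣ kk F x y u - r)) = ∅
  · have : SSr F a X H b B q r x y = 0 := by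
      unfold SSr
      rw [he, sum_empty]
    rw [this]
    have := TQ_nonneg F a X H b B q x y hq hx
    simpa using this
  · obtain ⟨u0, hu0⟩ := nonempty_iff_ne_empty.2 he
    rw [mem_filter] at hu0
    have hn : 0 < x * q := mul_pos hx hq
    unfold TQ
    rw [cls_sq _ (x * q) hn (fun u => FF a b B (ww F x y u))]
    have h1 : SSr F a X H b B q r x y =
        ∑ u ∈ (US F X H x y).filter (fun u => u % (x * q) = u0 % (x * q)), FF a b B (ww F x y u) := by
      unfold SSr
      apply sum_congr _ (fun _ _ => rfl)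
      apply filter_congr
      intro u hu
      obtain ⟨t, ht⟩ := US_cop F X H x y u0 u hu0.1 hu
      obtain ⟨-, -, -, s4, -⟩ := US_spec F a hF X H x y u hx hm hu
      obtain ⟨-, -, -, s4', -⟩ := US_spec F a hF X H x y u0 hx hm hu0.1
      have h2 : kk F x y u - kk F x y u0 = qm F x y * t := by
        apply mul_left_cancel₀ hx.ne'
        have : x * (kk F x y u - kk F x y u0) = qm F x y * (u - u0) := by
          rw [mul_sub, s4, s4']
          ring
        rw [this, ht]
        ring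
      have h3 : q ∣ kk F x y u - r ↔ q ∣ t := by
        have e : kk F x y u - r = (kk F x y u0 - r) + qm F x y * t := by rw [← h2]; ring
        rw [e]
        constructor
        · intro h4
          have h5 := (dvd_add_right hu0.2).1 h4
          exact hc.symm.dvd_of_dvd_mul_left h5
        · intro h4
          exact dvd_add hu0.2 (h4.mul_left _)
      rw [h3]
      have h4 : q ∣ t ↔ x * q ∣ u - u0 := by
        rw [ht]
        exact (mul_dvd_mul_iff_left hx.ne').symm
      rw [h4]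
      constructor
      · intro h5
        exact Int.emod_eq_emod_iff_emod_sub_eq_zero.2 (Int.emod_eq_zero_of_dvd h5)
      · intro h5
        exact Int.dvd_of_emod_eq_zero (Int.emod_eq_emod_iff_emod_sub_eq_zero.1 h5)
    rw [h1]
    apply single_le_sum (f := fun c => (∑ u ∈ (US F X H x y).filter (fun u => u % (x * q) = c),
      FF a b B (ww F x y u)) ^ 2) (fun _ _ => sq_nonneg _)
    rw [mem_Ico]
    exact ⟨Int.emod_nonneg _ hn.ne', Int.emod_lt_of_pos _ hn⟩

/-- the right side of the expansion -/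
noncomputable def RB (F : Fm) (a : ℤ) (K X H : ℕ) (b : ℕ → ℝ) (B : Finset ℕ) (x : ℕ) : ℝ :=
  ∑ y ∈ Ioo 0 (x : ℤ), ∑ u ∈ US F X H x y, (FF a b B (ww F x y u)) ^ 2 +
      ∑ l ∈ (Icc (-(((K * H) / (x * x) : ℕ) : ℤ)) ((K * H) / (x * x) : ℕ)).erase 0,
        ∑ n1 ∈ B, ∑ n2 ∈ B.filter (fun n2 => Nat.Coprime n1 n2), |D4 F a X H x l n1 n2| +
      ∑ p ∈ B.biUnion Nat.primeFactors, ∑ y ∈ Ioo 0 (x : ℤ), (∑ u ∈ US F X H x y,
        ∑ n ∈ B.filter (fun n => p ∣ n), (dv n (ww F x y u) + gd a n)) ^ 2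

/-- **The square.** -/
theorem sq_expand (F : Fm) (a : ℤ) (K : ℕ) (hF : Cone F a K) (X H x : ℕ) (hx : 1 ≤ x) (b : ℕ → ℝ)
    (hb : ∀ n, |b n| ≤ 1) (B : Finset ℕ) (hB : ∀ n ∈ B, 1 ≤ n) (q : ℤ) :
    ∑ y ∈ Ioo 0 (x : ℤ), TQ F a X H b B q x y ≤ RB F a K X H b B x := by
  have hx0 : (0 : ℤ) < x := by exact_mod_cast hx
  have hpos : ∀ (n : ℕ) (v : ℤ), 0 ≤ dv n v + gd a n := fun n v =>
    add_nonneg (dv_nonneg n v) (gd_nonneg a n)
  -- the coprime part and the other part
  set cp : ℤ → ℤ → ℝ := fun w w' => ∑ n1 ∈ B, ∑ n2 ∈ B.filter (fun n2 => Nat.Coprime n1 n2),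
      b n1 * b n2 * ((dv n1 w - gd a n1) * (dv n2 w' - gd a n2)) with hcp
  set nc : ℤ → ℤ → ℝ := fun w w' => ∑ n1 ∈ B, ∑ n2 ∈ B.filter (fun n2 => ¬ Nat.Coprime n1 n2),
      b n1 * b n2 * ((dv n1 w - gd a n1) * (dv n2 w' - gd a n2)) with hnc
  have hFF : ∀ w w' : ℤ, FF a b B w * FF a b B w' = cp w w' + nc w w' := by
    intro w w'
    unfold FF
    rw [sum_mul_sum, hcp, hnc]
    simp only
    rw [← sum_add_distrib]
    apply sum_congr rfl
    intro n1 _
    rw [sum_filter_add_sum_filter_not]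
    apply sum_congr rfl
    intro n2 _
    ring
  have h1 : ∀ y : ℤ, TQ F a X H b B q x y = ∑ u ∈ US F X H x y, (FF a b B (ww F x y u)) ^ 2 +
      (∑ u ∈ US F X H x y, ∑ u' ∈ (US F X H x y).erase u,
        (if (x : ℤ) * q ∣ u' - u then cp (ww F x y u) (ww F x y u') else 0) +
       ∑ u ∈ US F X H x y, ∑ u' ∈ (US F X H x y).erase u,
        (if (x : ℤ) * q ∣ u' - u then nc (ww F x y u) (ww F x y u') else 0)) := by
    intro y
    unfold TQ
    rw [← sum_add_distrib, ← sum_add_distrib]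
    apply sum_congr rfl
    intro u hu
    rw [← add_sum_erase _ _ hu, ← sum_add_distrib]
    congr 1
    · rw [sub_self, if_pos (dvd_zero _), sq]
    · apply sum_congr rfl
      intro u' _
      split_ifs
      · exact hFF _ _
      · simp
  unfold RB
  rw [sum_congr rfl (fun y _ => h1 y), sum_add_distrib, sum_add_distrib, ← add_assoc]
  apply add_le_add
  · apply add_le_add le_rfl
    -- coprime part
    have h2 : ∑ y ∈ Ioo 0 (x : ℤ), ∑ u ∈ US F X H x y, ∑ u' ∈ (US F X H x y).erase u,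
        (if (x : ℤ) * q ∣ u' - u then cp (ww F x y u) (ww F x y u') else 0) =
        ∑ l ∈ (Icc (-(((K * H) / (x * x) : ℕ) : ℤ)) ((K * H) / (x * x) : ℕ)).erase 0,
        (if q ∣ l then ∑ n1 ∈ B, ∑ n2 ∈ B.filter (fun n2 => Nat.Coprime n1 n2),
          b n1 * b n2 * D4 F a X H x l n1 n2 else 0) := by
      rw [sum_congr rfl (fun y hy => pairs_l F a K hF X H x hx y (mem_Ioo.1 hy).1.le (mem_Ioo.1 hy).2.le
        (fun u u' => if (x : ℤ) * q ∣ u' - u then cp (ww F x y u) (ww F x y u') else 0))]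
      rw [sum_comm]
      apply sum_congr rfl
      intro l _
      have hdl : ∀ u : ℤ, ((x : ℤ) * q ∣ u + x * l - u) ↔ q ∣ l := by
        intro u
        rw [show u + (x : ℤ) * l - u = x * l by ring]
        exact mul_dvd_mul_iff_left hx0.ne'
      simp_rw [hdl]
      by_cases hql : q ∣ l
      · simp only [if_pos hql]
        simp only [hcp]
        simp_rw [D4_eq, mul_sum]
        calc ∑ y ∈ Ioo 0 (x : ℤ), ∑ u ∈ (US F X H x y).filter (fun u => u + x * l ∈ US F X H x y),
              ∑ n1 ∈ B, ∑ n2 ∈ B.filter (fun n2 => Nat.Coprime n1 n2),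
              b n1 * b n2 * ((dv n1 (ww F x y u) - gd a n1) * (dv n2 (ww F x y (u + x * l)) - gd a n2)) =
            ∑ y ∈ Ioo 0 (x : ℤ), ∑ n1 ∈ B, ∑ u ∈ (US F X H x y).filter (fun u => u + x * l ∈ US F X H x y),
              ∑ n2 ∈ B.filter (fun n2 => Nat.Coprime n1 n2),
              b n1 * b n2 * ((dv n1 (ww F x y u) - gd a n1) * (dv n2 (ww F x y (u + x * l)) - gd a n2)) :=
              sum_congr rfl fun y _ => sum_comm
          _ = ∑ n1 ∈ B, ∑ y ∈ Ioo 0 (x : ℤ), ∑ u ∈ (US F X H x y).filter (fun u => u + x * l ∈ US F X H x y),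
              ∑ n2 ∈ B.filter (fun n2 => Nat.Coprime n1 n2),
              b n1 * b n2 * ((dv n1 (ww F x y u) - gd a n1) * (dv n2 (ww F x y (u + x * l)) - gd a n2)) :=
              sum_comm
          _ = ∑ n1 ∈ B, ∑ y ∈ Ioo 0 (x : ℤ), ∑ n2 ∈ B.filter (fun n2 => Nat.Coprime n1 n2),
              ∑ u ∈ (US F X H x y).filter (fun u => u + x * l ∈ US F X H x y),
              b n1 * b n2 * ((dv n1 (ww F x y u) - gd a n1) * (dv n2 (ww F x y (u + x * l)) - gd a n2)) :=
              sum_congr rfl fun n1 _ => sum_congr rfl fun y _ => sum_comm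
          _ = _ := sum_congr rfl fun n1 _ => sum_comm
      · simp only [if_neg hql, sum_const_zero]
    rw [h2]
    apply sum_le_sum
    intro l _
    split_ifs
    · apply sum_le_sum
      intro n1 _
      apply sum_le_sum
      intro n2 _
      refine (le_abs_self _).trans ?_
      rw [abs_mul, abs_mul]
      calc |b n1| * |b n2| * |D4 F a X H x l n1 n2| ≤ 1 * 1 * |D4 F a X H x l n1 n2| := by
            apply mul_le_mul_of_nonneg_right _ (abs_nonneg _)
            exact mul_le_mul (hb _) (hb _) (abs_nonneg _) zero_le_one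
        _ = _ := by ring
    · exact sum_nonneg fun n1 _ => sum_nonneg fun n2 _ => abs_nonneg _
  · rw [sum_comm]
    apply sum_le_sum
    intro y _
    calc ∑ u ∈ US F X H x y, ∑ u' ∈ (US F X H x y).erase u,
          (if (x : ℤ) * q ∣ u' - u then nc (ww F x y u) (ww F x y u') else 0) ≤
        ∑ u ∈ US F X H x y, ∑ u' ∈ (US F X H x y).erase u, ∑ p ∈ B.biUnion Nat.primeFactors,
          (∑ n ∈ B.filter (fun n => p ∣ n), (dv n (ww F x y u) + gd a n)) *
          (∑ n ∈ B.filter (fun n => p ∣ n), (dv n (ww F x y u') + gd a n)) := by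
          refine sum_le_sum fun u _ => sum_le_sum fun u' _ => ?_
          split_ifs
          · exact nc_bound a b hb B hB _ _
          · exact sum_nonneg fun p _ => mul_nonneg (sum_nonneg fun n _ => hpos _ _)
              (sum_nonneg fun n _ => hpos _ _)
      _ ≤ ∑ u ∈ US F X H x y, ∑ u' ∈ US F X H x y, ∑ p ∈ B.biUnion Nat.primeFactors,
          (∑ n ∈ B.filter (fun n => p ∣ n), (dv n (ww F x y u) + gd a n)) *
          (∑ n ∈ B.filter (fun n => p ∣ n), (dv n (ww F x y u') + gd a n)) := by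
          apply sum_le_sum
          intro u _
          apply sum_le_sum_of_subset_of_nonneg (erase_subset _ _)
          intro u' _ _
          apply sum_nonneg
          intro p _
          exact mul_nonneg (sum_nonneg fun n _ => hpos _ _) (sum_nonneg fun n _ => hpos _ _)
      _ = _ := by
          calc ∑ u ∈ US F X H x y, ∑ u' ∈ US F X H x y, ∑ p ∈ B.biUnion Nat.primeFactors,
              (∑ n ∈ B.filter (fun n => p ∣ n), (dv n (ww F x y u) + gd a n)) *
              (∑ n ∈ B.filter (fun n => p ∣ n), (dv n (ww F x y u') + gd a n)) =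
              ∑ u ∈ US F X H x y, ∑ p ∈ B.biUnion Nat.primeFactors, ∑ u' ∈ US F X H x y,
              (∑ n ∈ B.filter (fun n => p ∣ n), (dv n (ww F x y u) + gd a n)) *
              (∑ n ∈ B.filter (fun n => p ∣ n), (dv n (ww F x y u') + gd a n)) :=
                sum_congr rfl fun u _ => sum_comm
            _ = ∑ p ∈ B.biUnion Nat.primeFactors, ∑ u ∈ US F X H x y, ∑ u' ∈ US F X H x y,
              (∑ n ∈ B.filter (fun n => p ∣ n), (dv n (ww F x y u) + gd a n)) *
              (∑ n ∈ B.filter (fun n => p ∣ n), (dv n (ww F x y u') + gd a n)) := sum_comm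
            _ = _ := by
                apply sum_congr rfl
                intro p _
                rw [sq, sum_mul_sum]

end Pool.Agent.H543.DP
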